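import Pool.Agent.Y206.G.Har
import Pool.Agent.Helper947.Geo.G4
import Pool.Agent.H503R3.QCI.Hilb

set_option autoImplicit false
open MvPolynomial
open Pool.Agent.Helper947.Geo

namespace Pool.Agent.Y206.G

theorem homog_cancel {d e j : ℕ} {g h : MvPolynomial (Fin d) ℂ} (hg : g.IsHomogeneous e)
    (hg0 : g ≠ 0) (hgh : (g * h).IsHomogeneous (e + j)) : h.IsHomogeneous j := by
  rw [← sum_homogeneousComponent h]
  refine IsHomogeneous.sum _ _ _ fun i _ => ?_
  by_cases hij : i = j
  · subst hij; exact homogeneousComponent_isHomogeneous _ _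
  · have h1 : g * homogeneousComponent i h = 0 := by
      rw [← H503R3.QCI.comp_mul hg, homogeneousComponent_of_mem hgh, if_neg (by omega)]
    have h2 := (mul_eq_zero.mp h1).resolve_left hg0
    rw [h2]
    exact isHomogeneous_zero _ _ _

theorem exists_coord {f r : ℕ} (u : Fin r → Fin f → ℂ) (hu : LinearIndependent ℂ u)
    (η : Fin r → ℂ) : ∃ ζ : Fin f → ℂ, ∀ j, u j ⬝ᵥ ζ = η j := by
  classical
  have hker : LinearMap.ker (Fintype.linearCombination ℂ u) = ⊥ := by
    rw [LinearMap.ker_eq_bot']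
    intro m hm
    rw [Fintype.linearCombination_apply] at hm
    exact funext (Fintype.linearIndependent_iff.mp hu m hm)
  obtain ⟨g, hg⟩ := LinearMap.exists_leftInverse_of_injective
    (Fintype.linearCombination ℂ u) hker
  refine ⟨fun i => η ⬝ᵥ g (Pi.single i 1), fun j => ?_⟩
  have h1 : g (u j) = Pi.single j 1 := by
    have h2 := LinearMap.congr_fun hg (Pi.single j (1 : ℂ))
    simpa using h2
  have h3 : u j = ∑ i, u j i • (Pi.single i (1 : ℂ) : Fin f → ℂ) := by
    funext k
    simp [Finset.sum_apply, Pi.single_apply]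
  have h4 : g (u j) = ∑ i, u j i • g (Pi.single i (1 : ℂ)) := by
    conv_lhs => rw [h3]
    rw [map_sum]
    exact Finset.sum_congr rfl fun i _ => map_smul _ _ _
  have h5 : η ⬝ᵥ g (u j) = η j := by rw [h1]; simp
  rw [← h5, h4, dotProduct_sum]
  simp only [dotProduct_smul, smul_eq_mul]
  rfl

/-- substitution of a linear parametrization -/
noncomputable def sub {f r : ℕ} (u : Fin r → Fin f → ℂ) :
    MvPolynomial (Fin f) ℂ →ₐ[ℂ] MvPolynomial (Fin r) ℂ :=
  aeval (fun i => ∑ j, C (u j i) * X j)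

theorem eval_sub {f r : ℕ} (u : Fin r → Fin f → ℂ) (x : Fin r → ℂ) (g : MvPolynomial (Fin f) ℂ) :
    eval x (sub u g) = eval (∑ j, x j • u j) g := by
  have h : (eval x).comp (sub u : MvPolynomial (Fin f) ℂ →+* MvPolynomial (Fin r) ℂ)
      = eval (∑ j, x j • u j) := by
    apply MvPolynomial.ringHom_ext
    · intro c
      simp [sub]
    · intro i
      simp [sub, mul_comm]
  have := congrArg (fun g' : MvPolynomial (Fin f) ℂ →+* ℂ => g' g) h
  simpa using this

theorem sub_hom {f r : ℕ} (u : Fin r → Fin f → ℂ) (g : MvPolynomial (Fin f) ℂ) (D : ℕ)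
    (hg : g.IsHomogeneous D) : (sub u g).IsHomogeneous D := by
  have h := hg.aeval (fun i => ∑ j, C (u j i) * X j : Fin f → MvPolynomial (Fin r) ℂ) (n := 1)
    (fun i => IsHomogeneous.sum _ _ _ fun j _ => (isHomogeneous_X ℂ j).C_mul _)
  simpa [sub] using h

theorem sub_DD {f r : ℕ} (u : Fin r → Fin f → ℂ) (y : Fin r → ℂ) (g : MvPolynomial (Fin f) ℂ) :
    DD y (sub u g) = sub u (DD (∑ j, y j • u j) g) := by
  classical
  induction g using MvPolynomial.induction_on with
  | C a => simp [DD, sub]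
  | add p q hp hq =>
    have e : ∀ {s : ℕ} (z : Fin s → ℂ) (a b : MvPolynomial (Fin s) ℂ),
        DD z (a + b) = DD z a + DD z b := by
      intro s z a b
      simp only [DD, map_add, mul_add, Finset.sum_add_distrib]
    rw [map_add, e, e, map_add, hp, hq]
  | mul_X p i hp =>
    rw [map_mul, DD_mul, DD_mul, map_add, map_mul, map_mul, hp]
    congr 1
    have h1 : DD (∑ j, y j • u j) (X i : MvPolynomial (Fin f) ℂ) = C (∑ j, y j * u j i) := by
      rw [DD, Finset.sum_eq_single i]
      · simp [Finset.sum_apply]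
      · intro b _ hb
        simp [pderiv_X, hb]
      · simp
    have h2 : DD y (sub u (X i)) = C (∑ j, y j * u j i) := by
      have h3 : (sub u (X i) : MvPolynomial (Fin r) ℂ) = lf (fun j => u j i) := by
        simp [sub, lf]
      rw [h3, DD_lf]
      congr 1
      simp only [dotProduct]
      exact Finset.sum_congr rfl fun j _ => mul_comm _ _
    rw [h1, h2]
    simp [sub]

theorem lf_homog {d : ℕ} (η : Fin d → ℂ) : (lf η).IsHomogeneous 1 :=
  IsHomogeneous.sum _ _ _ fun i _ => (isHomogeneous_X ℂ i).C_mul _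

theorem lf_ne {d : ℕ} {η : Fin d → ℂ} (h : η ≠ 0) : lf η ≠ 0 := by
  obtain ⟨j, hj⟩ := Function.ne_iff.mp h
  intro h1
  have h2 := congrArg (eval (Pi.single j 1)) h1
  rw [eval_lf, dotProduct_single, mul_one, map_zero] at h2
  exact hj h2

/-- an irreducible polynomial dividing a nonzero linear form is associated to it -/
theorem assoc_of_dvd_lf {d : ℕ} {δ : MvPolynomial (Fin d) ℂ} (hδ : Irreducible δ)
    {η : Fin d → ℂ} (hη : η ≠ 0) (h : δ ∣ lf η) : Associated δ (lf η) := by
  obtain ⟨u, hu⟩ := h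
  have hlf0 := lf_ne hη
  have hδ0 : δ ≠ 0 := hδ.ne_zero
  have hu0 : u ≠ 0 := by
    rintro rfl
    rw [mul_zero] at hu
    exact hlf0 hu
  have hdeg : (lf η).totalDegree ≤ 1 := (lf_homog η).totalDegree_le
  have hd1 : (lf η).totalDegree = δ.totalDegree + u.totalDegree := by
    rw [hu]; exact totalDegree_mul_of_isDomain hδ0 hu0
  have hδd : δ.totalDegree ≠ 0 := by have := aux_irr_deg δ hδ; omega
  have hud : u.totalDegree = 0 := by omega
  have huU : IsUnit u := by
    rw [totalDegree_eq_zero_iff_eq_C] at hud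
    rw [hud]
    apply IsUnit.map
    rw [isUnit_iff_ne_zero]
    intro h0
    rw [h0, C_0] at hud
    exact hu0 hud
  rw [hu]
  exact associated_mul_unit_right δ u huU

theorem dvd_of_vanish {d : ℕ} {δ φ : MvPolynomial (Fin d) ℂ} (hδ : Irreducible δ)
    (h : ∀ P, eval P δ = 0 → eval P φ = 0) : δ ∣ φ := by
  by_contra hcon
  obtain ⟨P, h1, h2⟩ := exists_point δ φ hδ hcon
  exact h2 (h P h1)

end Pool.Agent.Y206.G
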