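import Pool.Agent.Y206.G.Core

set_option autoImplicit false
open MvPolynomial
open Pool.Agent.Helper947.Geo

namespace Pool.Agent.Y206.G

/-- extension of a vector to a basis by points -/
theorem ext_basis {d : ℕ} {K : Type} (z : K → Fin d → ℂ) (W : Finset K) (P : Fin d → ℂ)
    (hP : P ≠ 0) (s : ℕ)
    (hr : s + 1 ≤ Module.finrank ℂ (Submodule.span ℂ {y | ∃ k ∈ W, y = z k})) :
    ∃ f : Fin (s + 1) → Fin d → ℂ, LinearIndependent ℂ f ∧ f 0 = P ∧
      ∀ i : Fin (s + 1), i ≠ 0 → ∃ k ∈ W, f i = z k := by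
  classical
  induction s with
  | zero =>
    refine ⟨![P], ?_, rfl, ?_⟩
    · rw [Fintype.linearIndependent_iff]
      intro g hg i
      simp at hg
      have hi : i = 0 := Fin.ext (by omega)
      rw [hi]
      exact hg.resolve_right hP
    · intro i hi
      exact absurd (Fin.ext (by simp)) hi
  | succ s ih =>
    obtain ⟨f, hf1, hf2, hf3⟩ := ih (by omega)
    obtain ⟨k, hk, hkn⟩ : ∃ k ∈ W, z k ∉ Submodule.span ℂ (Set.range f) := by
      by_contra hcon
      push Not at hcon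
      have h1 : Submodule.span ℂ {y | ∃ k ∈ W, y = z k} ≤ Submodule.span ℂ (Set.range f) := by
        rw [Submodule.span_le]
        rintro _ ⟨k, hk, rfl⟩
        exact hcon k hk
      have h2 := Submodule.finrank_mono h1
      have h3 := finrank_range_le_card (R := ℂ) f
      unfold Set.finrank at h3
      rw [Fintype.card_fin] at h3
      omega
    refine ⟨Fin.snoc f (z k), linearIndependent_finSnoc.mpr ⟨hf1, hkn⟩, ?_, ?_⟩
    · have : (0 : Fin (s + 1 + 1)) = Fin.castSucc 0 := rfl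
      rw [this, Fin.snoc_castSucc, hf2]
    · intro i
      refine Fin.lastCases ?_ (fun j => ?_) i
      · intro _
        exact ⟨k, hk, by rw [Fin.snoc_last]⟩
      · intro hj
        rw [Fin.snoc_castSucc]
        apply hf3
        rintro rfl
        exact hj rfl

/-- a relation with large span has many terms -/
theorem count {d t : ℕ} {K : Type} [Fintype K] [DecidableEq K] (z : K → Fin d → ℂ) (m : ℕ)
    (P : Fin d → ℂ) (hP0 : P ≠ 0) (c : K → ℂ) (hc : c ∈ relSpace z (m + 1) P) (W : Finset K)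
    (h1 : ∀ k ∈ W, c k ≠ 0) (h2 : ∀ k, k ∉ W → c k = 0)
    (hP : ∀ k ∈ W, ∀ l ∈ W, P ∉ Submodule.span ℂ {z k, z l})
    (hz : ∀ k ∈ W, ∀ l ∈ W, k ≠ l → LinearIndependent ℂ ![z k, z l])
    (h0 : ∀ k ∈ W, z k ≠ 0)
    (hr : t + 2 ≤ Module.finrank ℂ (Submodule.span ℂ {y | ∃ k ∈ W, y = z k})) :
    m + t + 2 ≤ W.card := by
  classical
  obtain ⟨f, hf1, hf2, hf3⟩ := ext_basis z W P hP0 (t + 1) hr
  obtain ⟨θ, hθ⟩ := exists_coord f hf1 (Pi.single (Fin.last (t + 1)) 1)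
  have hPθ : P ⬝ᵥ θ = 0 := by
    rw [← hf2, hθ 0, Pi.single_eq_of_ne]
    exact (Fin.last_pos).ne
  obtain ⟨k₀, hk₀, hfk₀⟩ := hf3 (Fin.last (t + 1)) (Fin.last_pos).ne'
  have hk₀θ : z k₀ ⬝ᵥ θ = 1 := by
    rw [← hfk₀, hθ, Pi.single_eq_same]
  have hc' := rel_mul z m P θ hPθ c hc
  set W' := W.filter (fun k => z k ⬝ᵥ θ ≠ 0) with hW'
  have hsub : W' ⊆ W := Finset.filter_subset _ _
  have hcard := card_rel z m P _ hc' W'
    ⟨k₀, Finset.mem_filter.mpr ⟨hk₀, by rw [hk₀θ]; exact one_ne_zero⟩⟩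
    (fun k hk => mul_ne_zero (h1 k (hsub hk)) (Finset.mem_filter.mp hk).2)
    (fun k hk => by
      by_cases hkW : k ∈ W
      · have h4 : z k ⬝ᵥ θ = 0 := by
          by_contra h5
          exact hk (Finset.mem_filter.mpr ⟨hkW, h5⟩)
        rw [h4, mul_zero]
      · rw [h2 k hkW, zero_mul])
    (fun k hk l hl => hP k (hsub hk) l (hsub hl))
    (fun k hk l hl => hz k (hsub hk) l (hsub hl))
    (fun k hk => h0 k (hsub hk))
  -- the points killed by `θ`
  have hex : ∀ i : Fin t, ∃ k ∈ W, f (Fin.castSucc i.succ) = z k := fun i =>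
    hf3 _ (by
      intro h
      have := congrArg Fin.val h
      simp at this)
  choose kf hkf1 hkf2 using hex
  have hinj : Function.Injective kf := by
    intro i j hij
    have h3 : f (Fin.castSucc i.succ) = f (Fin.castSucc j.succ) := by
      rw [hkf2, hkf2, hij]
    have h4 := hf1.injective h3
    have h5 := congrArg Fin.val h4
    simp at h5
    exact Fin.ext h5
  have hker : Finset.univ.image kf ⊆ W.filter (fun k => ¬ (z k ⬝ᵥ θ ≠ 0)) := by
    intro k hk
    obtain ⟨i, -, rfl⟩ := Finset.mem_image.mp hk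
    refine Finset.mem_filter.mpr ⟨hkf1 i, ?_⟩
    rw [← hkf2, hθ, Pi.single_eq_of_ne]
    · simp
    · intro h
      have := congrArg Fin.val h
      simp at this
      omega
  have h6 := Finset.card_le_card hker
  rw [Finset.card_image_of_injective _ hinj, Finset.card_univ, Fintype.card_fin] at h6
  have h7 := Finset.card_filter_add_card_filter_not (s := W) (fun k => z k ⬝ᵥ θ ≠ 0)
  rw [← hW'] at h7
  omega

/-- **a hyperplane with many points** -/
theorem core_plane {d : ℕ} (hd : 4 ≤ d) {K : Type} [Fintype K] [DecidableEq K]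
    (z : K → Fin d → ℂ) (hsp : Submodule.span ℂ (Set.range z) = ⊤)
    (h2 : ∀ i j, i ≠ j → LinearIndependent ℂ ![z i, z j])
    (hz : ∀ k, z k ≠ 0)
    (m : ℕ) (hm : 1 ≤ m) (φ : MvPolynomial (Fin d) ℂ) (hφ : φ ≠ 0)
    (hA : ∀ P, eval P φ ≠ 0 → Module.finrank ℂ (relSpace z m P) = 1)
    (hB : ∀ P, eval P φ ≠ 0 → ∀ c ∈ relSpace z m P, c ≠ 0 → ∀ k, c k ≠ 0)
    (hC : ∀ P, eval P φ ≠ 0 → Module.finrank ℂ (relSpace z (m - 1) P) ≤ d - 1) :
    ∃ (ξ : Fin d → ℂ) (W : Finset K), ξ ≠ 0 ∧ (∀ k ∈ W, ξ ⬝ᵥ z k = 0) ∧ m + d ≤ W.card + 2 := by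
  classical
  obtain ⟨D, l, Q, g, hl0, hlD, hl, hprim, hQ, hg, hstar, hQprim, hind⟩ :=
    setup (by omega) z hsp m hm φ hφ hA hB hC
  have hnu : ¬ IsUnit Q := by
    intro hu
    have h8 : eval (0 : Fin d → ℂ) Q ≠ 0 := (hu.map (eval (0 : Fin d → ℂ))).ne_zero
    have h9 := congrArg (eval (0 : Fin d → ℂ)) hg
    simp only [map_sum, map_mul, eval_X, Pi.zero_apply, mul_zero, Finset.sum_const_zero,
      eval_C] at h9
    rcases mul_eq_zero.mp h9.symm with h10 | h10
    · have : (D + m + d - 2 : ℕ) = 0 := by exact_mod_cast h10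
      omega
    · exact h8 h10
  obtain ⟨δ, hδ, hδQ⟩ := WfDvdMonoid.exists_irreducible_factor hnu hQ
  obtain ⟨ξ, hξ0, hass, hξW, hξU⟩ := pole_lin z l Q g hstar m hl hind δ hδ hδQ
    (hQprim δ hδ hδQ) (hprim δ hδ)
  set W : Finset K := Finset.univ.filter (fun k => ¬ δ ∣ l k) with hW
  have hWm : ∀ k, k ∈ W ↔ ¬ δ ∣ l k := fun k => by simp [hW]
  obtain ⟨ψ, hψ1, hψ2⟩ := g4_off_lines hd z δ hδ
  obtain ⟨P, hP0, hP⟩ := exists_point δ (ψ * ∏ k ∈ W, l k) hδ (by
    intro h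
    rcases hδ.prime.dvd_or_dvd h with h | h
    · exact hψ1 h
    · rw [Prime.dvd_finsetProd_iff hδ.prime] at h
      obtain ⟨k, hk, hk2⟩ := h
      exact (hWm k).mp hk hk2)
  rw [map_mul, map_prod] at hP
  have hoff := hψ2 P (left_ne_zero_of_mul hP)
  have hlP := Finset.prod_ne_zero_iff.mp (right_ne_zero_of_mul hP)
  obtain ⟨k₂, hk₂⟩ := hprim δ hδ
  have hPne : P ≠ 0 := by
    rintro rfl
    exact hoff k₂ k₂ (Submodule.zero_mem _)
  refine ⟨ξ, W, hξ0, fun k hk => hξW k ((hWm k).mp hk), ?_⟩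
  -- the rank
  have hrank : d - 3 + 2 ≤ Module.finrank ℂ (Submodule.span ℂ {y | ∃ k ∈ W, y = z k}) := by
    obtain ⟨t, rfl⟩ : ∃ t, d = t + 1 := ⟨d - 1, by omega⟩
    obtain ⟨u, hu1, hu2, -⟩ := exists_ker_basis ξ hξ0
    have h3 : Submodule.span ℂ (Set.range u) ≤ Submodule.span ℂ {y | ∃ k ∈ W, y = z k} := by
      rw [Submodule.span_le]
      rintro _ ⟨j, rfl⟩
      have h4 := hξU (u j) (by rw [dotProduct_comm]; exact hu2 j)
      have h5 : {y | ∃ k, ¬ δ ∣ l k ∧ y = z k} = {y | ∃ k ∈ W, y = z k} := by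
        ext y
        simp only [Set.mem_ofPred_eq, hWm]
      rw [h5] at h4
      exact h4
    have h6 := Submodule.finrank_mono h3
    rw [finrank_span_eq_card hu1, Fintype.card_fin] at h6
    omega
  obtain ⟨m', rfl⟩ : ∃ m', m = m' + 1 := ⟨m - 1, by omega⟩
  have h7 := count z m' P hPne (fun k => eval P (l k)) (hl P hPne) W hlP
    (fun k hk => by
      have h8 : δ ∣ l k := by
        by_contra h9
        exact hk ((hWm k).mpr h9)
      obtain ⟨q, hq⟩ := h8
      rw [hq, map_mul, hP0, zero_mul])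
    (fun k _ j _ => hoff k j) (fun k _ j _ => h2 k j) (fun k _ => hz k) hrank
  omega

end Pool.Agent.Y206.G
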