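import Pool.Agent.Y206.G.Gor
import Pool.Agent.Y206.G.Plane
import Pool.Agent.Helper947.Geo.A1
import Pool.Agent.Helper947.Geo.A2

set_option autoImplicit false
open MvPolynomial
open Pool.Agent.Helper947.Geo

namespace Pool.Agent.Y206.G

theorem gor_count {N m : ℕ} (hN : 2 ≤ N) (hm : 1 ≤ m) {K : Type} [Fintype K]
    (w : K → Fin (N + 1) → ℂ) (I : Ideal (MvPolynomial (Fin (N + 1)) ℂ)) (hI : IsVan w I)
    (h1 : Module.finrank ℂ (evRel w (m + 1)) = 1)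
    (h2 : Module.finrank ℂ (evRel w m) ≤ N + 1) :
    Fintype.card K ≤ (N + (m + 1)).choose N := by
  classical
  have e1 := finrank_evRel w (m + 1) I hI
  have e2 := finrank_evRel w m I hI
  rw [finrank_forms] at e1 e2
  by_contra hcon
  push Not at hcon
  haveI := part_succ_fin (N + 1) (m + 1)
  haveI := part_succ_fin (N + 1) m
  have h3 : Module.finrank ℂ
      ↥(homogeneousSubmodule (Fin (N + 1)) ℂ (m + 1) ⊓ I.restrictScalars ℂ) = 0 := by omega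
  haveI : Module.Finite ℂ
      ↥(homogeneousSubmodule (Fin (N + 1)) ℂ (m + 1) ⊓ I.restrictScalars ℂ) :=
    Submodule.finiteDimensional_of_le inf_le_left
  have h4 := Submodule.finrank_eq_zero.mp h3
  have h5 : (homogeneousSubmodule (Fin (N + 1)) ℂ m ⊓ I.restrictScalars ℂ) = ⊥ := by
    rw [Submodule.eq_bot_iff]
    rintro F ⟨hF1, hF2⟩
    have h6 : X 0 * F ∈ (homogeneousSubmodule (Fin (N + 1)) ℂ (m + 1) ⊓ I.restrictScalars ℂ) := by
      refine ⟨?_, Ideal.mul_mem_left _ _ hF2⟩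
      have := (isHomogeneous_X ℂ (0 : Fin (N + 1))).mul ((mem_homogeneousSubmodule m F).mp hF1)
      rw [add_comm 1 m] at this
      exact (mem_homogeneousSubmodule (m + 1) _).mpr this
    rw [h4, Submodule.mem_bot] at h6
    exact (mul_eq_zero.mp h6).resolve_left (X_ne_zero _)
  rw [h5, finrank_bot] at e2
  -- numbers
  obtain ⟨M, rfl⟩ : ∃ M, N = M + 1 := ⟨N - 1, by omega⟩
  have e3 : (M + 1 + (m + 1)).choose (M + 1) =
      (M + 1 + m).choose M + (M + 1 + m).choose (M + 1) := by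
    rw [show M + 1 + (m + 1) = (M + 1 + m) + 1 by ring, Nat.choose_succ_succ]
  have e4 : (M + 2).choose M ≤ (M + 1 + m).choose M := Nat.choose_le_choose M (by omega)
  have e5 : (M + 2).choose M = (M + 2).choose 2 := by
    rw [← Nat.choose_symm_of_eq_add (show M + 2 = M + 2 by rfl)]
  have e6 : M + 2 ≤ (M + 2).choose 2 := by
    rw [Nat.choose_two_right, Nat.le_div_iff_mul_le (by norm_num)]
    have : M + 2 - 1 = M + 1 := by omega
    rw [this]
    nlinarith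
  omega

theorem card_pos_of_span {d : ℕ} {K : Type} [Fintype K] (z : K → Fin d → ℂ)
    (hsp : Submodule.span ℂ (Set.range z) = ⊤) : d ≤ Fintype.card K := by
  obtain ⟨b, hb⟩ := exists_basis_sub z hsp
  have hinj : Function.Injective b := fun i j hij => hb.injective (by simp only [hij])
  simpa using Fintype.card_le_of_injective b hinj

theorem GorSet.bot {N : ℕ} {K : Type} [Fintype K] {w : K → Fin N → ℂ}
    {I : Ideal (MvPolynomial (Fin N) ℂ)} {h : MvPolynomial (Fin N) ℂ} {σ : ℕ}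
    (g : GorSet w σ I h) {j : ℕ} (hj : σ ≤ j) : evRel w j = ⊥ := by
  classical
  rw [Submodule.eq_bot_iff]
  intro c hc
  funext k₀
  obtain ⟨F, hF1, hF2⟩ := g.values (Fintype.card K) j hj (by omega) (Pi.single k₀ 1)
  have h1 := hc F hF1
  rw [Finset.sum_eq_single k₀ (fun k _ hk => by rw [hF2, Pi.single_eq_of_ne hk, mul_zero])
    (fun hk => absurd (Finset.mem_univ _) hk), hF2, Pi.single_eq_same, mul_one] at h1
  exact h1

theorem GorSet.pos {N : ℕ} {K : Type} [Fintype K] {w : K → Fin N → ℂ}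
    {I : Ideal (MvPolynomial (Fin N) ℂ)} {h : MvPolynomial (Fin N) ℂ} {σ : ℕ}
    (g : GorSet w σ I h) (hK : 2 ≤ Fintype.card K) : 1 ≤ σ := by
  classical
  by_contra hcon
  have h0 : σ = 0 := by omega
  subst h0
  obtain ⟨k₀, k, hk⟩ := Fintype.exists_pair_of_one_lt_card (by omega : 1 < Fintype.card K)
  obtain ⟨F, hF1, hF2⟩ := g.values' (Pi.single k₀ 1)
  have hFC : F = C (coeff 0 F) := by
    have := hF1.totalDegree_le
    exact totalDegree_eq_zero_iff_eq_C.mp (by omega)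
  have h1 := hF2 k₀
  have h2 := hF2 k
  rw [hFC, eval_C, Pi.single_eq_same] at h1
  rw [hFC, eval_C, Pi.single_eq_of_ne hk.symm] at h2
  rw [h1] at h2
  exact one_ne_zero h2

/-- the generic data of a set whose general projection is arithmetically Gorenstein -/
theorem gen_data {N : ℕ} (hN : 2 ≤ N) {K : Type} [Fintype K] [DecidableEq K]
    (z : K → Fin (N + 2) → ℂ) (hsp : Submodule.span ℂ (Set.range z) = ⊤)
    (h2 : ∀ i j, i ≠ j → LinearIndependent ℂ ![z i, z j]) (hz : ∀ k, z k ≠ 0)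
    (φ₀ : MvPolynomial (Fin (N + 2)) ℂ) (hφ₀ : φ₀ ≠ 0)
    (hgor : ∀ P : Fin (N + 2) → ℂ, P (Fin.last (N + 1)) ≠ 0 → eval P φ₀ ≠ 0 → ∃ σ I h,
      IsVan (fun k => projv P (z k)) I ∧ h.IsHomogeneous 1 ∧
      (∀ k, eval (projv P (z k)) h ≠ 0) ∧ Soc1 (I ⊔ Ideal.span {h}) σ) :
    ∃ (m : ℕ) (φ : MvPolynomial (Fin (N + 2)) ℂ), 1 ≤ m ∧ φ ≠ 0 ∧
      (∀ P, eval P φ ≠ 0 → Module.finrank ℂ (relSpace z m P) = 1) ∧
      (∀ P, eval P φ ≠ 0 → ∀ c ∈ relSpace z m P, c ≠ 0 → ∀ k, c k ≠ 0) ∧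
      (∀ P, eval P φ ≠ 0 → Module.finrank ℂ (relSpace z (m - 1) P) ≤ N + 1) ∧
      (m = 1 → Fintype.card K = N + 2) ∧
      (2 ≤ m → Fintype.card K ≤ (N + m).choose N) ∧
      (∀ P, eval P φ ≠ 0 → P (Fin.last (N + 1)) ≠ 0 ∧ eval P φ₀ ≠ 0 ∧ ∀ σ I h,
        IsVan (fun k => projv P (z k)) I → h.IsHomogeneous 1 →
        (∀ k, eval (projv P (z k)) h ≠ 0) → Soc1 (I ⊔ Ideal.span {h}) σ → σ = m + 1) := by
  classical
  have hcard := card_pos_of_span z hsp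
  obtain ⟨φ₁, r, hφ₁, hr⟩ := generic_ranks (d := N + 2) (by omega) z (Fintype.card K + 1)
  obtain ⟨φ₂, hφ₂, hind⟩ := projv_indep z h2 hz (by omega : 3 ≤ N + 1) hsp
  have hφ : φ₀ * φ₁ * φ₂ ≠ 0 := mul_ne_zero (mul_ne_zero hφ₀ hφ₁) hφ₂
  -- the data at one point
  have hpt : ∀ P, eval P (φ₀ * φ₁ * φ₂) ≠ 0 → ∀ σ I h,
      IsVan (fun k => projv P (z k)) I → h.IsHomogeneous 1 →
      (∀ k, eval (projv P (z k)) h ≠ 0) → Soc1 (I ⊔ Ideal.span {h}) σ →
      ∃ m, σ = m + 1 ∧ 1 ≤ m ∧ m < Fintype.card K ∧ r m = 1 ∧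
        (∀ j, m < j → j < Fintype.card K + 1 → r j = 0) ∧
        (∀ c ∈ relSpace z m P, c ≠ 0 → ∀ k, c k ≠ 0) ∧
        Module.finrank ℂ (relSpace z (m - 1) P) ≤ N + 1 ∧
        (m = 1 → Fintype.card K = N + 2) ∧
        (2 ≤ m → Fintype.card K ≤ (N + m).choose N) := by
    intro P hP σ I h hI hh hne hsoc
    rw [map_mul, map_mul] at hP
    have hP1 := right_ne_zero_of_mul (left_ne_zero_of_mul hP)
    obtain ⟨hlast, hpair, hnz, -⟩ := hind P (right_ne_zero_of_mul hP)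
    have g : GorSet (fun k => projv P (z k)) σ I h := ⟨hI, hh, hne, hsoc, hpair, hnz⟩
    obtain ⟨m, rfl⟩ : ∃ m, σ = m + 1 := ⟨σ - 1, by have := g.pos (by omega); omega⟩
    have htop := g.rel_top
    have hmK : m < Fintype.card K := by
      by_contra hcon
      rw [evRel_large _ hpair hnz m (by omega), finrank_bot] at htop
      exact zero_ne_one htop
    have hm1 : 1 ≤ m := by
      by_contra hcon
      have hm0 : m = 0 := by omega
      subst hm0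
      have h3 := finrank_evRel (fun k => projv P (z k)) 0 I hI
      rw [htop, finrank_forms] at h3
      simp only [add_zero, Nat.choose_self] at h3
      omega
    obtain ⟨m', rfl⟩ : ∃ m', m = m' + 1 := ⟨m - 1, by omega⟩
    have hpred := g.rel_pred
    refine ⟨m' + 1, rfl, hm1, hmK, ?_, ?_, ?_, ?_, ?_, ?_⟩
    · rw [← hr P hP1 (m' + 1) (by omega), relSpace_eq z _ P hlast]
      exact htop
    · intro j hj hjK
      rw [← hr P hP1 j hjK, relSpace_eq z _ P hlast, g.bot (by omega), finrank_bot]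
    · intro c hc hc0 k
      rw [relSpace_eq z _ P hlast] at hc
      exact g.full (by omega) c hc hc0 k
    · rw [relSpace_eq z _ P hlast]
      exact hpred
    · intro hm
      have hm'0 : m' = 0 := by omega
      subst hm'0
      have h3 := finrank_evRel (fun k => projv P (z k)) (0 + 1) I hI
      rw [htop, finrank_forms] at h3
      have h4 : (N + (0 + 1)).choose N = N + 1 := by
        rw [zero_add, Nat.choose_succ_self_right]
      rw [h4] at h3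
      omega
    · intro hm
      exact gor_count hN (by omega) _ I hI htop hpred
  obtain ⟨P₀, hP₀⟩ := g4_exists_ne (φ₀ * φ₁ * φ₂) hφ
  have hlast₀ : ∀ P, eval P (φ₀ * φ₁ * φ₂) ≠ 0 → P (Fin.last (N + 1)) ≠ 0 ∧ eval P φ₀ ≠ 0 := by
    intro P hP
    rw [map_mul, map_mul] at hP
    exact ⟨(hind P (right_ne_zero_of_mul hP)).1, left_ne_zero_of_mul (left_ne_zero_of_mul hP)⟩
  obtain ⟨σ₀, I₀, h₀, hI₀, hh₀, hne₀, hsoc₀⟩ := hgor P₀ (hlast₀ P₀ hP₀).1 (hlast₀ P₀ hP₀).2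
  obtain ⟨m, -, hm1, hmK, hrm, hrj, -, -, hc1, hc2⟩ := hpt P₀ hP₀ σ₀ I₀ h₀ hI₀ hh₀ hne₀ hsoc₀
  have huniq : ∀ m', m' < Fintype.card K → r m' = 1 →
      (∀ j, m' < j → j < Fintype.card K + 1 → r j = 0) → m' = m := by
    intro m' h3 h4 h5
    rcases lt_trichotomy m' m with h6 | h6 | h6
    · have := h5 m h6 (by omega)
      omega
    · exact h6
    · have := hrj m' h6 (by omega)
      omega
  refine ⟨m, φ₀ * φ₁ * φ₂, hm1, hφ, ?_, ?_, ?_, hc1, hc2, ?_⟩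
  · intro P hP
    rw [map_mul, map_mul] at hP
    rw [hr P (right_ne_zero_of_mul (left_ne_zero_of_mul hP)) m (by omega), hrm]
  · intro P hP
    obtain ⟨σ, I, h, hI, hh, hne, hsoc⟩ := hgor P (hlast₀ P hP).1 (hlast₀ P hP).2
    obtain ⟨m', -, -, h3, h4, h5, h6, -⟩ := hpt P hP σ I h hI hh hne hsoc
    obtain rfl := huniq m' h3 h4 h5
    exact h6
  · intro P hP
    obtain ⟨σ, I, h, hI, hh, hne, hsoc⟩ := hgor P (hlast₀ P hP).1 (hlast₀ P hP).2
    obtain ⟨m', -, -, h3, h4, h5, -, h6, -⟩ := hpt P hP σ I h hI hh hne hsoc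
    obtain rfl := huniq m' h3 h4 h5
    exact h6
  · intro P hP
    refine ⟨(hlast₀ P hP).1, (hlast₀ P hP).2, ?_⟩
    intro σ I h hI hh hne hsoc
    obtain ⟨m', hσ, -, h3, h4, h5, -⟩ := hpt P hP σ I h hI hh hne hsoc
    obtain rfl := huniq m' h3 h4 h5
    exact hσ

/-- **classification of the sets with Gorenstein general projection and no collinear triple** -/
theorem gor_flat {N : ℕ} (hN : 2 ≤ N) {K : Type} [Fintype K] [DecidableEq K]
    (z : K → Fin (N + 2) → ℂ) (hsp : Submodule.span ℂ (Set.range z) = ⊤)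
    (h2 : ∀ i j, i ≠ j → LinearIndependent ℂ ![z i, z j])
    (h3 : ∀ i j k, i ≠ j → i ≠ k → j ≠ k → LinearIndependent ℂ ![z i, z j, z k])
    (hz : ∀ k, z k ≠ 0)
    (φ₀ : MvPolynomial (Fin (N + 2)) ℂ) (hφ₀ : φ₀ ≠ 0)
    (hgor : ∀ P : Fin (N + 2) → ℂ, P (Fin.last (N + 1)) ≠ 0 → eval P φ₀ ≠ 0 → ∃ σ I h,
      IsVan (fun k => projv P (z k)) I ∧ h.IsHomogeneous 1 ∧
      (∀ k, eval (projv P (z k)) h ≠ 0) ∧ Soc1 (I ⊔ Ideal.span {h}) σ) :
    Fintype.card K = N + 2 := by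
  obtain ⟨m, φ, hm1, hφ, hA, hB, hC, hc1, hc2, -⟩ := gen_data hN z hsp h2 hz φ₀ hφ₀ hgor
  rcases Nat.lt_or_ge m 2 with hm | hm
  · exact hc1 (by omega)
  · exact (core_flat (by omega) z hsp h2 h3 hz m hm1 φ hφ hA hB hC (hc2 hm)).elim

/-- **a hyperplane with many points** -/
theorem gor_plane {N : ℕ} (hN : 2 ≤ N) {K : Type} [Fintype K] [DecidableEq K]
    (z : K → Fin (N + 2) → ℂ) (hsp : Submodule.span ℂ (Set.range z) = ⊤)
    (h2 : ∀ i j, i ≠ j → LinearIndependent ℂ ![z i, z j])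
    (hz : ∀ k, z k ≠ 0)
    (φ₀ : MvPolynomial (Fin (N + 2)) ℂ) (hφ₀ : φ₀ ≠ 0)
    (hgor : ∀ P : Fin (N + 2) → ℂ, P (Fin.last (N + 1)) ≠ 0 → eval P φ₀ ≠ 0 → ∃ σ I h,
      IsVan (fun k => projv P (z k)) I ∧ h.IsHomogeneous 1 ∧
      (∀ k, eval (projv P (z k)) h ≠ 0) ∧ Soc1 (I ⊔ Ideal.span {h}) σ) :
    ∃ (σ : ℕ) (P : Fin (N + 2) → ℂ), P (Fin.last (N + 1)) ≠ 0 ∧ eval P φ₀ ≠ 0 ∧ (∀ σ' I h,
        IsVan (fun k => projv P (z k)) I → h.IsHomogeneous 1 →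
        (∀ k, eval (projv P (z k)) h ≠ 0) → Soc1 (I ⊔ Ideal.span {h}) σ' → σ' = σ) ∧
      ∃ (ξ : Fin (N + 2) → ℂ) (W : Finset K), ξ ≠ 0 ∧ (∀ k ∈ W, ξ ⬝ᵥ z k = 0) ∧
        σ + (N + 1) ≤ W.card + 2 := by
  obtain ⟨m, φ, hm1, hφ, hA, hB, hC, -, -, hσ⟩ := gen_data hN z hsp h2 hz φ₀ hφ₀ hgor
  obtain ⟨P, hP⟩ := g4_exists_ne φ hφ
  obtain ⟨ξ, W, hξ, hW, hcard⟩ := core_plane (by omega) z hsp h2 hz m hm1 φ hφ hA hB hC
  exact ⟨m + 1, P, (hσ P hP).1, (hσ P hP).2.1, (hσ P hP).2.2, ξ, W, hξ, hW, by omega⟩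

end Pool.Agent.Y206.G
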