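import Pool.Agent.Y206.G.Sys2
import Pool.Agent.Helper947.Geo.B2

set_option autoImplicit false
open MvPolynomial
open Pool.Agent.Helper947.Geo

namespace Pool.Agent.Y206.G

/-- the determinant of two vectors of the plane -/
def det2 (y P : Fin 2 → ℂ) : ℂ := y 0 * P 1 - y 1 * P 0

theorem eval_det2 (y P : Fin 2 → ℂ) : eval P (lf ![-y 1, y 0]) = det2 y P := by
  rw [eval_lf]
  simp [dotProduct, Fin.sum_univ_two, det2]
  ring

theorem two_dec (y v P : Fin 2 → ℂ) (h : det2 y v ≠ 0) :
    (det2 y P / det2 y v) • v + (det2 P v / det2 y v) • y = P := by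
  have h0 : ((det2 y P / det2 y v) • v + (det2 P v / det2 y v) • y) =
      (det2 y v)⁻¹ • (det2 y P • v + det2 P v • y) := by
    rw [smul_add, smul_smul, smul_smul]
    congr 2 <;> ring
  rw [h0, inv_smul_eq_iff₀ h]
  funext i
  fin_cases i
  · simp [det2]; ring
  · simp [det2]; ring

theorem two_const {y : Fin 2 → ℂ} (hy : y ≠ 0) {a s : ℕ} {p q : MvPolynomial (Fin 2) ℂ}
    (hp : p ≠ 0) (hq : q ≠ 0) (hpa : p.IsHomogeneous a) (hqb : q.IsHomogeneous (a + s))
    (hinv : q * DD y p = p * DD y q) :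
    ∃ c : ℂ, c ≠ 0 ∧ ∀ P, eval P p * det2 y P ^ s = c * eval P q := by
  classical
  have hy' : (![-y 1, y 0] : Fin 2 → ℂ) ≠ 0 := by
    intro h0
    apply hy
    funext i
    fin_cases i
    · simpa using congrFun h0 1
    · simpa using congrFun h0 0
  have hU := lf_ne hy'
  obtain ⟨v, hv⟩ := g4_exists_ne (p * q * lf ![-y 1, y 0]) (mul_ne_zero (mul_ne_zero hp hq) hU)
  rw [map_mul, map_mul, eval_det2] at hv
  have hvd : det2 y v ≠ 0 := right_ne_zero_of_mul hv
  have hvp : eval v p ≠ 0 := left_ne_zero_of_mul (left_ne_zero_of_mul hv)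
  have hvq : eval v q ≠ 0 := right_ne_zero_of_mul (left_ne_zero_of_mul hv)
  have key : lf ![-y 1, y 0] * (p * lf ![-y 1, y 0] ^ s * C (eval v q) -
      C (eval v p * det2 y v ^ s) * q) = 0 := by
    apply MvPolynomial.funext
    intro P
    rw [map_zero]
    simp only [map_mul, map_sub, map_pow, eval_C, eval_det2]
    by_cases hx : det2 y P = 0
    · rw [hx, zero_mul]
    · have h1 := invariance y p q hinv ((det2 y P / det2 y v) • v) (det2 P v / det2 y v)
      rw [two_dec y v P hvd, rc_eval_smul p a hpa, rc_eval_smul q (a + s) hqb] at h1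
      set x := det2 y P / det2 y v with hxdef
      have hx0 : x ≠ 0 := div_ne_zero hx hvd
      have hPx : det2 y P = x * det2 y v := by rw [hxdef, div_mul_cancel₀ _ hvd]
      have h2 : eval P p * (x ^ s * eval v q) = eval v p * eval P q := by
        apply mul_left_cancel₀ (pow_ne_zero a hx0)
        linear_combination h1
      rw [hPx, mul_pow]
      linear_combination (x * det2 y v) * det2 y v ^ s * h2
  have key2 := (mul_eq_zero.mp key).resolve_left hU
  refine ⟨eval v p * det2 y v ^ s / eval v q, div_ne_zero (mul_ne_zero hvp (pow_ne_zero _ hvd)) hvq,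
    fun P => ?_⟩
  have h1 := congrArg (eval P) key2
  simp only [map_mul, map_sub, map_pow, eval_C, eval_det2, map_zero] at h1
  rw [div_mul_eq_mul_div, eq_div_iff hvq]
  linear_combination h1

/-- the base case: a system in two variables -/
theorem Sys.two {K : Type} [Fintype K] [DecidableEq K] {y : K → Fin 2 → ℂ} {m a b : ℕ}
    {p : K → MvPolynomial (Fin 2) ℂ} {q : MvPolynomial (Fin 2) ℂ} (h : Sys y m a b p q)
    (W : Finset K) (hW : ∀ k, k ∈ W ↔ p k ≠ 0)
    (hy : ∀ k ∈ W, ∀ l ∈ W, k ≠ l → LinearIndependent ℂ ![y k, y l])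
    (hy0 : ∀ k ∈ W, y k ≠ 0) : m + a + 2 ≤ W.card + b := by
  classical
  have hab := harmonic le_rfl y m a b p q h.hp h.hq h.hpa h.hqb h.hinv h.hrel h.hind
  obtain ⟨s, rfl⟩ : ∃ s, b = a + s := ⟨b - a, by omega⟩
  obtain ⟨k₀, hk₀⟩ := h.hp
  have hWne : W.Nonempty := ⟨k₀, (hW k₀).mpr hk₀⟩
  have hWpos := Finset.card_pos.mpr hWne
  by_cases hms : m < s
  · omega
  push Not at hms
  have hc : ∀ k, ∃ c : ℂ, (k ∈ W → c ≠ 0) ∧ (k ∉ W → c = 0) ∧
      ∀ P, eval P (p k) * det2 (y k) P ^ s = c * eval P q := by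
    intro k
    by_cases hk : k ∈ W
    · obtain ⟨c, hc1, hc2⟩ := two_const (hy0 k hk) ((hW k).mp hk) h.hq (h.hpa k) h.hqb (h.hinv k)
      exact ⟨c, fun _ => hc1, fun h1 => absurd hk h1, hc2⟩
    · have h0 : p k = 0 := by
        by_contra h1
        exact hk ((hW k).mpr h1)
      exact ⟨0, fun h1 => absurd h1 hk, fun _ => rfl, fun P => by rw [h0, map_zero]; ring⟩
  choose c hc1 hc2 hc3 using hc
  have hG : q * X (0 : Fin 2) * ∑ k, C (c k) * lf ![-y k 1, y k 0] ^ (m - s) = 0 := by
    apply MvPolynomial.funext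
    intro P
    rw [map_zero]
    simp only [map_mul, map_sum, map_pow, eval_C, eval_det2, eval_X]
    by_cases hP0 : P 0 = 0
    · rw [hP0]; ring
    · have hPne : P ≠ 0 := by rintro rfl; exact hP0 rfl
      have h1 := h.hrel P hPne ![-P 1, P 0] (by simp [dotProduct, Fin.sum_univ_two]; ring)
      have h2 : ∀ k, y k ⬝ᵥ ![-P 1, P 0] = - det2 (y k) P := by
        intro k
        simp [dotProduct, Fin.sum_univ_two, det2]; ring
      simp only [h2] at h1
      have h3 : eval P q * ∑ k, c k * det2 (y k) P ^ (m - s) = 0 := by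
        rw [Finset.mul_sum]
        have h4 : ∑ k, eval P q * (c k * det2 (y k) P ^ (m - s)) =
            (-1) ^ m * ∑ k, eval P (p k) * (-det2 (y k) P) ^ m := by
          rw [Finset.mul_sum]
          refine Finset.sum_congr rfl fun k _ => ?_
          have h5 := hc3 k P
          have h6 : det2 (y k) P ^ m = det2 (y k) P ^ s * det2 (y k) P ^ (m - s) := by
            rw [← pow_add, Nat.add_sub_cancel' hms]
          have h7 : (-1 : ℂ) ^ m * (-det2 (y k) P) ^ m = det2 (y k) P ^ m := by
            rw [← mul_pow]; congr 1; ring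
          calc eval P q * (c k * det2 (y k) P ^ (m - s))
              = (c k * eval P q) * det2 (y k) P ^ (m - s) := by ring
            _ = eval P (p k) * (det2 (y k) P ^ s * det2 (y k) P ^ (m - s)) := by rw [← h5]; ring
            _ = eval P (p k) * ((-1 : ℂ) ^ m * (-det2 (y k) P) ^ m) := by rw [← h6, h7]
            _ = _ := by ring
        rw [h4, h1, mul_zero]
      linear_combination P 0 * h3
  have hG2 := (mul_eq_zero.mp hG).resolve_left (mul_ne_zero h.hq (X_ne_zero _))
  have hcard := card_rel (fun k => ![y k 0, y k 1, 0]) (m - s) ![0, 0, 1] c (by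
      intro η _
      have h1 := congrArg (eval ![-η 1, η 0]) hG2
      simp only [map_sum, map_mul, map_pow, eval_C, eval_det2, map_zero] at h1
      have h2 : ∀ k, (![y k 0, y k 1, 0] : Fin 3 → ℂ) ⬝ᵥ η = det2 (y k) ![-η 1, η 0] := by
        intro k
        simp [dotProduct, Fin.sum_univ_three, det2]
      simp only [h2]
      exact h1) W hWne hc1
    hc2 (by
      intro k _ l _ hmem
      obtain ⟨a, b, hab⟩ := Submodule.mem_span_pair.mp hmem
      have := congrFun hab 2
      simp at this) (by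
      intro k hk l hl hkl
      rw [LinearIndependent.pair_iff]
      intro s t hst
      apply LinearIndependent.pair_iff.mp (hy k hk l hl hkl) s t
      funext i
      fin_cases i
      · simpa using congrFun hst 0
      · simpa using congrFun hst 1) (by
      intro k hk h0
      apply hy0 k hk
      funext i
      fin_cases i
      · simpa using congrFun h0 0
      · simpa using congrFun h0 1)
  omega

/-- the support of a system has many points in one plane -/
theorem Sys.planar {f : ℕ} (hf : 2 ≤ f) {K : Type} [Fintype K] [DecidableEq K]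
    {y : K → Fin f → ℂ} {m a b : ℕ}
    {p : K → MvPolynomial (Fin f) ℂ} {q : MvPolynomial (Fin f) ℂ} (h : Sys y m a b p q)
    (hy : ∀ k l, p k ≠ 0 → p l ≠ 0 → k ≠ l → LinearIndependent ℂ ![y k, y l])
    (hy0 : ∀ k, p k ≠ 0 → y k ≠ 0) :
    ∃ (w w' : Fin f → ℂ) (W : Finset K),
      (∀ k ∈ W, p k ≠ 0 ∧ y k ∈ Submodule.span ℂ {w, w'}) ∧ m + a + f ≤ W.card + b := by
  classical
  induction f, hf using Nat.le_induction generalizing m a b with
  | base =>
    refine ⟨![1, 0], ![0, 1], Finset.univ.filter fun k => p k ≠ 0, ?_, ?_⟩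
    · intro k hk
      refine ⟨(Finset.mem_filter.mp hk).2, ?_⟩
      rw [Submodule.mem_span_pair]
      refine ⟨y k 0, y k 1, ?_⟩
      funext i
      fin_cases i
      · simp
      · simp
    · exact h.two _ (fun k => by simp) (fun k hk l hl => hy k l (Finset.mem_filter.mp hk).2
        (Finset.mem_filter.mp hl).2) (fun k hk => hy0 k (Finset.mem_filter.mp hk).2)
  | succ f hf ih =>
    obtain ⟨u, y', a', b', p', q', hs, hk, hab⟩ := h.step hf
    have hlin : ∀ k l, p' k ≠ 0 → p' l ≠ 0 → ∀ s t : ℂ, s • y' k + t • y' l = 0 →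
        s • y k + t • y l = 0 := by
      intro k l h1 h2 s t h3
      rw [← (hk k h1).2, ← (hk l h2).2, Finset.smul_sum, Finset.smul_sum,
        ← Finset.sum_add_distrib]
      refine Finset.sum_eq_zero fun j _ => ?_
      rw [smul_smul, smul_smul, ← add_smul]
      have := congrFun h3 j
      simp only [Pi.add_apply, Pi.smul_apply, smul_eq_mul, Pi.zero_apply] at this
      rw [this, zero_smul]
    obtain ⟨w, w', W, hW, hcard⟩ := ih hs (by
      intro k l h1 h2 hkl
      rw [LinearIndependent.pair_iff]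
      intro s t hst
      exact LinearIndependent.pair_iff.mp (hy k l (hk k h1).1 (hk l h2).1 hkl) s t
        (hlin k l h1 h2 s t hst)) (by
      intro k h1 h0
      apply hy0 k (hk k h1).1
      rw [← (hk k h1).2, h0]
      simp)
    refine ⟨∑ j, w j • u j, ∑ j, w' j • u j, W, ?_, by omega⟩
    intro k hkW
    obtain ⟨h1, h2⟩ := hW k hkW
    refine ⟨(hk k h1).1, ?_⟩
    rw [Submodule.mem_span_pair] at h2 ⊢
    obtain ⟨s, t, hst⟩ := h2
    refine ⟨s, t, ?_⟩
    rw [← (hk k h1).2, ← hst, Finset.smul_sum, Finset.smul_sum, ← Finset.sum_add_distrib]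
    refine Finset.sum_congr rfl fun j _ => ?_
    simp only [Pi.add_apply, Pi.smul_apply, smul_eq_mul]
    rw [smul_smul, smul_smul, ← add_smul]

end Pool.Agent.Y206.G
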