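import Pool.Agent.Y206.G.Gor
import Pool.Agent.Y206.G.Base
import Pool.Agent.TH130.CI.Soc

set_option autoImplicit false
open MvPolynomial
open Pool.Agent.Helper947.Geo
open H503R3.QCI (Homog comp_mul comp_mul_of_lt Reg NZD)

namespace Pool.Agent.Y206.G

theorem soc1_of_gor {n : ℕ} (φ : MvPolynomial (Fin n) ℂ →ₗ[ℂ] ℂ) (σ : ℕ)
    (hφ : Pool.Agent.W515.SLP.Deg φ σ) (h0 : φ ≠ 0) : Soc1 (TH130CI.gor φ) σ := by
  classical
  obtain ⟨g, hg⟩ : ∃ g, φ g ≠ 0 := by
    by_contra hcon
    push Not at hcon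
    exact h0 (LinearMap.ext hcon)
  have hdec : ∀ f, φ f = φ (homogeneousComponent σ f) := by
    intro f
    conv_lhs => rw [← sum_homogeneousComponent f]
    rw [map_sum]
    by_cases hσ : σ ∈ Finset.range (f.totalDegree + 1)
    · rw [Finset.sum_eq_single σ]
      · intro b _ hb
        exact hφ b hb _ (homogeneousComponent_isHomogeneous b f)
      · intro h; exact absurd hσ h
    · rw [homogeneousComponent_eq_zero σ f (by simpa using hσ), map_zero]
      refine Finset.sum_eq_zero fun b hb => hφ b ?_ _ (homogeneousComponent_isHomogeneous b f)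
      rintro rfl
      exact hσ hb
  set s := homogeneousComponent σ g with hs
  have hsh : s.IsHomogeneous σ := homogeneousComponent_isHomogeneous σ g
  have hφs : φ s ≠ 0 := by rw [hs, ← hdec]; exact hg
  -- the value on a product with an element killed by the variables
  have hkill : ∀ F : MvPolynomial (Fin n) ℂ, (∀ i, X i * F ∈ TH130CI.gor φ) →
      ∀ v, φ (F * v) = coeff 0 v * φ F := by
    intro F hF v
    induction v using MvPolynomial.induction_on with
    | C a => rw [coeff_C, if_pos rfl, mul_comm, ← smul_eq_C_mul, map_smul, smul_eq_mul]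
    | add p q hp hq => rw [mul_add, map_add, hp, hq, coeff_add, add_mul]
    | mul_X p i _ =>
      have h1 : φ (X i * F * p) = 0 := hF i p
      have h2 : F * (p * X i) = X i * F * p := by ring
      rw [h2, h1]
      have h3 : coeff 0 (p * X i) = 0 := by
        rw [coeff_mul_X', if_neg]
        simp
      rw [h3, zero_mul]
  have hsX : ∀ i, X i * s ∈ TH130CI.gor φ := by
    intro i v
    rw [hdec]
    have h1 : X i * s * v = s * (X i * v) := by ring
    rw [h1]
    have h2 : homogeneousComponent (σ + 0) (s * (X i * v)) =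
        s * homogeneousComponent 0 (X i * v) := comp_mul hsh
    rw [add_zero] at h2
    rw [h2, comp_mul_of_lt (isHomogeneous_X ℂ i) (by omega), mul_zero, map_zero]
  refine ⟨s, hsh, ?_, hsX, ?_⟩
  · intro h1
    have := h1 1
    rw [mul_one] at this
    exact hφs this
  · intro F hF
    refine ⟨φ F / φ s, fun v => ?_⟩
    have h1 : (F - C (φ F / φ s) * s) * v = F * v - (φ F / φ s) • (s * v) := by
      rw [smul_eq_C_mul]; ring
    rw [h1, map_sub, map_smul, hkill F hF, hkill s hsX, smul_eq_mul]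
    field_simp
    ring

/-- a linear form without zeros on the points -/
theorem exists_linear {N : ℕ} {K : Type} [Fintype K] (w : K → Fin N → ℂ) (h0 : ∀ k, w k ≠ 0) :
    ∃ h : MvPolynomial (Fin N) ℂ, h.IsHomogeneous 1 ∧ ∀ k, eval (w k) h ≠ 0 := by
  classical
  obtain ⟨P, hP⟩ := g4_exists_ne (∏ k, lf (w k)) (Finset.prod_ne_zero_iff.mpr fun k _ => lf_ne (h0 k))
  rw [map_prod] at hP
  refine ⟨lf P, lf_homog P, fun k => ?_⟩
  have h1 := Finset.prod_ne_zero_iff.mp hP k (Finset.mem_univ k)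
  rw [eval_lf] at h1 ⊢
  rwa [dotProduct_comm]

theorem nzd_linear {N : ℕ} {K : Type} [Fintype K] {w : K → Fin N → ℂ}
    {I : Ideal (MvPolynomial (Fin N) ℂ)} (hI : IsVan w I) {h : MvPolynomial (Fin N) ℂ}
    (hh : h.IsHomogeneous 1) (hne : ∀ k, eval (w k) h ≠ 0) : NZD I h := by
  intro g hg
  rw [hI] at hg ⊢
  intro k t
  have hex : ∃ G : Polynomial ℂ, ∀ t, G.eval t = eval (t • w k) g := by
    refine ⟨cur 0 (w k) g, fun t => ?_⟩
    rw [eval_cur, zero_add]
  obtain ⟨G, hG⟩ := hex
  have h1 : Polynomial.X * G = 0 := by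
    apply Polynomial.funext
    intro t
    rw [Polynomial.eval_mul, Polynomial.eval_X, Polynomial.eval_zero, hG]
    have h2 := hg k t
    rw [map_mul, rc_eval_smul h 1 hh, pow_one] at h2
    have h3 : eval (w k) h * (t * eval (t • w k) g) = 0 := by linear_combination h2
    exact (mul_eq_zero.mp h3).resolve_left (hne k)
  have h2 := (mul_eq_zero.mp h1).resolve_left Polynomial.X_ne_zero
  rw [← hG, h2, Polynomial.eval_zero]

/-- complete intersections -/
theorem soc1_of_ci {N : ℕ} {K : Type} [Fintype K] [Nonempty K] {w : K → Fin (N + 1) → ℂ}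
    (F : Fin N → MvPolynomial (Fin (N + 1)) ℂ) (a : Fin N → ℕ)
    (ha : ∀ i, (F i).IsHomogeneous (a i)) (hreg : IsReg F)
    (hI : IsVan w (Ideal.span (Set.range F))) {h : MvPolynomial (Fin (N + 1)) ℂ}
    (hh : h.IsHomogeneous 1) (hne : ∀ k, eval (w k) h ≠ 0) :
    (∀ i, 1 ≤ a i) ∧ Soc1 (Ideal.span (Set.range F) ⊔ Ideal.span {h}) (∑ i, (a i - 1)) := by
  classical
  obtain ⟨k₀⟩ := (inferInstance : Nonempty K)
  have hproper : (1 : MvPolynomial (Fin (N + 1)) ℂ) ∉ Ideal.span (Set.range F) := by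
    intro h1
    have := van_eval hI h1 k₀
    rw [map_one] at this
    exact one_ne_zero this
  have ha1 : ∀ i, 1 ≤ a i := by
    intro i
    by_contra hcon
    have hai : a i = 0 := by omega
    have h1 := ha i
    rw [hai] at h1
    have h2 : F i = C (coeff 0 (F i)) := by
      have := h1.totalDegree_le
      exact totalDegree_eq_zero_iff_eq_C.mp (by omega)
    by_cases hc : coeff 0 (F i) = 0
    · apply hproper
      have h3 := hreg i 1 (by rw [h2, hc, C_0, zero_mul]; exact Ideal.zero_mem _)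
      exact Ideal.span_mono (Set.image_subset_range F _) h3
    · apply hproper
      have h3 : F i * C (coeff 0 (F i))⁻¹ ∈ Ideal.span (Set.range F) :=
        Ideal.mul_mem_right _ _ (Ideal.subset_span ⟨i, rfl⟩)
      rw [h2, ← C_mul] at h3
      rw [show coeff 0 (C (coeff 0 (F i)) : MvPolynomial (Fin (N + 1)) ℂ) = coeff 0 (F i) by
        rw [coeff_C, if_pos rfl]] at h3
      rwa [mul_inv_cancel₀ hc, C_1] at h3
  refine ⟨ha1, ?_⟩
  set f : Fin (N + 1) → MvPolynomial (Fin (N + 1)) ℂ := Fin.snoc F h with hf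
  set d : Fin (N + 1) → ℕ := Fin.snoc a 1 with hd
  have hfh : ∀ i, (f i).IsHomogeneous (d i) := by
    intro i
    refine Fin.lastCases ?_ (fun j => ?_) i
    · rw [hf, hd, Fin.snoc_last, Fin.snoc_last]; exact hh
    · rw [hf, hd, Fin.snoc_castSucc, Fin.snoc_castSucc]; exact ha j
  have hd1 : ∀ i, 1 ≤ d i := by
    intro i
    refine Fin.lastCases ?_ (fun j => ?_) i
    · rw [hd, Fin.snoc_last]
    · rw [hd, Fin.snoc_castSucc]; exact ha1 j
  have himg : ∀ i : Fin N, f '' {j | j < i.castSucc} = F '' {j | j < i} := by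
    intro i
    ext x
    constructor
    · rintro ⟨j, hj, rfl⟩
      refine Fin.lastCases (fun hj => ?_) (fun j' hj => ?_) j hj
      · exact absurd hj (not_lt.mpr (Fin.le_last _))
      · exact ⟨j', Fin.castSucc_lt_castSucc_iff.mp hj, by rw [hf, Fin.snoc_castSucc]⟩
    · rintro ⟨j, hj, rfl⟩
      exact ⟨j.castSucc, Fin.castSucc_lt_castSucc_iff.mpr hj, by rw [hf, Fin.snoc_castSucc]⟩
  have himg2 : f '' {j | j < Fin.last N} = Set.range F := by
    ext x
    constructor
    · rintro ⟨j, hj, rfl⟩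
      refine Fin.lastCases (fun hj => ?_) (fun j' hj => ?_) j hj
      · exact absurd (show Fin.last N < Fin.last N from hj) (lt_irrefl _)
      · exact ⟨j', by rw [hf, Fin.snoc_castSucc]⟩
    · rintro ⟨j, rfl⟩
      exact ⟨j.castSucc, Fin.castSucc_lt_last j, by rw [hf, Fin.snoc_castSucc]⟩
  have hrange : Ideal.span (Set.range f) = Ideal.span (Set.range F) ⊔ Ideal.span {h} := by
    rw [← Ideal.span_union]
    congr 1
    ext x
    constructor
    · rintro ⟨j, rfl⟩
      refine Fin.lastCases ?_ (fun j' => ?_) j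
      · right; rw [hf, Fin.snoc_last]; rfl
      · left; exact ⟨j', by rw [hf, Fin.snoc_castSucc]⟩
    · rintro (⟨j, rfl⟩ | hx)
      · exact ⟨j.castSucc, by rw [hf, Fin.snoc_castSucc]⟩
      · exact ⟨Fin.last N, by rw [hf, Fin.snoc_last]; exact (Set.mem_singleton_iff.mp hx).symm⟩
  have hregf : Reg f := by
    intro i
    refine Fin.lastCases ?_ (fun j => ?_) i
    · rw [himg2, hf, Fin.snoc_last]
      exact nzd_linear hI hh hne
    · rw [himg, hf, Fin.snoc_castSucc]
      exact fun g hg => hreg j g hg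
  obtain ⟨φ, hφ, hgor⟩ := TH130CI.ci_gor hfh hd1 hregf
  have hsum : ∑ i, (d i - 1) = ∑ i, (a i - 1) := by
    rw [Fin.sum_univ_castSucc]
    simp only [hd, Fin.snoc_castSucc, Fin.snoc_last]
    omega
  rw [hsum] at hφ
  rw [← hrange, hgor]
  apply soc1_of_gor φ _ hφ
  rintro rfl
  have h1 : (1 : MvPolynomial (Fin (N + 1)) ℂ) ∈ Ideal.span (Set.range f) := by
    rw [hgor]
    intro v
    rfl
  have h2 : Ideal.span (Set.range f) ≤ RingHom.ker (eval (0 : Fin (N + 1) → ℂ)) := by
    rw [Ideal.span_le]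
    rintro _ ⟨i, rfl⟩
    show eval 0 (f i) = 0
    have h3 := rc_eval_smul (f i) (d i) (hfh i) 0 0
    rw [zero_smul, zero_pow (by have := hd1 i; omega), zero_mul] at h3
    exact h3
  have h3 : eval (0 : Fin (N + 1) → ℂ) (1 : MvPolynomial (Fin (N + 1)) ℂ) = 0 := h2 h1
  rw [map_one] at h3
  exact one_ne_zero h3

end Pool.Agent.Y206.G
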