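import Pool.Agent.Y206.G.Flat

set_option autoImplicit false
open MvPolynomial
open Pool.Agent.Helper947.Geo

namespace Pool.Agent.Y206.G

theorem three_dep {d : ℕ} (a b c w w' : Fin d → ℂ) (ha : a ∈ Submodule.span ℂ {w, w'})
    (hb : b ∈ Submodule.span ℂ {w, w'}) (hc : c ∈ Submodule.span ℂ {w, w'}) :
    ¬ LinearIndependent ℂ ![a, b, c] := by
  classical
  intro h
  have h1 := finrank_span_eq_card h
  have h2 : Submodule.span ℂ (Set.range ![a, b, c]) ≤ Submodule.span ℂ {w, w'} := by
    rw [Submodule.span_le]
    rintro _ ⟨i, rfl⟩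
    fin_cases i
    · exact ha
    · exact hb
    · exact hc
  have h3 := Submodule.finrank_mono h2
  have h4 : Module.finrank ℂ (Submodule.span ℂ ({w, w'} : Set (Fin d → ℂ))) ≤ 2 := by
    have h5 := finrank_span_finset_le_card (R := ℂ) ({w, w'} : Finset (Fin d → ℂ))
    have h6 : ({w, w'} : Finset (Fin d → ℂ)).card ≤ 2 := Finset.card_le_two
    rw [Finset.coe_pair] at h5
    exact h5.trans h6
  rw [h1] at h3
  simp at h3
  omega

/-- the data on the whole space -/
structure Dat {d : ℕ} {K : Type} [Fintype K] (z : K → Fin d → ℂ) (m D E : ℕ)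
    (l : K → MvPolynomial (Fin d) ℂ) (κ : MvPolynomial (Fin d) ℂ) : Prop where
  hlD : ∀ k, (l k).IsHomogeneous D
  hκE : κ.IsHomogeneous E
  hinv : ∀ k, κ * DD (z k) (l k) = l k * DD (z k) κ
  hrel : Rel z m l
  hind : ∀ c : K → ℂ, (∀ η, ∑ k, c k * (z k ⬝ᵥ η) ^ m = 0) → ∀ k, c k = 0
  hE : E + 2 = D + m + d
  h2 : ∀ i j, i ≠ j → LinearIndependent ℂ ![z i, z j]
  h3 : ∀ i j k, i ≠ j → i ≠ k → j ≠ k → LinearIndependent ℂ ![z i, z j, z k]

theorem low_le {f : ℕ} {p : Polynomial (MvPolynomial (Fin f) ℂ)} {D : ℕ} (hp : SHf p D)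
    (h0 : p ≠ 0) : p.natTrailingDegree ≤ D := by
  by_contra hcon
  push Not at hcon
  exact Polynomial.coeff_natTrailingDegree_ne_zero.mpr h0 ((hp _).2 hcon)

theorem order_zero {d f : ℕ} (u : Fin f → Fin d → ℂ) (v : Fin d → ℂ)
    (hvs : v ∈ Submodule.span ℂ (Set.range u)) (κ : MvPolynomial (Fin d) ℂ)
    (hv : eval v κ ≠ 0) : (ef u v κ).natTrailingDegree = 0 := by
  obtain ⟨x, hx⟩ := (Submodule.mem_span_range_iff_exists_fun ℂ).mp hvs
  apply Nat.le_zero.mp
  apply Polynomial.natTrailingDegree_le_of_ne_zero
  rw [ef_coeff_zero]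
  intro h0
  apply hv
  rw [← hx, ← eval_sub, h0, map_zero]

/-- **the order of the denominator along a flat** -/
theorem Dat.claim {d : ℕ} {K : Type} [Fintype K] [DecidableEq K] [Nonempty K]
    {z : K → Fin d → ℂ} {m D E : ℕ}
    {l : K → MvPolynomial (Fin d) ℂ} {κ : MvPolynomial (Fin d) ℂ} (h : Dat z m D E l κ)
    (v : Fin d → ℂ) (hv : eval v κ ≠ 0) (hvl : ∀ k, eval v (l k) ≠ 0) (c : ℕ) :
    ∀ f, f + c = d → 2 ≤ f → ∀ u : Fin f → Fin d → ℂ, LinearIndependent ℂ u → ∀ k,
      (ef u v κ).natTrailingDegree ≤ (ef u v (l k)).natTrailingDegree + c := by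
  classical
  induction c with
  | zero =>
    intro f hf h2f u hu k
    have hfd : f = d := by omega
    subst hfd
    have : Nonempty (Fin f) := ⟨⟨0, by omega⟩⟩
    have htop := hu.span_eq_top_of_card_eq_finrank (by simp)
    rw [order_zero u v (by rw [htop]; trivial) κ hv]
    exact Nat.zero_le _
  | succ c ih =>
    intro f hf h2f u hu k₀
    by_contra hcon
    push Not at hcon
    by_cases hvs : v ∈ Submodule.span ℂ (Set.range u)
    · rw [order_zero u v hvs κ hv] at hcon
      omega
    obtain ⟨k₁, hk₁⟩ := Finite.exists_min (fun k => (ef u v (l k)).natTrailingDegree)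
    set β := (ef u v κ).natTrailingDegree with hβ
    set α := (ef u v (l k₁)).natTrailingDegree with hα
    have hαβ : α + c + 2 ≤ β := by
      have := hk₁ k₀
      omega
    have hκne := ef_ne u v κ hv
    have hlne := fun k => ef_ne u v (l k) (hvl k)
    have hβE : β ≤ E := low_le (ef_hom u v κ E h.hκE) hκne
    have hαD : α ≤ D := low_le (ef_hom u v (l k₁) D (h.hlD k₁)) (hlne k₁)
    have hy : ∀ k, ∃ y : Fin f → ℂ, z k ∈ Submodule.span ℂ (Set.range u) →
        ∑ j, y j • u j = z k := by
      intro k
      by_cases hk : z k ∈ Submodule.span ℂ (Set.range u)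
      · obtain ⟨x, hx⟩ := (Submodule.mem_span_range_iff_exists_fun ℂ).mp hk
        exact ⟨x, fun _ => hx⟩
      · exact ⟨0, fun h1 => absurd h1 hk⟩
    choose y hy using hy
    have hout : ∀ k, z k ∉ Submodule.span ℂ (Set.range u) → (ef u v (l k)).coeff α = 0 := by
      intro k hk
      apply Polynomial.coeff_eq_zero_of_lt_natTrailingDegree
      have h1 := ef_order u v (z k) (l k) κ (h.hinv k) (hvl k) hv
      have h2 := ih (f + 1) (by omega) (by omega) (Fin.snoc u (z k))
        (linearIndependent_finSnoc.mpr ⟨hu, hk⟩) k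
      omega
    have hin : ∀ k, (ef u v (l k)).coeff α ≠ 0 → ∑ j, y k j • u j = z k := by
      intro k hk
      apply hy k
      by_contra h1
      exact hk (hout k h1)
    have hlow : ∀ k, ∀ i < α, (ef u v (l k)).coeff i = 0 := by
      intro k i hi
      apply Polynomial.coeff_eq_zero_of_lt_natTrailingDegree
      exact lt_of_lt_of_le hi (hk₁ k)
    have hlowκ : ∀ i < β, (ef u v κ).coeff i = 0 := by
      intro i hi
      exact Polynomial.coeff_eq_zero_of_lt_natTrailingDegree hi
    have hsys : Sys y m (D - α) (E - β) (fun k => (ef u v (l k)).coeff α)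
        ((ef u v κ).coeff β) := by
      refine ⟨⟨k₁, Polynomial.coeff_natTrailingDegree_ne_zero.mpr (hlne k₁)⟩,
        Polynomial.coeff_natTrailingDegree_ne_zero.mpr hκne,
        fun k => ((ef_hom u v (l k) D (h.hlD k)) α).1 hαD,
        ((ef_hom u v κ E h.hκE) β).1 hβE, ?_, ?_, ?_⟩
      · intro k
        by_cases hk : (ef u v (l k)).coeff α = 0
        · rw [hk]
          simp [DD]
        · apply ef_inv u v (l k) κ (y k) _ α β (hlow k) hlowκ
          rw [hin k hk]
          exact h.hinv k
      · intro P hP η hη
        have hli : LinearIndependent ℂ (Fin.snoc u v : Fin (f + 1) → Fin d → ℂ) :=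
          linearIndependent_finSnoc.mpr ⟨hu, hvs⟩
        obtain ⟨ζ, hζ⟩ := exists_coord (Fin.snoc u v : Fin (f + 1) → Fin d → ℂ) hli
          (Fin.snoc η 0 : Fin (f + 1) → ℂ)
        have hζ1 : ∀ j, u j ⬝ᵥ ζ = η j := by
          intro j
          have := hζ j.castSucc
          simpa only [Fin.snoc_castSucc] using this
        have hζ2 : v ⬝ᵥ ζ = 0 := by
          have := hζ (Fin.last f)
          simpa only [Fin.snoc_last] using this
        have hpt : ∀ t : ℂ, ∑ j, P j • u j + t • v ≠ 0 := by
          intro t h0
          have h1 := Fintype.linearIndependent_iff.mp hli (Fin.snoc P t) (by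
            rw [Fin.sum_univ_castSucc]
            simp only [Fin.snoc_castSucc, Fin.snoc_last]
            exact h0)
          apply hP
          funext j
          have h9 := h1 j.castSucc
          rw [Fin.snoc_castSucc] at h9
          exact h9
        have h1 : ∑ k, cur (∑ j, P j • u j) v (l k) * Polynomial.C ((z k ⬝ᵥ ζ) ^ m) = 0 := by
          apply Polynomial.funext
          intro t
          rw [Polynomial.eval_finsetSum, Polynomial.eval_zero]
          simp only [Polynomial.eval_mul, eval_cur, Polynomial.eval_C]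
          apply h.hrel _ (hpt t) ζ
          rw [add_dotProduct, smul_dotProduct, hζ2, smul_zero, add_zero, sum_dotProduct]
          simp only [smul_dotProduct, hζ1, smul_eq_mul]
          exact hη
        have h2 := congrArg (fun s => Polynomial.coeff s α) h1
        simp only [Polynomial.finsetSum_coeff, Polynomial.coeff_mul_C, Polynomial.coeff_zero,
          ← eval_coeff_ef] at h2
        rw [← h2]
        refine Finset.sum_congr rfl fun k _ => ?_
        by_cases hk : (ef u v (l k)).coeff α = 0
        · simp only [hk, map_zero, zero_mul]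
        · congr 2
          rw [← hin k hk, sum_dotProduct]
          simp only [smul_dotProduct, hζ1, smul_eq_mul]
          rfl
      · intro c hc hη
        apply h.hind c
        intro ζ
        rw [← hη (fun j => u j ⬝ᵥ ζ)]
        refine Finset.sum_congr rfl fun k _ => ?_
        by_cases hk : (ef u v (l k)).coeff α = 0
        · rw [hc k hk, zero_mul, zero_mul]
        · congr 2
          rw [← hin k hk, sum_dotProduct]
          simp only [smul_dotProduct, smul_eq_mul]
          rfl
    obtain ⟨w, w', W, hW, hcard⟩ := hsys.planar h2f (by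
      intro i j hi hj hij
      rw [LinearIndependent.pair_iff]
      intro s t hst
      apply LinearIndependent.pair_iff.mp (h.h2 i j hij) s t
      rw [← hin i hi, ← hin j hj, Finset.smul_sum, Finset.smul_sum, ← Finset.sum_add_distrib]
      refine Finset.sum_eq_zero fun x _ => ?_
      rw [smul_smul, smul_smul, ← add_smul]
      have := congrFun hst x
      simp only [Pi.add_apply, Pi.smul_apply, smul_eq_mul, Pi.zero_apply] at this
      rw [this, zero_smul]) (by
      intro k hk h0
      have h1 := hin k hk
      rw [h0] at h1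
      simp only [Pi.zero_apply, zero_smul, Finset.sum_const_zero] at h1
      by_cases hK : ∃ j, k ≠ j
      · obtain ⟨j, hj⟩ := hK
        have := (h.h2 k j hj).ne_zero 0
        exact this h1.symm
      · -- only one point: `hind` gives a contradiction with the relation
        push Not at hK
        have hD := h.hrel
        obtain ⟨P, hP⟩ : ∃ P : Fin d → ℂ, P ≠ 0 := ⟨v, by
          rintro rfl
          exact hvs (Submodule.zero_mem _)⟩
        have h4 := h.hind (fun _ => if 0 < m then 1 else 0) (by
          intro η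
          refine Finset.sum_eq_zero fun j _ => ?_
          rw [← hK j, ← h1, zero_dotProduct]
          by_cases hm : 0 < m
          · rw [zero_pow (by omega), mul_zero]
          · rw [if_neg hm, zero_mul]) k
        by_cases hm : 0 < m
        · rw [if_pos hm] at h4
          exact one_ne_zero h4
        · have hm0 : m = 0 := by omega
          subst hm0
          have h5 := h.hrel v (by
            rintro rfl
            exact hvs (Submodule.zero_mem _)) 0 (by simp)
          have h6 : ∀ j ∈ (Finset.univ : Finset K), j ≠ k →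
              eval v (l j) * (z j ⬝ᵥ (0 : Fin d → ℂ)) ^ 0 = 0 := by
            intro j _ hj
            exact absurd (hK j).symm hj
          rw [Finset.sum_eq_single k (fun j hj hjk => h6 j hj hjk)
            (fun h7 => absurd (Finset.mem_univ k) h7)] at h5
          simp only [pow_zero, mul_one] at h5
          exact hvl k h5)
    have hW2 : W.card ≤ 2 := by
      by_contra h3
      push Not at h3
      obtain ⟨i, j, k, hi, hj, hk, hij, hik, hjk⟩ := Finset.two_lt_card_iff.mp h3
      have hmem : ∀ x ∈ W, z x ∈ Submodule.span ℂ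
          {∑ j, w j • u j, ∑ j, w' j • u j} := by
        intro x hx
        obtain ⟨h4, h5⟩ := hW x hx
        rw [Submodule.mem_span_pair] at h5 ⊢
        obtain ⟨s, t, hst⟩ := h5
        refine ⟨s, t, ?_⟩
        rw [← hin x h4, ← hst, Finset.smul_sum, Finset.smul_sum, ← Finset.sum_add_distrib]
        refine Finset.sum_congr rfl fun j _ => ?_
        simp only [Pi.add_apply, Pi.smul_apply, smul_eq_mul]
        rw [smul_smul, smul_smul, ← add_smul]
      exact three_dep _ _ _ _ _ (hmem i hi) (hmem j hj) (hmem k hk) (h.h3 i j k hij hik hjk)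
    have hE := h.hE
    omega

end Pool.Agent.Y206.G
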