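import Pool.Agent.Y206.G.Kap

set_option autoImplicit false
open MvPolynomial
open Pool.Agent.Helper947.Geo

namespace Pool.Agent.Y206.G

theorem span_dual {d : ℕ} {K : Type} (z : K → Fin d → ℂ)
    (hsp : Submodule.span ℂ (Set.range z) = ⊤) (η : Fin d → ℂ) (h : ∀ k, η ⬝ᵥ z k = 0) : η = 0 := by
  by_contra hne
  obtain ⟨j, hj⟩ := Function.ne_iff.mp hne
  have hmem : (Pi.single j (1 : ℂ) : Fin d → ℂ) ∈ Submodule.span ℂ (Set.range z) := by
    rw [hsp]; trivial
  have h1 : η ⬝ᵥ (Pi.single j (1 : ℂ) : Fin d → ℂ) = 0 := by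
    refine Submodule.span_induction (p := fun x _ => η ⬝ᵥ x = 0) ?_ ?_ ?_ ?_ hmem
    · rintro _ ⟨k, rfl⟩
      exact h k
    · simp
    · intro x y _ _ hx hy
      rw [dotProduct_add, hx, hy, add_zero]
    · intro c x _ hx
      rw [dotProduct_smul, hx, smul_zero]
  rw [dotProduct_single, mul_one] at h1
  exact hj h1

theorem exists_basis_sub {d : ℕ} {K : Type} [Fintype K] (z : K → Fin d → ℂ)
    (hsp : Submodule.span ℂ (Set.range z) = ⊤) :
    ∃ b : Fin d → K, LinearIndependent ℂ (fun i => z (b i)) := by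
  classical
  obtain ⟨B, hB1, hB2, hB3⟩ := exists_linearIndependent ℂ (Set.range z)
  rw [hsp] at hB2
  have hBf : B.Finite := (Set.finite_range z).subset hB1
  haveI : Fintype B := hBf.fintype
  have hc : Fintype.card B = d := by
    have h1 := finrank_span_set_eq_card hB3
    have h2 : Module.finrank ℂ (Submodule.span ℂ B) = d := by
      rw [hB2, finrank_top]
      simp
    rw [h2] at h1
    exact ((Set.toFinset_card B).symm.trans h1.symm)
  let e : Fin d ≃ B := (Fintype.equivFinOfCardEq hc).symm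
  choose f hf using fun i => hB1 (e i).2
  refine ⟨f, ?_⟩
  have : (fun i => z (f i)) = (Subtype.val : B → _) ∘ e := by
    funext i
    exact hf i
  rw [this]
  exact hB3.comp e e.injective

/-- the primitive relation, its logarithmic derivative, and the independence of the powers -/
theorem setup {d : ℕ} (hd : 2 ≤ d) {K : Type} [Fintype K] (z : K → Fin d → ℂ)
    (hsp : Submodule.span ℂ (Set.range z) = ⊤) (m : ℕ) (hm : 1 ≤ m)
    (φ : MvPolynomial (Fin d) ℂ) (hφ : φ ≠ 0)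
    (hA : ∀ P, eval P φ ≠ 0 → Module.finrank ℂ (relSpace z m P) = 1)
    (hB : ∀ P, eval P φ ≠ 0 → ∀ c ∈ relSpace z m P, c ≠ 0 → ∀ k, c k ≠ 0)
    (hC : ∀ P, eval P φ ≠ 0 → Module.finrank ℂ (relSpace z (m - 1) P) ≤ d - 1) :
    ∃ (D : ℕ) (l : K → MvPolynomial (Fin d) ℂ) (Q : MvPolynomial (Fin d) ℂ)
      (g : Fin d → MvPolynomial (Fin d) ℂ), (∀ k, l k ≠ 0) ∧ (∀ k, (l k).IsHomogeneous D) ∧
      Rel z m l ∧ (∀ δ : MvPolynomial (Fin d) ℂ, Irreducible δ → ∃ k, ¬ δ ∣ l k) ∧ Q ≠ 0 ∧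
      ∑ j, g j * X j = C ((D + m + d - 2 : ℕ) : ℂ) * Q ∧
      (∀ k, Q * DD (z k) (l k) = lin g (z k) * l k) ∧
      (∀ δ : MvPolynomial (Fin d) ℂ, Irreducible δ → δ ∣ Q → ∃ j, ¬ δ ∣ g j) ∧
      ∀ c : K → ℂ, (∀ η, ∑ k, c k * (z k ⬝ᵥ η) ^ m = 0) → ∀ k, c k = 0 := by
  classical
  have hpos : 0 < d := by omega
  obtain ⟨D, l, hl0, hlD, hl, hprim⟩ := exists_primitive z m φ hφ (fun P hP h0 => by
    have h1 := hA P hP
    rw [h0, finrank_bot] at h1
    exact zero_ne_one h1)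
  obtain ⟨j₀, hj₀⟩ := Function.ne_iff.mp hl0
  have hfull : ∀ k, l k ≠ 0 := by
    intro k hk
    obtain ⟨P, hP⟩ := g4_exists_ne (φ * l j₀ * X (⟨0, hpos⟩ : Fin d))
      (mul_ne_zero (mul_ne_zero hφ hj₀) (X_ne_zero _))
    rw [map_mul, map_mul, eval_X] at hP
    have hP0 : P ≠ 0 := by
      rintro rfl
      exact right_ne_zero_of_mul hP rfl
    refine hB P (left_ne_zero_of_mul (left_ne_zero_of_mul hP)) _ (hl P hP0) (fun h0 => ?_) k
      (by simp only [hk, map_zero])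
    exact right_ne_zero_of_mul (left_ne_zero_of_mul hP) (congrFun h0 j₀)
  obtain ⟨b, hb⟩ := exists_basis_sub z hsp
  obtain ⟨Q, g, hQ, hg, hstar, hQprim⟩ := star hd z m D hm l hl hlD b hb (fun i => hfull _) φ hφ hC
  refine ⟨D, l, Q, g, hfull, hlD, hl, hprim, hQ, hg, hstar, hQprim, ?_⟩
  intro c hc
  by_contra hcon
  push Not at hcon
  obtain ⟨j, hj⟩ := hcon
  -- proportionality
  have hprop : ∀ i, l i * C (c j) = l j * C (c i) := by
    intro i
    have h1 : φ * X (⟨0, hpos⟩ : Fin d) * (l i * C (c j) - l j * C (c i)) = 0 := by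
      apply MvPolynomial.funext
      intro P
      rw [map_zero, map_mul, map_mul, eval_X]
      by_cases hP : eval P φ = 0
      · rw [hP, zero_mul, zero_mul]
      by_cases hP0' : P ⟨0, hpos⟩ = 0
      · rw [hP0', mul_zero, zero_mul]
      have hP0 : P ≠ 0 := by rintro rfl; exact hP0' rfl
      have h2 : c ∈ relSpace z m P := fun η _ => hc η
      have h3 := hl P hP0
      have hc0 : c ≠ 0 := fun h0 => hj (congrFun h0 j)
      have h4 := (finrank_eq_one_iff_of_nonzero' (⟨c, h2⟩ : relSpace z m P) (by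
        intro h0
        exact hc0 (congrArg Subtype.val h0))).mp (hA P hP) ⟨_, h3⟩
      obtain ⟨t, ht⟩ := h4
      have h5 := congrArg Subtype.val ht
      have h6 : ∀ k, t * c k = eval P (l k) := fun k => congrFun h5 k
      rw [map_sub, map_mul, map_mul, eval_C, eval_C, ← h6 i, ← h6 j]
      ring
    exact sub_eq_zero.mp ((mul_eq_zero.mp h1).resolve_left (mul_ne_zero hφ (X_ne_zero _)))
  have hdvd : ∀ i, l j ∣ l i := by
    intro i
    refine ⟨C (c i * (c j)⁻¹), ?_⟩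
    have h1 : l i * C (c j) * C (c j)⁻¹ = l j * C (c i) * C (c j)⁻¹ := by rw [hprop i]
    rw [mul_assoc, ← C_mul, mul_inv_cancel₀ hj, C_1, mul_one] at h1
    rw [h1, C_mul]; ring
  have hunit : IsUnit (l j) := by
    by_contra hnu
    obtain ⟨δ, hδ, hδl⟩ := WfDvdMonoid.exists_irreducible_factor hnu (hfull j)
    obtain ⟨k, hk⟩ := hprim δ hδ
    exact hk (hδl.trans (hdvd k))
  obtain ⟨a, ha⟩ : ∃ a : ℂ, l j = C a := by
    have h1 := MvPolynomial.isUnit_iff_totalDegree_of_isReduced.mp hunit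
    exact ⟨_, totalDegree_eq_zero_iff_eq_C.mp h1.2⟩
  have hconst : ∀ i, ∃ a : ℂ, l i = C a := by
    intro i
    have h1 : l i * C (c j) * C (c j)⁻¹ = l j * C (c i) * C (c j)⁻¹ := by rw [hprop i]
    rw [mul_assoc, ← C_mul, mul_inv_cancel₀ hj, C_1, mul_one, ha, ← C_mul, ← C_mul] at h1
    exact ⟨_, h1⟩
  have hlin : ∀ k, lin g (z k) = 0 := by
    intro k
    obtain ⟨a, ha⟩ := hconst k
    have h1 := hstar k
    have h2 : DD (z k) (l k) = 0 := by rw [ha, inv_DD_C]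
    rw [h2, mul_zero] at h1
    exact (mul_eq_zero.mp h1.symm).resolve_right (hfull k)
  have hg0 : ∀ j, g j = 0 := by
    intro i
    rw [← aux_lin_single g i]
    have hmem : (Pi.single i (1 : ℂ) : Fin d → ℂ) ∈ Submodule.span ℂ (Set.range z) := by
      rw [hsp]; trivial
    refine Submodule.span_induction (p := fun x _ => lin g x = 0) ?_ ?_ ?_ ?_ hmem
    · rintro _ ⟨k, rfl⟩
      exact hlin k
    · rw [aux_lin_zero]
    · intro x y _ _ hx hy
      rw [aux_lin_add, hx, hy, add_zero]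
    · intro a x _ hx
      rw [aux_lin_smul, hx, mul_zero]
  simp only [hg0, zero_mul, Finset.sum_const_zero] at hg
  rcases mul_eq_zero.mp hg.symm with h1 | h1
  · have h2 := (C_injective (Fin d) ℂ) (h1.trans (map_zero C).symm)
    have h3 : (D + m + d - 2 : ℕ) = 0 := by exact_mod_cast h2
    omega
  · exact hQ h1

/-- **no three collinear points: contradiction** -/
theorem core_flat {N : ℕ} (hN : 1 ≤ N) {K : Type} [Fintype K] [DecidableEq K]
    (z : K → Fin (N + 2) → ℂ) (hsp : Submodule.span ℂ (Set.range z) = ⊤)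
    (h2 : ∀ i j, i ≠ j → LinearIndependent ℂ ![z i, z j])
    (h3 : ∀ i j k, i ≠ j → i ≠ k → j ≠ k → LinearIndependent ℂ ![z i, z j, z k])
    (hz : ∀ k, z k ≠ 0)
    (m : ℕ) (hm : 1 ≤ m) (φ : MvPolynomial (Fin (N + 2)) ℂ) (hφ : φ ≠ 0)
    (hA : ∀ P, eval P φ ≠ 0 → Module.finrank ℂ (relSpace z m P) = 1)
    (hB : ∀ P, eval P φ ≠ 0 → ∀ c ∈ relSpace z m P, c ≠ 0 → ∀ k, c k ≠ 0)
    (hC : ∀ P, eval P φ ≠ 0 → Module.finrank ℂ (relSpace z (m - 1) P) ≤ N + 1)
    (hcard : Fintype.card K ≤ (N + m).choose N) : False := by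
  classical
  obtain ⟨D, l, Q, g, hl0, hlD, hl, hprim, hQ, hg, hstar, hQprim, hind⟩ :=
    setup (by omega) z hsp m hm φ hφ hA hB hC
  obtain ⟨s, η, μ, hirr, -, -, hsum, -, hinv⟩ := exists_kappa' z D (D + m + (N + 2) - 2)
    (span_dual z hsp) l hl0 hlD Q hQ g hg hstar hQprim m hl hprim hind
  have hκ0 : (∏ i, lf (η i) ^ μ i) ≠ 0 :=
    Finset.prod_ne_zero_iff.mpr (fun i _ => pow_ne_zero _ (hirr i).ne_zero)
  have hκh : (∏ i, lf (η i) ^ μ i).IsHomogeneous (D + m + (N + 2) - 2) := by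
    rw [← hsum]
    exact IsHomogeneous.prod _ _ _ fun i _ => pow_homog _ _
  have : Nonempty K := by
    by_contra hne
    rw [not_nonempty_iff] at hne
    obtain ⟨b, hb⟩ := exists_basis_sub z hsp
    exact hne.false (b 0)
  have hdat : Dat z m D (D + m + (N + 2) - 2) l (∏ i, lf (η i) ^ μ i) :=
    ⟨hlD, hκh, hinv, hl, hind, by omega, h2, h3⟩
  exact hdat.false hN hz hκ0 hl0 hcard

end Pool.Agent.Y206.G
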