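import Pool.Agent.Y206.G.Claim
import Pool.Agent.Helper947.Geo.G5
import Pool.Agent.Helper947.Geo.G5a

set_option autoImplicit false
open MvPolynomial
open Pool.Agent.Helper947.Geo

namespace Pool.Agent.Y206.G

theorem order_point {d : ℕ} (z v : Fin d → ℂ) (l κ : MvPolynomial (Fin d) ℂ) (D E : ℕ)
    (hl : l.IsHomogeneous D) (hκ : κ.IsHomogeneous E)
    (h : κ * DD z l = l * DD z κ) (hvl : eval v l ≠ 0) (hvκ : eval v κ ≠ 0) :
    (ef ![z] v l).natTrailingDegree + E = (ef ![z] v κ).natTrailingDegree + D := by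
  have key : ef ![z] v l * (Polynomial.C (C (eval v κ)) * Polynomial.X ^ E) =
      ef ![z] v κ * (Polynomial.C (C (eval v l)) * Polynomial.X ^ D) := by
    ext1 i
    apply MvPolynomial.funext
    intro x
    have h1 : (ef ![z] v l * (Polynomial.C (C (eval v κ)) * Polynomial.X ^ E)).map (eval x) =
        (ef ![z] v κ * (Polynomial.C (C (eval v l)) * Polynomial.X ^ D)).map (eval x) := by
      simp only [Polynomial.map_mul, map_ef, Polynomial.map_C, Polynomial.map_pow,
        Polynomial.map_X, eval_C]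
      apply Polynomial.funext
      intro t
      simp only [Polynomial.eval_mul, eval_cur, Polynomial.eval_C, Polynomial.eval_pow,
        Polynomial.eval_X]
      have h2 := invariance z l κ h (t • v) (x 0)
      rw [rc_eval_smul l D hl, rc_eval_smul κ E hκ] at h2
      have e1 : ∑ j, x j • (![z] : Fin 1 → Fin d → ℂ) j + t • v = t • v + x 0 • z := by
        simp
        abel
      rw [e1]
      linear_combination h2
    have h2 := congrArg (fun s => Polynomial.coeff s i) h1
    simpa only [Polynomial.coeff_map] using h2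
  have h1 := congrArg Polynomial.natTrailingDegree key
  have hC : ∀ c : ℂ, c ≠ 0 → (Polynomial.C (C c) : Polynomial (MvPolynomial (Fin 1) ℂ)) ≠ 0 := by
    intro c hc h0
    rw [Polynomial.C_eq_zero] at h0
    exact hc ((C_injective (Fin 1) ℂ) (h0.trans (map_zero C).symm))
  have hX : ∀ n : ℕ, (Polynomial.X ^ n : Polynomial (MvPolynomial (Fin 1) ℂ)) ≠ 0 := fun n =>
    pow_ne_zero _ Polynomial.X_ne_zero
  rw [Polynomial.natTrailingDegree_mul (ef_ne _ v l hvl) (mul_ne_zero (hC _ hvκ) (hX E)),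
    Polynomial.natTrailingDegree_mul (ef_ne _ v κ hvκ) (mul_ne_zero (hC _ hvl) (hX D)),
    Polynomial.natTrailingDegree_mul_X_pow (hC _ hvκ),
    Polynomial.natTrailingDegree_mul_X_pow (hC _ hvl), Polynomial.natTrailingDegree_C,
    Polynomial.natTrailingDegree_C, zero_add, zero_add] at h1
  exact h1

/-- the power of a general form is a combination of the powers of the projected points -/
theorem Dat.power {d : ℕ} (hd : 3 ≤ d) {K : Type} [Fintype K] [DecidableEq K]
    {z : K → Fin d → ℂ} {m D E : ℕ}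
    {l : K → MvPolynomial (Fin d) ℂ} {κ : MvPolynomial (Fin d) ℂ} (h : Dat z m D E l κ)
    (k₀ : K) (hz₀ : z k₀ ≠ 0)
    (v : Fin d → ℂ) (hv : eval v κ ≠ 0) (hvl : ∀ k, eval v (l k) ≠ 0)
    (hvz : v ∉ Submodule.span ℂ {z k₀}) :
    ∃ c : K → ℂ, c k₀ = 0 ∧ ∀ η : Fin d → ℂ, z k₀ ⬝ᵥ η = 0 →
      (v ⬝ᵥ η) ^ m = ∑ k, c k * (z k ⬝ᵥ η) ^ m := by
  classical
  have : Nonempty K := ⟨k₀⟩
  set u : Fin 1 → Fin d → ℂ := ![z k₀] with hu
  have hrange : Set.range u = {z k₀} := by
    rw [hu]; simp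
  have hui : LinearIndependent ℂ u := by
    rw [Fintype.linearIndependent_iff]
    intro g hg i
    rw [hu] at hg
    simp at hg
    have hi : i = 0 := Subsingleton.elim _ _
    rw [hi]
    exact hg.resolve_right hz₀
  set β := (ef u v κ).natTrailingDegree with hβ
  set o := (ef u v (l k₀)).natTrailingDegree with ho
  have hord := order_point (z k₀) v (l k₀) κ D E (h.hlD k₀) h.hκE (h.hinv k₀) (hvl k₀) hv
  have hE := h.hE
  have hk : ∀ k, k ≠ k₀ → o + m ≤ (ef u v (l k)).natTrailingDegree := by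
    intro k hkk
    have hmem : z k ∉ Submodule.span ℂ (Set.range u) := by
      rw [hrange]
      intro hm
      obtain ⟨a, ha⟩ := Submodule.mem_span_singleton.mp hm
      have := LinearIndependent.pair_iff.mp (h.h2 k k₀ hkk) 1 (-a) (by
        rw [one_smul, neg_smul, ha, add_neg_cancel])
      exact one_ne_zero this.1
    have h1 := ef_order u v (z k) (l k) κ (h.hinv k) (hvl k) hv
    have h2 := h.claim v hv hvl (d - 2) 2 (by omega) le_rfl
      (Fin.snoc u (z k) : Fin 2 → Fin d → ℂ) (linearIndependent_finSnoc.mpr ⟨hui, hmem⟩) k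
    have h3 : (ef ![z k₀] v (l k₀)).natTrailingDegree + E =
        (ef ![z k₀] v κ).natTrailingDegree + D := hord
    rw [← hu, ← hβ, ← ho] at h3
    rw [← hβ] at h1
    omega
  -- the point
  have hp₀ : (ef u v (l k₀)).coeff o ≠ 0 :=
    Polynomial.coeff_natTrailingDegree_ne_zero.mpr (ef_ne u v _ (hvl k₀))
  obtain ⟨P, hP⟩ := g4_exists_ne ((ef u v (l k₀)).coeff o * X 0) (mul_ne_zero hp₀ (X_ne_zero _))
  rw [map_mul, eval_X] at hP
  have hP1 := left_ne_zero_of_mul hP
  have hP2 := right_ne_zero_of_mul hP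
  set x := P 0 with hx
  set a := eval P ((ef u v (l k₀)).coeff o) with ha
  have hli : LinearIndependent ℂ ![z k₀, v] := by
    rw [LinearIndependent.pair_iff]
    intro s t hst
    have ht : t = 0 := by
      by_contra ht
      apply hvz
      rw [Submodule.mem_span_singleton]
      refine ⟨-(t⁻¹ * s), ?_⟩
      have h1 : t • v = -(s • z k₀) := by
        rw [eq_neg_iff_add_eq_zero, add_comm]; exact hst
      have h2 : v = t⁻¹ • (t • v) := by rw [smul_smul, inv_mul_cancel₀ ht, one_smul]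
      rw [h2, h1, smul_neg, smul_smul, neg_smul]
    subst ht
    rw [zero_smul, add_zero] at hst
    exact ⟨(smul_eq_zero.mp hst).resolve_right hz₀, rfl⟩
  obtain ⟨θ, hθ⟩ := exists_coord ![z k₀, v] hli ![1, 0]
  have hθ1 : z k₀ ⬝ᵥ θ = 1 := hθ 0
  have hθ2 : v ⬝ᵥ θ = 0 := hθ 1
  have hPu : ∑ j, P j • u j = x • z k₀ := by simp [hu, hx]
  have hpt : ∀ t : ℂ, x • z k₀ + t • v ≠ 0 := by
    intro t h0
    have h1 := LinearIndependent.pair_iff.mp hli x t h0
    exact hP2 h1.1
  refine ⟨fun k => if k = k₀ then 0 else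
    -((a * (-1 / x) ^ m)⁻¹ * (cur (x • z k₀) v (l k)).coeff (o + m)), if_pos rfl, ?_⟩
  intro η hη
  have hA : a * (-1 / x) ^ m ≠ 0 :=
    mul_ne_zero hP1 (pow_ne_zero _ (div_ne_zero (neg_ne_zero.mpr one_ne_zero) hP2))
  -- the identity of polynomials in `t`
  have h1 : ∑ k, cur (x • z k₀) v (l k) * (Polynomial.C (z k ⬝ᵥ η) +
      Polynomial.C (-(v ⬝ᵥ η) / x * (z k ⬝ᵥ θ)) * Polynomial.X) ^ m = 0 := by
    apply Polynomial.funext
    intro t
    rw [Polynomial.eval_finsetSum, Polynomial.eval_zero]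
    simp only [Polynomial.eval_mul, eval_cur, Polynomial.eval_C, Polynomial.eval_pow,
      Polynomial.eval_add, Polynomial.eval_X]
    have h2 := h.hrel _ (hpt t) (η + (-(t * (v ⬝ᵥ η)) / x) • θ) (by
      simp only [add_dotProduct, dotProduct_add, smul_dotProduct, dotProduct_smul, hη, hθ1, hθ2,
        smul_eq_mul, mul_zero, add_zero, mul_one, zero_add]
      rw [div_mul_cancel₀ _ hP2]
      ring)
    rw [← h2]
    refine Finset.sum_congr rfl fun k _ => ?_
    rw [dotProduct_add, dotProduct_smul, smul_eq_mul]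
    congr 2
    ring
  have h2 := congrArg (fun s => Polynomial.coeff s (o + m)) h1
  simp only [Polynomial.finsetSum_coeff, Polynomial.coeff_zero] at h2
  rw [← Finset.add_sum_erase _ _ (Finset.mem_univ k₀)] at h2
  have h3 : (cur (x • z k₀) v (l k₀) * (Polynomial.C (z k₀ ⬝ᵥ η) +
      Polynomial.C (-(v ⬝ᵥ η) / x * (z k₀ ⬝ᵥ θ)) * Polynomial.X) ^ m).coeff (o + m) =
      a * (-1 / x) ^ m * (v ⬝ᵥ η) ^ m := by
    rw [hη, hθ1, mul_one, Polynomial.C_0, zero_add, mul_pow, ← Polynomial.C_pow, ← mul_assoc,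
      Polynomial.coeff_mul_X_pow, Polynomial.coeff_mul_C, ← hPu, ← eval_coeff_ef, ← ha]
    rw [mul_assoc, ← mul_pow]
    congr 2
    ring
  have h4 : ∀ k ∈ Finset.univ.erase k₀, (cur (x • z k₀) v (l k) * (Polynomial.C (z k ⬝ᵥ η) +
      Polynomial.C (-(v ⬝ᵥ η) / x * (z k ⬝ᵥ θ)) * Polynomial.X) ^ m).coeff (o + m) =
      (cur (x • z k₀) v (l k)).coeff (o + m) * (z k ⬝ᵥ η) ^ m := by
    intro k hkm
    have h5 := coeff_mul_low (cur (x • z k₀) v (l k)) ((Polynomial.C (z k ⬝ᵥ η) +
      Polynomial.C (-(v ⬝ᵥ η) / x * (z k ⬝ᵥ θ)) * Polynomial.X) ^ m) (o + m) 0 (by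
        intro i hi
        rw [← hPu, ← eval_coeff_ef, Polynomial.coeff_eq_zero_of_lt_natTrailingDegree
          (lt_of_lt_of_le hi (hk k (Finset.ne_of_mem_erase hkm))), map_zero]) (by
        intro i hi; omega)
    rw [add_zero] at h5
    rw [h5]
    congr 1
    rw [Polynomial.coeff_zero_eq_eval_zero]
    simp
  rw [h3, Finset.sum_congr rfl h4] at h2
  rw [← Finset.add_sum_erase _ _ (Finset.mem_univ k₀)]
  have h5 : ∑ k ∈ Finset.univ.erase k₀, (if k = k₀ then (0 : ℂ) else
      -((a * (-1 / x) ^ m)⁻¹ * (cur (x • z k₀) v (l k)).coeff (o + m))) * (z k ⬝ᵥ η) ^ m =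
      -((a * (-1 / x) ^ m)⁻¹ * ∑ k ∈ Finset.univ.erase k₀,
        (cur (x • z k₀) v (l k)).coeff (o + m) * (z k ⬝ᵥ η) ^ m) := by
    rw [Finset.mul_sum, ← Finset.sum_neg_distrib]
    refine Finset.sum_congr rfl fun k hkm => ?_
    rw [if_neg (Finset.ne_of_mem_erase hkm)]
    ring
  beta_reduce
  rw [if_pos rfl, zero_mul, zero_add, h5]
  have h6 : ∑ k ∈ Finset.univ.erase k₀, (cur (x • z k₀) v (l k)).coeff (o + m) *
      (z k ⬝ᵥ η) ^ m = -(a * (-1 / x) ^ m * (v ⬝ᵥ η) ^ m) := by
    linear_combination h2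
  rw [h6, mul_neg, neg_neg, ← mul_assoc, inv_mul_cancel₀ hA, one_mul]

/-- a form vanishing at few points -/
theorem exists_form {N m : ℕ} {K : Type} [Fintype K] (w : K → Fin (N + 1) → ℂ)
    (hK : Fintype.card K < (N + m).choose N) :
    ∃ g : MvPolynomial (Fin (N + 1)) ℂ, g ≠ 0 ∧ g.IsHomogeneous m ∧ ∀ k, eval (w k) g = 0 := by
  classical
  haveI := part_succ_fin (N + 1) m
  let T : homogeneousSubmodule (Fin (N + 1)) ℂ m →ₗ[ℂ] (K → ℂ) :=
    { toFun := fun g k => eval (w k) g.1
      map_add' := fun a b => by funext k; simp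
      map_smul' := fun c a => by funext k; simp [smul_eval] }
  have h1 : ¬ Function.Injective T := by
    intro hinj
    have h2 := LinearMap.finrank_le_finrank_of_injective hinj
    rw [finrank_forms, Module.finrank_fintype_fun_eq_card] at h2
    omega
  rw [← LinearMap.ker_eq_bot, Submodule.eq_bot_iff] at h1
  push Not at h1
  obtain ⟨g, hg1, hg2⟩ := h1
  refine ⟨g.1, fun h0 => hg2 (Subtype.ext h0), (mem_homogeneousSubmodule m g.1).mp g.2, fun k => ?_⟩
  exact congrFun (LinearMap.mem_ker.mp hg1) k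

/-- **the final contradiction** -/
theorem Dat.false {N : ℕ} (hN : 1 ≤ N) {K : Type} [Fintype K] [DecidableEq K] [Nonempty K]
    {z : K → Fin (N + 2) → ℂ} {m D E : ℕ}
    {l : K → MvPolynomial (Fin (N + 2)) ℂ} {κ : MvPolynomial (Fin (N + 2)) ℂ}
    (h : Dat z m D E l κ) (hz : ∀ k, z k ≠ 0) (hκ : κ ≠ 0) (hl : ∀ k, l k ≠ 0)
    (hcard : Fintype.card K ≤ (N + m).choose N) : False := by
  classical
  obtain ⟨k₀⟩ := (inferInstance : Nonempty K)
  obtain ⟨e, hei, heξ, -⟩ := exists_ker_basis (z k₀) (hz k₀)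
  -- a form vanishing at the projected points
  obtain ⟨g, hg0, hgm, hgv⟩ := exists_form (N := N) (m := m) (K := {k : K // k ≠ k₀})
    (fun k i => e i ⬝ᵥ z k.1) (by
      have h1 : Fintype.card {k : K // k ≠ k₀} = Fintype.card K - 1 := by
        rw [Fintype.card_subtype_compl, Fintype.card_subtype_eq]
      have h2 : 0 < Fintype.card K := Fintype.card_pos_iff.mpr ⟨k₀⟩
      omega)
  let G : MvPolynomial (Fin (N + 2)) ℂ := aeval (fun i => lf (e i)) g
  have hG : ∀ v, eval v G = eval (fun i => e i ⬝ᵥ v) g := by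
    intro v
    have h1 : (eval v).comp ((aeval (fun i => lf (e i)) :
        MvPolynomial (Fin (N + 1)) ℂ →ₐ[ℂ] MvPolynomial (Fin (N + 2)) ℂ) :
          MvPolynomial (Fin (N + 1)) ℂ →+* MvPolynomial (Fin (N + 2)) ℂ) =
        eval (fun i => e i ⬝ᵥ v) := by
      apply MvPolynomial.ringHom_ext
      · intro r; simp
      · intro i; simp [eval_lf]
    exact congrArg (fun s : MvPolynomial (Fin (N + 1)) ℂ →+* ℂ => s g) h1
  have he0 : lf (e 0) ≠ 0 := lf_ne (hei.ne_zero 0)
  have hzero : G * (κ * (∏ k, l k) * lf (e 0)) = 0 := by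
    apply MvPolynomial.funext
    intro v
    rw [map_zero]
    by_contra hne
    rw [map_mul] at hne
    have hv := right_ne_zero_of_mul hne
    have hGv := left_ne_zero_of_mul hne
    rw [map_mul, map_mul, map_prod, eval_lf] at hv
    have hvκ := left_ne_zero_of_mul (left_ne_zero_of_mul hv)
    have hvl := Finset.prod_ne_zero_iff.mp (right_ne_zero_of_mul (left_ne_zero_of_mul hv))
    have hve := right_ne_zero_of_mul hv
    have hvz : v ∉ Submodule.span ℂ {z k₀} := by
      intro hm
      obtain ⟨a, ha⟩ := Submodule.mem_span_singleton.mp hm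
      apply hve
      rw [← ha, dotProduct_smul, heξ 0, smul_zero]
    obtain ⟨c, hc0, hc⟩ := h.power (by omega) k₀ (hz k₀) v hvκ
      (fun k => hvl k (Finset.mem_univ k)) hvz
    -- polarize
    have hpol : (fun o : Option K => (Option.elim o (-1) c : ℂ)) ∈
        evRel (fun o : Option K => (Option.elim o (fun i => e i ⬝ᵥ v) fun k i => e i ⬝ᵥ z k :
          Fin (N + 1) → ℂ)) m := by
      apply polarize
      intro x
      have hdot : ∀ y : Fin (N + 2) → ℂ,
          (fun i => e i ⬝ᵥ y) ⬝ᵥ x = y ⬝ᵥ ∑ i, x i • e i := by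
        intro y
        rw [dotProduct_sum]
        simp only [dotProduct_smul, smul_eq_mul]
        simp only [dotProduct]
        refine Finset.sum_congr rfl fun i _ => ?_
        rw [mul_comm]
        congr 1
        exact Finset.sum_congr rfl fun j _ => mul_comm _ _
      rw [Fintype.sum_option]
      simp only [Option.elim_none, Option.elim_some, hdot]
      have h1 := hc (∑ i, x i • e i) (by
        rw [dotProduct_sum]
        refine Finset.sum_eq_zero fun i _ => ?_
        rw [dotProduct_smul, dotProduct_comm, heξ i, smul_zero])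
      rw [← h1]
      ring
    have h1 := hpol g hgm
    rw [Fintype.sum_option] at h1
    simp only [Option.elim_none, Option.elim_some] at h1
    have h2 : ∑ k, c k * eval (fun i => e i ⬝ᵥ z k) g = 0 := by
      refine Finset.sum_eq_zero fun k _ => ?_
      by_cases hk : k = k₀
      · rw [hk, hc0, zero_mul]
      · rw [hgv ⟨k, hk⟩, mul_zero]
    rw [h2, add_zero] at h1
    apply hGv
    rw [hG]
    linear_combination -h1
  have hG0 : G = 0 := (mul_eq_zero.mp hzero).resolve_right
    (mul_ne_zero (mul_ne_zero hκ (Finset.prod_ne_zero_iff.mpr fun k _ => hl k)) he0)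
  apply hg0
  apply MvPolynomial.funext
  intro x
  obtain ⟨v, hv⟩ := exists_coord e hei x
  have h1 := hG v
  rw [hG0, map_zero] at h1
  rw [map_zero, h1]
  congr 2
  funext i
  exact (hv i).symm

end Pool.Agent.Y206.G
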