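import Pool.Agent.Y206.G.Base

set_option autoImplicit false
open MvPolynomial
open Pool.Agent.Helper947.Geo

namespace Pool.Agent.Y206.G

/-- bihomogeneity of a polynomial -/
def SHf {f : ℕ} (p : Polynomial (MvPolynomial (Fin f) ℂ)) (D : ℕ) : Prop :=
  ∀ m, (m ≤ D → (p.coeff m).IsHomogeneous (D - m)) ∧ (D < m → p.coeff m = 0)

theorem SHf.zero {f : ℕ} (D : ℕ) : SHf (0 : Polynomial (MvPolynomial (Fin f) ℂ)) D := by
  intro m
  refine ⟨fun _ => ?_, fun _ => ?_⟩
  · rw [Polynomial.coeff_zero]; exact isHomogeneous_zero _ _ _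
  · rw [Polynomial.coeff_zero]

theorem SHf.add {f : ℕ} {p q : Polynomial (MvPolynomial (Fin f) ℂ)} {D : ℕ} (hp : SHf p D)
    (hq : SHf q D) : SHf (p + q) D := by
  intro m
  refine ⟨fun h => ?_, fun h => ?_⟩
  · rw [Polynomial.coeff_add]; exact ((hp m).1 h).add ((hq m).1 h)
  · rw [Polynomial.coeff_add, (hp m).2 h, (hq m).2 h, add_zero]

theorem SHf.mul {f : ℕ} {p q : Polynomial (MvPolynomial (Fin f) ℂ)} {D E : ℕ} (hp : SHf p D)
    (hq : SHf q E) : SHf (p * q) (D + E) := by
  intro m
  rw [Polynomial.coeff_mul]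
  refine ⟨fun h => ?_, fun h => ?_⟩
  · refine IsHomogeneous.sum _ _ _ (fun x hx => ?_)
    have hx' := Finset.HasAntidiagonal.mem_antidiagonal.mp hx
    by_cases h1 : x.1 ≤ D
    · by_cases h2 : x.2 ≤ E
      · have e : D + E - m = (D - x.1) + (E - x.2) := by omega
        rw [e]
        exact ((hp _).1 h1).mul ((hq _).1 h2)
      · rw [(hq _).2 (by omega), mul_zero]; exact isHomogeneous_zero _ _ _
    · rw [(hp _).2 (by omega), zero_mul]; exact isHomogeneous_zero _ _ _
  · refine Finset.sum_eq_zero (fun x hx => ?_)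
    have hx' := Finset.HasAntidiagonal.mem_antidiagonal.mp hx
    by_cases h1 : x.1 ≤ D
    · rw [(hq _).2 (by omega), mul_zero]
    · rw [(hp _).2 (by omega), zero_mul]

theorem SHf.C {f : ℕ} (c : ℂ) :
    SHf (Polynomial.C (MvPolynomial.C c) : Polynomial (MvPolynomial (Fin f) ℂ)) 0 := by
  intro m
  refine ⟨fun h => ?_, fun h => ?_⟩
  · have : m = 0 := by omega
    subst this
    rw [Polynomial.coeff_C_zero]
    exact isHomogeneous_C _ _
  · rw [Polynomial.coeff_C_ne_zero (by omega)]

theorem SHf.pow {f : ℕ} {p : Polynomial (MvPolynomial (Fin f) ℂ)} {D : ℕ} (hp : SHf p D) (n : ℕ) :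
    SHf (p ^ n) (n * D) := by
  induction n with
  | zero =>
    rw [pow_zero, zero_mul]
    have h := SHf.C (f := f) 1
    rwa [map_one, map_one] at h
  | succ n ih =>
    rw [pow_succ, Nat.succ_mul]
    exact ih.mul hp

theorem SHf.prod {f : ℕ} {ι : Type} (s : Finset ι) (p : ι → Polynomial (MvPolynomial (Fin f) ℂ))
    (D : ι → ℕ) (hp : ∀ i ∈ s, SHf (p i) (D i)) : SHf (∏ i ∈ s, p i) (∑ i ∈ s, D i) := by
  classical
  induction s using Finset.induction_on with
  | empty =>
    rw [Finset.prod_empty, Finset.sum_empty]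
    have h := SHf.C (f := f) 1
    rwa [map_one, map_one] at h
  | insert a s ha ih =>
    rw [Finset.prod_insert ha, Finset.sum_insert ha]
    exact (hp a (Finset.mem_insert_self _ _)).mul
      (ih (fun i hi => hp i (Finset.mem_insert_of_mem hi)))

theorem SHf.sum {f : ℕ} {ι : Type} (s : Finset ι) (p : ι → Polynomial (MvPolynomial (Fin f) ℂ))
    (D : ℕ) (hp : ∀ i ∈ s, SHf (p i) D) : SHf (∑ i ∈ s, p i) D := by
  classical
  induction s using Finset.induction_on with
  | empty =>
    rw [Finset.sum_empty]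
    exact SHf.zero D
  | insert a s ha ih =>
    rw [Finset.sum_insert ha]
    exact (hp a (Finset.mem_insert_self _ _)).add
      (ih (fun i hi => hp i (Finset.mem_insert_of_mem hi)))

/-- restriction to the family of curves `t ↦ ∑ x j • u j + t v` -/
noncomputable def ef {d f : ℕ} (u : Fin f → Fin d → ℂ) (v : Fin d → ℂ) :
    MvPolynomial (Fin d) ℂ →ₐ[ℂ] Polynomial (MvPolynomial (Fin f) ℂ) :=
  aeval (fun i => Polynomial.C (∑ j, C (u j i) * X j) + Polynomial.C (C (v i)) * Polynomial.X)

theorem ef_C {d f : ℕ} (u : Fin f → Fin d → ℂ) (v : Fin d → ℂ) (c : ℂ) :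
    ef u v (C c) = Polynomial.C (C c) := by
  rw [ef, MvPolynomial.aeval_C]; rfl

theorem map_ef {d f : ℕ} (u : Fin f → Fin d → ℂ) (v : Fin d → ℂ) (g : MvPolynomial (Fin d) ℂ)
    (x : Fin f → ℂ) : (ef u v g).map (eval x) = cur (∑ j, x j • u j) v g := by
  have h : (Polynomial.mapRingHom (eval x)).comp
      (ef u v : MvPolynomial (Fin d) ℂ →+* Polynomial (MvPolynomial (Fin f) ℂ))
      = (cur (∑ j, x j • u j) v : MvPolynomial (Fin d) ℂ →+* Polynomial ℂ) := by
    apply MvPolynomial.ringHom_ext
    · intro r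
      simp [cur, ef]
    · intro i
      have e1 : (cur (∑ j, x j • u j) v) (X i) = Polynomial.C (∑ j, x j * u j i) +
          Polynomial.C (v i) * Polynomial.X := by
        rw [cur, MvPolynomial.aeval_X]
        simp only [Finset.sum_apply, Pi.smul_apply, smul_eq_mul]
      have e2 : ef u v (X i) = Polynomial.C (∑ j, MvPolynomial.C (u j i) * X j) +
          Polynomial.C (MvPolynomial.C (v i)) * Polynomial.X := by
        rw [ef, MvPolynomial.aeval_X]
      show Polynomial.map (eval x) (ef u v (X i)) = cur (∑ j, x j • u j) v (X i)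
      rw [e1, e2, Polynomial.map_add, Polynomial.map_mul, Polynomial.map_C, Polynomial.map_C,
        Polynomial.map_X, eval_C]
      congr 2
      rw [map_sum]
      exact Finset.sum_congr rfl fun j _ => by rw [map_mul, eval_C, eval_X, mul_comm]
  have := congrArg (fun s : MvPolynomial (Fin d) ℂ →+* Polynomial ℂ => s g) h
  simpa using this

theorem SHf.efX {d f : ℕ} (u : Fin f → Fin d → ℂ) (v : Fin d → ℂ) (i : Fin d) :
    SHf (ef u v (X i)) 1 := by
  have h1 : ef u v (X i) = Polynomial.C (∑ j, MvPolynomial.C (u j i) * X j) +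
      Polynomial.C (MvPolynomial.C (v i)) * Polynomial.X := by
    rw [ef, MvPolynomial.aeval_X]
  rw [h1]
  intro m
  rcases m with _ | _ | m
  · refine ⟨fun _ => ?_, fun h => absurd h (by omega)⟩
    have e : (Polynomial.C (∑ j, MvPolynomial.C (u j i) * X j) +
      Polynomial.C (MvPolynomial.C (v i)) * Polynomial.X :
        Polynomial (MvPolynomial (Fin f) ℂ)).coeff 0 = ∑ j, MvPolynomial.C (u j i) * X j := by
      simp
    rw [e]
    exact IsHomogeneous.sum _ _ _ fun j _ => (isHomogeneous_X ℂ j).C_mul _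
  · refine ⟨fun _ => ?_, fun h => absurd h (by omega)⟩
    have e : (Polynomial.C (∑ j, MvPolynomial.C (u j i) * X j) +
      Polynomial.C (MvPolynomial.C (v i)) * Polynomial.X :
        Polynomial (MvPolynomial (Fin f) ℂ)).coeff (0 + 1) = MvPolynomial.C (v i) := by
      rw [Polynomial.coeff_add, Polynomial.coeff_C_mul, Polynomial.coeff_C_ne_zero (by omega)]
      simp
    rw [e]
    exact isHomogeneous_C _ _
  · refine ⟨fun h => absurd h (by omega), fun _ => ?_⟩
    rw [Polynomial.coeff_add, Polynomial.coeff_C_mul, Polynomial.coeff_C_ne_zero (by omega),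
      Polynomial.coeff_X_of_ne_one (by omega), mul_zero, add_zero]

/-- coefficients of the restriction are homogeneous -/
theorem ef_hom {d f : ℕ} (u : Fin f → Fin d → ℂ) (v : Fin d → ℂ) (g : MvPolynomial (Fin d) ℂ)
    (D : ℕ) (hg : g.IsHomogeneous D) : SHf (ef u v g) D := by
  rw [← g.support_sum_monomial_coeff, map_sum]
  refine SHf.sum _ _ _ (fun e he => ?_)
  have hdeg : ∑ i, e i * 1 = D := by
    have h1 := hg (mem_support_iff.mp he)
    rw [Finsupp.weight_apply, Finsupp.sum_fintype] at h1
    · simpa using h1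
    · intro i; simp
  rw [monomial_eq, map_mul, ef_C, Finsupp.prod_fintype _ _ (fun i => pow_zero _), map_prod,
    ← hdeg, ← zero_add (∑ i, e i * 1)]
  refine (SHf.C _).mul (SHf.prod _ _ _ (fun i _ => ?_))
  rw [map_pow]
  exact (SHf.efX u v i).pow (e i)

theorem eval_coeff_ef {d f : ℕ} (u : Fin f → Fin d → ℂ) (v : Fin d → ℂ)
    (g : MvPolynomial (Fin d) ℂ) (x : Fin f → ℂ) (i : ℕ) :
    eval x ((ef u v g).coeff i) = (cur (∑ j, x j • u j) v g).coeff i := by
  rw [← map_ef, Polynomial.coeff_map]

theorem ef_coeff_zero {d f : ℕ} (u : Fin f → Fin d → ℂ) (v : Fin d → ℂ)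
    (g : MvPolynomial (Fin d) ℂ) : (ef u v g).coeff 0 = sub u g := by
  apply MvPolynomial.funext
  intro x
  rw [eval_coeff_ef, Polynomial.coeff_zero_eq_eval_zero, eval_cur, eval_sub, zero_smul, add_zero]

theorem ef_ne {d f : ℕ} (u : Fin f → Fin d → ℂ) (v : Fin d → ℂ)
    (g : MvPolynomial (Fin d) ℂ) (hg : eval v g ≠ 0) : ef u v g ≠ 0 := by
  intro h0
  have h1 := map_ef u v g 0
  rw [h0, Polynomial.map_zero] at h1
  have h2 := congrArg (Polynomial.eval 1) h1
  rw [eval_cur] at h2
  simp at h2
  exact hg h2.symm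

theorem coeff_mul_low {R : Type} [CommSemiring R] (A B : Polynomial R) (α β : ℕ)
    (hA : ∀ i < α, A.coeff i = 0) (hB : ∀ i < β, B.coeff i = 0) :
    (A * B).coeff (α + β) = A.coeff α * B.coeff β := by
  rw [Polynomial.coeff_mul, Finset.sum_eq_single (α, β)]
  · rintro ⟨i, j⟩ hij hne
    have h1 : i + j = α + β := by simpa using hij
    simp only
    rcases lt_trichotomy i α with h2 | h2 | h2
    · rw [hA i h2, zero_mul]
    · exfalso
      apply hne
      subst h2
      have : j = β := by omega
      rw [this]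
    · rw [hB j (by omega), mul_zero]
  · intro h
    exact absurd (by simp) h

/-- the invariance of the trailing coefficients -/
theorem ef_inv {d f : ℕ} (u : Fin f → Fin d → ℂ) (v : Fin d → ℂ) (l κ : MvPolynomial (Fin d) ℂ)
    (y : Fin f → ℂ) (h : κ * DD (∑ j, y j • u j) l = l * DD (∑ j, y j • u j) κ) (α β : ℕ)
    (hα : ∀ i < α, (ef u v l).coeff i = 0) (hβ : ∀ i < β, (ef u v κ).coeff i = 0) :
    (ef u v κ).coeff β * DD y ((ef u v l).coeff α) =
      (ef u v l).coeff α * DD y ((ef u v κ).coeff β) := by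
  apply MvPolynomial.funext
  intro x
  have key : ∀ r : ℂ, eval (x + r • y) ((ef u v l).coeff α) * eval x ((ef u v κ).coeff β) =
      eval x ((ef u v l).coeff α) * eval (x + r • y) ((ef u v κ).coeff β) := by
    intro r
    have e1 : ∑ j, (x + r • y) j • u j = ∑ j, x j • u j + r • ∑ j, y j • u j := by
      rw [Finset.smul_sum, ← Finset.sum_add_distrib]
      refine Finset.sum_congr rfl fun j _ => ?_
      rw [Pi.add_apply, Pi.smul_apply, add_smul, smul_smul, smul_eq_mul]
    have h1 : cur (∑ j, (x + r • y) j • u j) v l * cur (∑ j, x j • u j) v κ =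
        cur (∑ j, x j • u j) v l * cur (∑ j, (x + r • y) j • u j) v κ := by
      apply Polynomial.funext
      intro t
      rw [Polynomial.eval_mul, Polynomial.eval_mul, eval_cur, eval_cur, eval_cur, eval_cur, e1]
      have h2 := invariance (∑ j, y j • u j) l κ h (∑ j, x j • u j + t • v) r
      have e2 : ∑ j, x j • u j + r • ∑ j, y j • u j + t • v =
        ∑ j, x j • u j + t • v + r • ∑ j, y j • u j := by abel
      rw [e2]
      exact h2
    have low : ∀ (w : Fin f → ℂ) (g : MvPolynomial (Fin d) ℂ) (n : ℕ),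
        (∀ i < n, (ef u v g).coeff i = 0) → ∀ i < n, (cur (∑ j, w j • u j) v g).coeff i = 0 := by
      intro w g n hn i hi
      rw [← eval_coeff_ef, hn i hi, map_zero]
    have h3 : (cur (∑ j, (x + r • y) j • u j) v l * cur (∑ j, x j • u j) v κ).coeff (α + β) =
        (cur (∑ j, x j • u j) v l * cur (∑ j, (x + r • y) j • u j) v κ).coeff (α + β) := by
      rw [h1]
    rw [coeff_mul_low _ _ α β (low _ _ _ hα) (low _ _ _ hβ),
      coeff_mul_low _ _ α β (low _ _ _ hα) (low _ _ _ hβ), ← eval_coeff_ef, ← eval_coeff_ef,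
      ← eval_coeff_ef, ← eval_coeff_ef] at h3
    exact h3
  set p := (ef u v l).coeff α
  set q := (ef u v κ).coeff β
  have h1 : cur x y p * Polynomial.C (eval x q) = Polynomial.C (eval x p) * cur x y q := by
    apply Polynomial.funext
    intro r
    rw [Polynomial.eval_mul, Polynomial.eval_mul, eval_cur, eval_cur, Polynomial.eval_C,
      Polynomial.eval_C]
    exact key r
  have h2 := congrArg (fun s => (Polynomial.derivative s).eval 0) h1
  simp only [Polynomial.derivative_mul, Polynomial.derivative_C, mul_zero, add_zero, zero_mul,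
    zero_add, Polynomial.eval_mul, inv_der, eval_cur, Polynomial.eval_C, zero_smul] at h2
  rw [map_mul, map_mul]
  linear_combination h2

theorem natTrailing_map {R S : Type} [CommRing R] [CommRing S] (φ : R →+* S)
    (hφ : Function.Injective φ) (p : Polynomial R) :
    (p.map φ).natTrailingDegree = p.natTrailingDegree := by
  by_cases hp : p = 0
  · rw [hp, Polynomial.map_zero, Polynomial.natTrailingDegree_zero,
      Polynomial.natTrailingDegree_zero]
  · have hp' : p.map φ ≠ 0 := by
      intro h0
      exact hp (Polynomial.map_injective φ hφ (by rw [h0, Polynomial.map_zero]))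
    apply le_antisymm
    · apply Polynomial.natTrailingDegree_le_of_ne_zero
      rw [Polynomial.coeff_map]
      intro h0
      have h1 := hφ (h0.trans (map_zero φ).symm)
      exact Polynomial.coeff_natTrailingDegree_ne_zero.mpr hp h1
    · apply Polynomial.le_natTrailingDegree hp'
      intro i hi
      rw [Polynomial.coeff_map, Polynomial.coeff_eq_zero_of_lt_natTrailingDegree hi, map_zero]

/-- orders along a flat and along the span of the flat and a point -/
theorem ef_order {d f : ℕ} (u : Fin f → Fin d → ℂ) (v z : Fin d → ℂ)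
    (l κ : MvPolynomial (Fin d) ℂ) (h : κ * DD z l = l * DD z κ) (hl : eval v l ≠ 0)
    (hκ : eval v κ ≠ 0) :
    (ef (Fin.snoc u z : Fin (f + 1) → Fin d → ℂ) v l).natTrailingDegree +
      (ef u v κ).natTrailingDegree =
    (ef u v l).natTrailingDegree +
      (ef (Fin.snoc u z : Fin (f + 1) → Fin d → ℂ) v κ).natTrailingDegree := by
  set u' : Fin (f + 1) → Fin d → ℂ := Fin.snoc u z with hu'
  let φ : MvPolynomial (Fin f) ℂ →+* MvPolynomial (Fin (f + 1)) ℂ :=
    (rename (Fin.castSucc : Fin f → Fin (f + 1)) :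
      MvPolynomial (Fin f) ℂ →ₐ[ℂ] MvPolynomial (Fin (f + 1)) ℂ)
  have hφ : Function.Injective φ := rename_injective _ (Fin.castSucc_injective f)
  have hev : ∀ (x : Fin (f + 1) → ℂ) (s : MvPolynomial (Fin f) ℂ),
      eval x (φ s) = eval (fun i => x i.castSucc) s := by
    intro x s
    show eval x (rename Fin.castSucc s) = _
    rw [eval_rename]
    rfl
  have key : ef u' v l * (ef u v κ).map φ = (ef u v l).map φ * ef u' v κ := by
    ext1 i
    apply MvPolynomial.funext
    intro x
    have hm : ∀ g : MvPolynomial (Fin d) ℂ, ((ef u v g).map φ).map (eval x) =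
        cur (∑ j : Fin f, x j.castSucc • u j) v g := by
      intro g
      rw [Polynomial.map_map]
      have : (eval x).comp φ = eval (fun i : Fin f => x i.castSucc) := by
        apply RingHom.ext
        intro s
        exact hev x s
      rw [this, map_ef]
    have h1 : (ef u' v l * (ef u v κ).map φ).map (eval x) =
        ((ef u v l).map φ * ef u' v κ).map (eval x) := by
      rw [Polynomial.map_mul, Polynomial.map_mul, hm, hm, map_ef, map_ef]
      apply Polynomial.funext
      intro t
      rw [Polynomial.eval_mul, Polynomial.eval_mul, eval_cur, eval_cur, eval_cur, eval_cur]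
      have e1 : ∑ j, x j • u' j + t • v =
          (∑ j : Fin f, x j.castSucc • u j + t • v) + x (Fin.last f) • z := by
        rw [Fin.sum_univ_castSucc, hu']
        simp only [Fin.snoc_castSucc, Fin.snoc_last]
        abel
      rw [e1]
      exact invariance z l κ h _ _
    have h2 := congrArg (fun s => Polynomial.coeff s i) h1
    simpa only [Polynomial.coeff_map] using h2
  have h1 := congrArg Polynomial.natTrailingDegree key
  have hne : ∀ g : MvPolynomial (Fin d) ℂ, eval v g ≠ 0 → (ef u v g).map φ ≠ 0 := by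
    intro g hg h0
    exact ef_ne u v g hg (Polynomial.map_injective φ hφ (by rw [h0, Polynomial.map_zero]))
  rw [Polynomial.natTrailingDegree_mul (ef_ne u' v l hl) (hne κ hκ),
    Polynomial.natTrailingDegree_mul (hne l hl) (ef_ne u' v κ hκ), natTrailing_map φ hφ,
    natTrailing_map φ hφ] at h1
  exact h1

end Pool.Agent.Y206.G
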