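import Pool.Agent.Helper947.Geo.G5
import Pool.Agent.Helper947.Geo.G5a
import Pool.Agent.Helper947.Geo.G6
import Pool.Agent.H503R3.QCI.Hilb

set_option autoImplicit false
open MvPolynomial
open Pool.Agent.Helper947.Geo
open H503R3.QCI (Homog comp_mul comp_mul_of_lt)

namespace Pool.Agent.Y206.G

/-- the socle of `R/J` is one-dimensional, generated by a form of degree `σ` -/
def Soc1 {n : ℕ} (J : Ideal (MvPolynomial (Fin n) ℂ)) (σ : ℕ) : Prop :=
  ∃ s : MvPolynomial (Fin n) ℂ, s.IsHomogeneous σ ∧ s ∉ J ∧ (∀ i, X i * s ∈ J) ∧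
    ∀ F : MvPolynomial (Fin n) ℂ, (∀ i, X i * F ∈ J) → ∃ c : ℂ, F - C c * s ∈ J

variable {N : ℕ} {K : Type} [Fintype K] {w : K → Fin N → ℂ}
  {I : Ideal (MvPolynomial (Fin N) ℂ)} {h : MvPolynomial (Fin N) ℂ}

theorem van_of_homog (hI : IsVan w I) {F : MvPolynomial (Fin N) ℂ} {j : ℕ}
    (hF : F.IsHomogeneous j) (h0 : ∀ k, eval (w k) F = 0) : F ∈ I := by
  rw [hI]
  intro k t
  rw [rc_eval_smul F j hF, h0 k, mul_zero]

theorem van_eval (hI : IsVan w I) {F : MvPolynomial (Fin N) ℂ} (hF : F ∈ I) (k : K) :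
    eval (w k) F = 0 := by
  have := (hI F).mp hF k 1
  rwa [one_smul] at this

theorem van_homog (hI : IsVan w I) : Homog I := by
  intro f hf j
  apply van_of_homog hI (homogeneousComponent_isHomogeneous j f)
  intro k
  have key : ∑ e ∈ Finset.range (f.totalDegree + 1),
      Polynomial.C (eval (w k) (homogeneousComponent e f)) * Polynomial.X ^ e = 0 := by
    apply Polynomial.funext
    intro t
    rw [Polynomial.eval_finsetSum, Polynomial.eval_zero]
    have h1 := (hI f).mp hf k t
    rw [← sum_homogeneousComponent f, map_sum] at h1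
    rw [← h1]
    refine Finset.sum_congr rfl fun e _ => ?_
    rw [rc_eval_smul _ e (homogeneousComponent_isHomogeneous e f), Polynomial.eval_mul,
      Polynomial.eval_C, Polynomial.eval_pow, Polynomial.eval_X, mul_comm]
  by_cases hj : j < f.totalDegree + 1
  · have h1 := congrArg (fun s => Polynomial.coeff s j) key
    simp only [Polynomial.finsetSum_coeff, Polynomial.coeff_C_mul_X_pow,
      Polynomial.coeff_zero] at h1
    rw [Finset.sum_ite_eq, if_pos (Finset.mem_range.mpr hj)] at h1
    exact h1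
  · rw [homogeneousComponent_eq_zero j f (by omega), map_zero]

theorem J_homog (hI : IsVan w I) (hh : h.IsHomogeneous 1) : Homog (I ⊔ Ideal.span {h}) := by
  intro f hf j
  obtain ⟨a, ha, c, hc, rfl⟩ := Submodule.mem_sup.mp hf
  obtain ⟨b, rfl⟩ := Ideal.mem_span_singleton'.mp hc
  rw [map_add]
  refine Ideal.add_mem _ (Ideal.mem_sup_left (van_homog hI a ha j)) ?_
  rw [mul_comm b h]
  rcases j with _ | j
  · rw [comp_mul_of_lt hh (by omega)]
    exact Ideal.zero_mem _
  · rw [add_comm j 1, comp_mul hh]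
    exact Ideal.mem_sup_right (Ideal.mul_mem_right _ _ (Ideal.mem_span_singleton_self h))

theorem J_iff (hI : IsVan w I) (hh : h.IsHomogeneous 1) {F : MvPolynomial (Fin N) ℂ} {j : ℕ}
    (hF : F.IsHomogeneous (j + 1)) : F ∈ I ⊔ Ideal.span {h} ↔
      ∃ G : MvPolynomial (Fin N) ℂ, G.IsHomogeneous j ∧
        ∀ k, eval (w k) F = eval (w k) h * eval (w k) G := by
  constructor
  · intro hm
    obtain ⟨a, ha, c, hc, hac⟩ := Submodule.mem_sup.mp hm
    obtain ⟨b, rfl⟩ := Ideal.mem_span_singleton'.mp hc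
    refine ⟨homogeneousComponent j b, homogeneousComponent_isHomogeneous _ _, fun k => ?_⟩
    have h1 : homogeneousComponent (1 + j) F = F := by
      rw [add_comm 1 j, homogeneousComponent_of_mem hF, if_pos rfl]
    rw [← hac, map_add, mul_comm b h, comp_mul hh] at h1
    have h2 := congrArg (eval (w k)) h1
    rw [map_add, map_mul, van_eval hI (van_homog hI a ha _), zero_add] at h2
    rw [h2, ← hac, mul_comm b h]
  · rintro ⟨G, hG, hFG⟩
    have h1 : F - h * G ∈ I := by
      apply van_of_homog (j := j + 1) hI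
      · have h2 := hh.mul hG
        rw [add_comm 1 j] at h2
        exact hF.sub h2
      · intro k
        rw [map_sub, map_mul, hFG k, sub_self]
    have h2 : F = (F - h * G) + h * G := by ring
    rw [h2]
    exact Ideal.add_mem _ (Ideal.mem_sup_left h1)
      (Ideal.mem_sup_right (Ideal.mul_mem_right _ _ (Ideal.mem_span_singleton_self h)))

theorem J_zero (hI : IsVan w I) (hh : h.IsHomogeneous 1) {F : MvPolynomial (Fin N) ℂ}
    (hF : F.IsHomogeneous 0) (hm : F ∈ I ⊔ Ideal.span {h}) (k : K) : eval (w k) F = 0 := by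
  obtain ⟨a, ha, c, hc, hac⟩ := Submodule.mem_sup.mp hm
  obtain ⟨b, rfl⟩ := Ideal.mem_span_singleton'.mp hc
  have h1 : homogeneousComponent 0 F = F := by
    rw [homogeneousComponent_of_mem hF, if_pos rfl]
  rw [← hac, map_add, mul_comm b h, comp_mul_of_lt hh (by omega), add_zero] at h1
  rw [← hac, mul_comm b h, ← h1]
  exact van_eval hI (van_homog hI a ha _) k

/-- duality: a vector orthogonal to all relations is the vector of values of a form -/
theorem mem_values (j : ℕ) (v : K → ℂ) (hv : ∀ c ∈ evRel w j, ∑ k, c k * v k = 0) :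
    ∃ F : MvPolynomial (Fin N) ℂ, F.IsHomogeneous j ∧ ∀ k, eval (w k) F = v k := by
  classical
  let T : homogeneousSubmodule (Fin N) ℂ j →ₗ[ℂ] (K → ℂ) :=
    { toFun := fun g k => eval (w k) g.1
      map_add' := fun a b => by funext k; simp
      map_smul' := fun c a => by funext k; simp [smul_eval] }
  have hmem : v ∈ LinearMap.range T := by
    by_contra hnot
    obtain ⟨f, hf1, hf2⟩ := Submodule.exists_dual_map_eq_bot_of_notMem hnot inferInstance
    have hf : ∀ y : K → ℂ, ∑ k, f (Pi.single k 1) * y k = f y := by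
      intro y
      have hy : y = ∑ k, y k • (Pi.single k (1 : ℂ) : K → ℂ) := by
        funext j
        simp [Finset.sum_apply, Pi.single_apply]
      conv_rhs => rw [hy]
      rw [map_sum]
      refine Finset.sum_congr rfl fun k _ => ?_
      rw [map_smul, smul_eq_mul, mul_comm]
    apply hf1
    rw [← hf]
    apply hv
    intro F hF
    rw [hf]
    have h1 : f (T ⟨F, (mem_homogeneousSubmodule j F).mpr hF⟩) ∈ (LinearMap.range T).map f :=
      Submodule.mem_map_of_mem (LinearMap.mem_range_self _ _)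
    rw [hf2] at h1
    exact (Submodule.mem_bot ℂ).mp h1
  obtain ⟨g, hg⟩ := hmem
  exact ⟨g.1, (mem_homogeneousSubmodule j g.1).mp g.2, fun k => congrFun hg k⟩

/-- the hypotheses on a set of points of a projective space: its Artinian reduction by `h` has a
one-dimensional socle -/
structure GorSet (w : K → Fin N → ℂ) (σ : ℕ) (I : Ideal (MvPolynomial (Fin N) ℂ))
    (h : MvPolynomial (Fin N) ℂ) : Prop where
  hI : IsVan w I
  hh : h.IsHomogeneous 1
  hne : ∀ k, eval (w k) h ≠ 0
  hsoc : Soc1 (I ⊔ Ideal.span {h}) σ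
  hw : ∀ k l, k ≠ l → LinearIndependent ℂ ![w k, w l]
  h0 : ∀ k, w k ≠ 0

variable {σ : ℕ}

/-- elements of degree different from `σ` killed by all variables are zero -/
theorem GorSet.soc (g : GorSet w σ I h) {j : ℕ} (hj : j ≠ σ) {F : MvPolynomial (Fin N) ℂ}
    (hF : F.IsHomogeneous j) (hX : ∀ i, X i * F ∈ I ⊔ Ideal.span {h}) :
    F ∈ I ⊔ Ideal.span {h} := by
  obtain ⟨s, hs, -, -, hall⟩ := g.hsoc
  obtain ⟨c, hc⟩ := hall F hX
  have h1 := J_homog g.hI g.hh _ hc j
  rw [map_sub, homogeneousComponent_of_mem hF, if_pos rfl,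
    homogeneousComponent_of_mem (hs.C_mul c), if_neg hj, sub_zero] at h1
  exact h1

/-- everything vanishes in degrees larger than `σ` -/
theorem GorSet.top (g : GorSet w σ I h) (r : ℕ) : ∀ j, σ < j → Fintype.card K < j + r →
    ∀ F : MvPolynomial (Fin N) ℂ, F.IsHomogeneous j → F ∈ I ⊔ Ideal.span {h} := by
  classical
  induction r with
  | zero =>
    intro j hj hK F hF
    obtain ⟨e, rfl⟩ : ∃ e, j = e + 1 := ⟨j - 1, by omega⟩
    rw [J_iff g.hI g.hh hF]
    obtain ⟨G, hG1, hG2⟩ := mem_values (w := w) e (fun k => eval (w k) F / eval (w k) h) (by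
      intro c hc
      rw [evRel_large w g.hw g.h0 e (by omega), Submodule.mem_bot] at hc
      rw [hc]
      simp)
    refine ⟨G, hG1, fun k => ?_⟩
    rw [hG2 k, mul_div_cancel₀ _ (g.hne k)]
  | succ r ih =>
    intro j hj hK F hF
    apply g.soc (by omega) hF
    intro i
    apply ih (j + 1) (by omega) (by omega)
    have := (isHomogeneous_X ℂ i).mul hF
    rwa [add_comm 1 j] at this

theorem GorSet.top' (g : GorSet w σ I h) {j : ℕ} (hj : σ < j) {F : MvPolynomial (Fin N) ℂ}
    (hF : F.IsHomogeneous j) : F ∈ I ⊔ Ideal.span {h} :=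
  g.top (Fintype.card K + 1) j hj (by omega) F hF

/-- all vectors are values of forms of degree `σ` -/
theorem GorSet.values (g : GorSet w σ I h) (r : ℕ) : ∀ j, σ ≤ j → Fintype.card K ≤ j + r →
    ∀ v : K → ℂ, ∃ F : MvPolynomial (Fin N) ℂ, F.IsHomogeneous j ∧ ∀ k, eval (w k) F = v k := by
  classical
  induction r with
  | zero =>
    intro j hj hK v
    apply mem_values
    intro c hc
    rw [evRel_large w g.hw g.h0 j (by omega), Submodule.mem_bot] at hc
    rw [hc]
    simp
  | succ r ih =>
    intro j hj hK v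
    obtain ⟨F, hF1, hF2⟩ := ih (j + 1) (by omega) (by omega) (fun k => eval (w k) h * v k)
    obtain ⟨G, hG1, hG2⟩ := (J_iff g.hI g.hh hF1).mp (g.top' (by omega) hF1)
    refine ⟨G, hG1, fun k => ?_⟩
    apply mul_left_cancel₀ (g.hne k)
    rw [← hG2 k, hF2 k]

theorem GorSet.values' (g : GorSet w σ I h) (v : K → ℂ) :
    ∃ F : MvPolynomial (Fin N) ℂ, F.IsHomogeneous σ ∧ ∀ k, eval (w k) F = v k :=
  g.values (Fintype.card K) σ le_rfl (by omega) v

theorem GorSet.one (g : GorSet w σ I h) : ∃ s : MvPolynomial (Fin N) ℂ, s.IsHomogeneous σ ∧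
    s ∉ I ⊔ Ideal.span {h} ∧ ∀ F : MvPolynomial (Fin N) ℂ, F.IsHomogeneous σ →
      ∃ c : ℂ, F - C c * s ∈ I ⊔ Ideal.span {h} := by
  obtain ⟨s, hs, hsJ, -, hall⟩ := g.hsoc
  refine ⟨s, hs, hsJ, fun F hF => hall F fun i => ?_⟩
  apply g.top' (j := σ + 1) (by omega)
  have := (isHomogeneous_X ℂ i).mul hF
  rwa [add_comm 1 σ] at this

/-- the relations of degree `σ - 1` form a line -/
theorem GorSet.rel_top {m : ℕ} (g : GorSet w (m + 1) I h) :
    Module.finrank ℂ (evRel w m) = 1 := by
  classical
  obtain ⟨s, hs, hsJ, hall⟩ := g.one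
  let Φ : evRel w m →ₗ[ℂ] ℂ :=
    { toFun := fun c => ∑ k, c.1 k * (eval (w k) s / eval (w k) h)
      map_add' := fun a b => by simp [add_mul, Finset.sum_add_distrib]
      map_smul' := fun a b => by simp [Finset.mul_sum, mul_assoc] }
  have hinj : Function.Injective Φ := by
    rw [← LinearMap.ker_eq_bot, Submodule.eq_bot_iff]
    intro c hc
    have hc0 : ∑ k, c.1 k * (eval (w k) s / eval (w k) h) = 0 := hc
    apply Subtype.ext
    funext k₀
    -- test against all vectors
    have htest : ∀ v : K → ℂ, ∑ k, c.1 k * v k = 0 := by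
      intro v
      obtain ⟨F, hF1, hF2⟩ := g.values' (fun k => eval (w k) h * v k)
      obtain ⟨a, ha⟩ := hall F hF1
      obtain ⟨G, hG1, hG2⟩ := (J_iff g.hI g.hh (hF1.sub (hs.C_mul a))).mp ha
      have h1 : ∀ k, v k = a * (eval (w k) s / eval (w k) h) + eval (w k) G := by
        intro k
        have h2 := hG2 k
        rw [map_sub, map_mul, eval_C, hF2 k] at h2
        have h3 := g.hne k
        field_simp
        linear_combination h2
      calc ∑ k, c.1 k * v k = a * ∑ k, c.1 k * (eval (w k) s / eval (w k) h) +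
          ∑ k, c.1 k * eval (w k) G := by
            rw [Finset.mul_sum, ← Finset.sum_add_distrib]
            refine Finset.sum_congr rfl fun k _ => ?_
            rw [h1 k]; ring
        _ = 0 := by rw [hc0, c.2 G hG1]; ring
    have h1 := htest (Pi.single k₀ 1)
    rw [Finset.sum_eq_single k₀ (fun k _ hk => by rw [Pi.single_eq_of_ne hk, mul_zero])
      (fun hk => absurd (Finset.mem_univ _) hk), Pi.single_eq_same, mul_one] at h1
    exact h1
  have hle : Module.finrank ℂ (evRel w m) ≤ 1 := by
    have := LinearMap.finrank_le_finrank_of_injective hinj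
    rwa [Module.finrank_self] at this
  have hpos : Module.finrank ℂ (evRel w m) ≠ 0 := by
    intro h0
    apply hsJ
    rw [J_iff g.hI g.hh hs]
    have hbot := Submodule.finrank_eq_zero.mp h0
    obtain ⟨G, hG1, hG2⟩ := mem_values (w := w) m (fun k => eval (w k) s / eval (w k) h) (by
      intro c hc
      rw [hbot, Submodule.mem_bot] at hc
      rw [hc]
      simp)
    exact ⟨G, hG1, fun k => by rw [hG2 k, mul_div_cancel₀ _ (g.hne k)]⟩
  omega

/-- the relation of degree `σ - 1` has full support -/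
theorem GorSet.full {m : ℕ} (g : GorSet w (m + 1) I h) (hK : 2 ≤ Fintype.card K) (c : K → ℂ)
    (hc : c ∈ evRel w m) (hc0 : c ≠ 0) (k₀ : K) : c k₀ ≠ 0 := by
  classical
  intro hk₀
  have hprop : ∀ c' ∈ evRel w m, c' k₀ = 0 := by
    intro c' hc'
    obtain ⟨t, ht⟩ := (finrank_eq_one_iff_of_nonzero' (⟨c, hc⟩ : evRel w m) (fun h1 =>
      hc0 (congrArg Subtype.val h1))).mp g.rel_top ⟨c', hc'⟩
    have h1 := congrFun (congrArg Subtype.val ht) k₀
    have h2 : t * c k₀ = c' k₀ := h1
    rw [← h2, hk₀, mul_zero]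
  -- forms vanishing outside of `k₀`
  have key : ∀ r j, j + r = m → ∃ F : MvPolynomial (Fin N) ℂ, F.IsHomogeneous j ∧
      eval (w k₀) F ≠ 0 ∧ ∀ k, k ≠ k₀ → eval (w k) F = 0 := by
    intro r
    induction r with
    | zero =>
      intro j hj
      obtain ⟨F, hF1, hF2⟩ := mem_values (w := w) m (Pi.single k₀ 1) (by
        intro c' hc'
        rw [Finset.sum_eq_single k₀ (fun k _ hk => by rw [Pi.single_eq_of_ne hk, mul_zero])
          (fun hk => absurd (Finset.mem_univ _) hk), hprop c' hc', zero_mul])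
      have hjm : j = m := by omega
      subst hjm
      refine ⟨F, hF1, ?_, fun k hk => ?_⟩
      · rw [hF2, Pi.single_eq_same]; exact one_ne_zero
      · rw [hF2, Pi.single_eq_of_ne hk]
    | succ r ih =>
      intro j hj
      obtain ⟨F, hF1, hF2, hF3⟩ := ih (j + 1) (by omega)
      have hFJ : F ∈ I ⊔ Ideal.span {h} := by
        apply g.soc (by omega) hF1
        intro i
        have h1 : (X i * F).IsHomogeneous (j + 1 + 1) := by
          have := (isHomogeneous_X ℂ i).mul hF1
          rwa [add_comm 1 (j + 1)] at this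
        rw [J_iff g.hI g.hh h1]
        refine ⟨C (w k₀ i / eval (w k₀) h) * F, hF1.C_mul _, fun k => ?_⟩
        rw [map_mul, map_mul, eval_X, eval_C]
        by_cases hk : k = k₀
        · subst hk
          have := g.hne k
          field_simp
        · rw [hF3 k hk]; ring
      obtain ⟨G, hG1, hG2⟩ := (J_iff g.hI g.hh hF1).mp hFJ
      refine ⟨G, hG1, fun h1 => hF2 (by rw [hG2, h1, mul_zero]), fun k hk => ?_⟩
      have h1 := hG2 k
      rw [hF3 k hk] at h1
      exact (mul_eq_zero.mp h1.symm).resolve_left (g.hne k)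
  obtain ⟨F, hF1, hF2, hF3⟩ := key m 0 (by omega)
  have hFC : F = C (coeff 0 F) := by
    have := hF1.totalDegree_le
    exact totalDegree_eq_zero_iff_eq_C.mp (by omega)
  obtain ⟨k, hk⟩ : ∃ k, k ≠ k₀ := by
    by_contra hcon
    push Not at hcon
    have : Fintype.card K ≤ 1 := Fintype.card_le_one_iff.mpr fun a b => by
      rw [hcon a, hcon b]
    omega
  have h1 := hF3 k hk
  rw [hFC, eval_C] at h1
  rw [hFC, eval_C] at hF2
  exact hF2 h1

/-- there are at most `N` relations of degree `σ - 2` -/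
theorem GorSet.rel_pred {m : ℕ} (g : GorSet w (m + 2) I h) :
    Module.finrank ℂ (evRel w m) ≤ N := by
  classical
  obtain ⟨⟨c, hc⟩, hc0, hcs⟩ := finrank_eq_one_iff'.mp g.rel_top
  let S : Submodule ℂ (K → ℂ) := Submodule.span ℂ (Set.range fun (i : Fin N) (k : K) => c k * w k i)
  have hle : evRel w m ≤ S := by
    intro e he
    by_contra hnot
    obtain ⟨f, hf1, hf2⟩ := Submodule.exists_dual_map_eq_bot_of_notMem hnot inferInstance
    have hf : ∀ y : K → ℂ, ∑ k, y k * f (Pi.single k 1) = f y := by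
      intro y
      have hy : y = ∑ k, y k • (Pi.single k (1 : ℂ) : K → ℂ) := by
        funext j
        simp [Finset.sum_apply, Pi.single_apply]
      conv_rhs => rw [hy]
      rw [map_sum]
      refine Finset.sum_congr rfl fun k _ => ?_
      rw [map_smul, smul_eq_mul]
    set v : K → ℂ := fun k => f (Pi.single k 1) with hv
    apply hf1
    rw [← hf]
    have hwv : ∀ i : Fin N, ∃ G : MvPolynomial (Fin N) ℂ, G.IsHomogeneous (m + 1) ∧
        ∀ k, eval (w k) G = w k i * v k := by
      intro i
      apply mem_values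
      intro c' hc'
      obtain ⟨t, ht⟩ := hcs ⟨c', hc'⟩
      have h1 : ∀ k, c' k = t * c k := fun k => (congrFun (congrArg Subtype.val ht) k).symm
      have h2 : f (fun k => c k * w k i) ∈ S.map f :=
        Submodule.mem_map_of_mem (Submodule.subset_span ⟨i, rfl⟩)
      rw [hf2] at h2
      have h3 := (Submodule.mem_bot ℂ).mp h2
      rw [← hf] at h3
      calc ∑ k, c' k * (w k i * v k) = t * ∑ k, c k * w k i * f (Pi.single k 1) := by
            rw [Finset.mul_sum]
            refine Finset.sum_congr rfl fun k _ => ?_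
            rw [h1 k]; ring
        _ = 0 := by rw [h3, mul_zero]
    choose G hG1 hG2 using hwv
    -- `h • v` is the vector of values of a form
    obtain ⟨q, hq⟩ : ∃ q : Fin N → ℂ, ∀ k, eval (w k) h = ∑ i, q i * w k i := by
      obtain ⟨L, hL⟩ := zz_eval_lin h g.hh
      refine ⟨fun i => L (Pi.single i 1), fun k => ?_⟩
      rw [← hL (w k), LinearMap.pi_apply_eq_sum_univ L (w k)]
      refine Finset.sum_congr rfl fun i _ => ?_
      rw [smul_eq_mul, mul_comm]
      congr 2
      funext j
      simp [Pi.single_apply, eq_comm]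
    have hF1 : (∑ i, C (q i) * G i).IsHomogeneous (m + 1) :=
      IsHomogeneous.sum _ _ _ fun i _ => (hG1 i).C_mul _
    have hF2 : ∀ k, eval (w k) (∑ i, C (q i) * G i) = eval (w k) h * v k := by
      intro k
      rw [hq k, map_sum, Finset.sum_mul]
      refine Finset.sum_congr rfl fun i _ => ?_
      rw [map_mul, eval_C, hG2 i k]; ring
    have hFJ : (∑ i, C (q i) * G i) ∈ I ⊔ Ideal.span {h} := by
      apply g.soc (by omega) hF1
      intro i
      have h1 : (X i * ∑ i, C (q i) * G i).IsHomogeneous (m + 1 + 1) := by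
        have := (isHomogeneous_X ℂ i).mul hF1
        rwa [add_comm 1 (m + 1)] at this
      rw [J_iff g.hI g.hh h1]
      refine ⟨G i, hG1 i, fun k => ?_⟩
      rw [map_mul, hF2 k, eval_X, hG2 i k]; ring
    obtain ⟨H, hH1, hH2⟩ := (J_iff g.hI g.hh hF1).mp hFJ
    have hv' : ∀ k, v k = eval (w k) H := by
      intro k
      apply mul_left_cancel₀ (g.hne k)
      rw [← hH2 k, hF2 k]
    show ∑ k, e k * v k = 0
    rw [Finset.sum_congr rfl fun k _ => by rw [hv' k]]
    exact he H hH1
  have h1 := Submodule.finrank_mono hle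
  have h2 := finrank_range_le_card (R := ℂ) (fun (i : Fin N) (k : K) => c k * w k i)
  unfold Set.finrank at h2
  rw [Fintype.card_fin] at h2
  exact h1.trans h2

end Pool.Agent.Y206.G
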