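import Pool.Agent.Helper947.Geo.G2
import Pool.Agent.Helper947.Geo.B2

set_option autoImplicit false
open MvPolynomial
open Pool.Agent.Helper947.Geo

namespace Pool.Agent.Y206.G

theorem DD_C_mul {f : ℕ} (z : Fin f → ℂ) (c : ℂ) (g : MvPolynomial (Fin f) ℂ) :
    DD z (C c * g) = C c * DD z g := by
  rw [DD_mul]
  have h : DD z (C c : MvPolynomial (Fin f) ℂ) = 0 := by
    simp [DD]
  rw [h, zero_mul, zero_add]

theorem eval_DD {f : ℕ} (z P : Fin f → ℂ) (g : MvPolynomial (Fin f) ℂ) :
    eval P (DD z g) = ∑ i, z i * eval P (pderiv i g) := by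
  simp [DD]

theorem euler_eval {f b : ℕ} (q : MvPolynomial (Fin f) ℂ) (hq : q.IsHomogeneous b)
    (P : Fin f → ℂ) : ∑ i, P i * eval P (pderiv i q) = b * eval P q := by
  have h := congrArg (eval P) hq.sum_X_mul_pderiv
  simpa using h

/-- one step of the harmonic argument -/
theorem harmonic_step {f : ℕ} (hf : 2 ≤ f) {K : Type} [Fintype K] (y : K → Fin f → ℂ)
    (n a b : ℕ) (hn : 1 ≤ n) (e : K → ℂ) (p : K → MvPolynomial (Fin f) ℂ)
    (q : MvPolynomial (Fin f) ℂ) (hq : q ≠ 0) (hpa : ∀ k, (p k).IsHomogeneous a)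
    (hqb : q.IsHomogeneous b)
    (hinv : ∀ k, q * DD (y k) (p k) = p k * DD (y k) q)
    (hrel : Rel y n (fun k => C (e k) * p k)) (hb : b ≠ a + n + f - 2) (x : Fin f → ℂ) :
    Rel y (n - 1) (fun k => C (e k * (y k ⬝ᵥ x)) * p k) := by
  classical
  apply rel_of_generic y (n - 1) _ (q * X ⟨0, by omega⟩) (mul_ne_zero hq (X_ne_zero _))
  intro P hPX
  rw [map_mul, eval_X] at hPX
  have hP : eval P q ≠ 0 := left_ne_zero_of_mul hPX
  have hP0 : P ≠ 0 := by
    rintro rfl
    exact right_ne_zero_of_mul hPX rfl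
  -- identities
  have hkey : ∀ i, P ≠ 0 → ∀ η, P ⬝ᵥ η = 0 → ∑ k, (P i * (e k * eval P (DD (y k) (p k)))
      - ((a + n + f - 2 : ℕ) : ℂ) * y k i * (e k * eval P (p k))) * (y k ⬝ᵥ η) ^ (n - 1) = 0 := by
    intro i hP0 η hη
    have h := key_identity y n a hn (fun k => C (e k) * p k) (fun k => by
      simpa using (isHomogeneous_C (Fin f) (e k)).mul (hpa k)) hrel hf i P hP0 η hη
    rw [← h]
    refine Finset.sum_congr rfl fun k _ => ?_
    simp only [map_sub, map_mul, eval_X, eval_C, DD_C_mul]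
  · intro η hη
    set S : Fin f → ℂ := fun i => ∑ k, y k i * (e k * eval P (p k)) * (y k ⬝ᵥ η) ^ (n - 1)
      with hS
    set T : ℂ := ∑ k, (e k * eval P (DD (y k) (p k))) * (y k ⬝ᵥ η) ^ (n - 1) with hT
    set c : ℂ := ((a + n + f - 2 : ℕ) : ℂ) with hc
    have h1 : ∀ i, P i * T = c * S i := by
      intro i
      have h := hkey i hP0 η hη
      rw [hS, hT, Finset.mul_sum, Finset.mul_sum, ← sub_eq_zero, ← Finset.sum_sub_distrib, ← h]
      exact Finset.sum_congr rfl fun k _ => by ring
    have h2 : eval P q * T = ∑ i, eval P (pderiv i q) * S i := by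
      rw [hT, hS, Finset.mul_sum]
      simp only [Finset.mul_sum]
      rw [Finset.sum_comm]
      refine Finset.sum_congr rfl fun k _ => ?_
      have h3 := congrArg (eval P) (hinv k)
      rw [map_mul, map_mul, eval_DD (y k) P q] at h3
      calc eval P q * (e k * eval P (DD (y k) (p k)) * (y k ⬝ᵥ η) ^ (n - 1))
          = (eval P q * eval P (DD (y k) (p k))) * (e k * (y k ⬝ᵥ η) ^ (n - 1)) := by ring
        _ = (eval P (p k) * ∑ i, y k i * eval P (pderiv i q)) * (e k * (y k ⬝ᵥ η) ^ (n - 1)) := by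
            rw [h3]
        _ = _ := by
            rw [Finset.mul_sum, Finset.sum_mul]
            exact Finset.sum_congr rfl fun i _ => by ring
    have h3 : c * (eval P q * T) = b * (eval P q * T) := by
      calc c * (eval P q * T) = ∑ i, eval P (pderiv i q) * (c * S i) := by
            rw [h2, Finset.mul_sum]
            exact Finset.sum_congr rfl fun i _ => by ring
        _ = (∑ i, P i * eval P (pderiv i q)) * T := by
            rw [Finset.sum_mul]
            refine Finset.sum_congr rfl fun i _ => ?_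
            rw [← h1 i]; ring
        _ = b * (eval P q * T) := by rw [euler_eval q hqb]; ring
    have hcb : c ≠ b := by
      rw [hc]
      intro h
      exact hb (by exact_mod_cast h.symm)
    have hT0 : T = 0 := by
      have h4 : (c - b) * (eval P q * T) = 0 := by linear_combination h3
      rcases mul_eq_zero.mp h4 with h5 | h5
      · exact absurd (sub_eq_zero.mp h5) hcb
      · exact (mul_eq_zero.mp h5).resolve_left hP
    have hc0 : c ≠ 0 := by
      rw [hc]
      have : a + n + f - 2 ≠ 0 := by omega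
      exact_mod_cast this
    have hS0 : ∀ i, S i = 0 := by
      intro i
      have h5 := h1 i
      rw [hT0, mul_zero] at h5
      exact (mul_eq_zero.mp h5.symm).resolve_left hc0
    have h6 : ∑ i, S i * x i = 0 := Finset.sum_eq_zero fun i _ => by rw [hS0 i, zero_mul]
    rw [← h6, hS]
    simp only [Finset.sum_mul]
    rw [Finset.sum_comm]
    refine Finset.sum_congr rfl fun k _ => ?_
    simp only [map_mul, eval_C, dotProduct]
    rw [Finset.mul_sum, Finset.sum_mul, Finset.sum_mul]
    exact Finset.sum_congr rfl fun i _ => by ring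

/-- **The harmonic lemma**: the degree of a system is bounded. -/
theorem harmonic {f : ℕ} (hf : 2 ≤ f) {K : Type} [Fintype K] (y : K → Fin f → ℂ)
    (m a b : ℕ) (p : K → MvPolynomial (Fin f) ℂ)
    (q : MvPolynomial (Fin f) ℂ) (hp : ∃ k, p k ≠ 0) (hq : q ≠ 0)
    (hpa : ∀ k, (p k).IsHomogeneous a) (hqb : q.IsHomogeneous b)
    (hinv : ∀ k, q * DD (y k) (p k) = p k * DD (y k) q)
    (hrel : Rel y m p)
    (hind : ∀ c : K → ℂ, (∀ k, p k = 0 → c k = 0) →
      (∀ η, ∑ k, c k * (y k ⬝ᵥ η) ^ m = 0) → ∀ k, c k = 0) : a + f ≤ b + 1 := by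
  classical
  by_contra hcon
  push Not at hcon
  have hall : ∀ j ≤ m, ∀ x, Rel y (m - j) (fun k => C ((y k ⬝ᵥ x) ^ j) * p k) := by
    intro j
    induction j with
    | zero =>
      intro _ x
      simpa using hrel
    | succ j ih =>
      intro hj x
      have h1 := ih (by omega) x
      have h2 := harmonic_step hf y (m - j) a b (by omega) (fun k => (y k ⬝ᵥ x) ^ j) p q hq hpa
        hqb hinv h1 (by omega) x
      have e : m - (j + 1) = m - j - 1 := by omega
      rw [e]
      simpa only [pow_succ] using h2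
  obtain ⟨k₀, hk₀⟩ := hp
  have hf0 : 0 < f := by omega
  obtain ⟨P, hP⟩ : ∃ P : Fin f → ℂ, eval P (p k₀ * X (⟨0, hf0⟩ : Fin f)) ≠ 0 := by
    by_contra h
    push Not at h
    apply mul_ne_zero hk₀ (X_ne_zero (⟨0, hf0⟩ : Fin f))
    apply MvPolynomial.funext
    intro x
    rw [h x, map_zero]
  rw [map_mul, eval_X] at hP
  have hPne : P ≠ 0 := by
    rintro rfl
    exact right_ne_zero_of_mul hP rfl
  have h3 := hind (fun k => eval P (p k)) (fun k hk => by rw [hk, map_zero]) (fun η => by
    have h4 := hall m le_rfl η P hPne 0 (by simp)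
    rw [← h4]
    refine Finset.sum_congr rfl fun k _ => ?_
    simp [mul_comm])
  exact left_ne_zero_of_mul hP (h3 k₀)

end Pool.Agent.Y206.G
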