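import Pool.Agent.Y206.G.Fin1

set_option autoImplicit false
open MvPolynomial
open Pool.Agent.Helper947.Geo

namespace Pool.Agent.Y206.G

/-- the poles are hyperplanes spanned by points -/
theorem pole_lin {d : ℕ} {K : Type} [Fintype K] (z : K → Fin d → ℂ)
    (l : K → MvPolynomial (Fin d) ℂ) (Q : MvPolynomial (Fin d) ℂ)
    (g : Fin d → MvPolynomial (Fin d) ℂ)
    (hs : ∀ k, Q * DD (z k) (l k) = lin g (z k) * l k)
    (m : ℕ) (hrel : Rel z m l)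
    (hind : ∀ c : K → ℂ, (∀ η, ∑ k, c k * (z k ⬝ᵥ η) ^ m = 0) → ∀ k, c k = 0)
    (δ : MvPolynomial (Fin d) ℂ) (hδ : Irreducible δ) (hδQ : δ ∣ Q) (hp : ∃ j, ¬ δ ∣ g j)
    (hprim : ∃ k, ¬ δ ∣ l k) :
    ∃ ξ : Fin d → ℂ, ξ ≠ 0 ∧ Associated δ (lf ξ) ∧ (∀ k, ¬ δ ∣ l k → ξ ⬝ᵥ z k = 0) ∧
      ∀ x : Fin d → ℂ, ξ ⬝ᵥ x = 0 →
        x ∈ Submodule.span ℂ {y | ∃ k, ¬ δ ∣ l k ∧ y = z k} := by
  classical
  set U : Submodule ℂ (Fin d → ℂ) := Submodule.span ℂ {x | ∃ k, ¬ δ ∣ l k ∧ x = z k} with hU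
  have hδp := hδ.prime
  have hUg : ∀ x ∈ U, δ ∣ lin g x := by
    intro x hx
    refine Submodule.span_induction (p := fun x _ => δ ∣ lin g x) ?_ ?_ ?_ ?_ hx
    · rintro _ ⟨k, hk, rfl⟩
      have h1 : δ ∣ lin g (z k) * l k := by
        rw [← hs k]; exact Dvd.dvd.mul_right hδQ _
      exact (hδp.dvd_or_dvd h1).resolve_right hk
    · rw [aux_lin_zero]; exact dvd_zero _
    · intro x y _ _ hx hy
      rw [aux_lin_add]; exact dvd_add hx hy
    · intro c x _ hx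
      rw [aux_lin_smul]; exact Dvd.dvd.mul_left hx _
  obtain ⟨x₀, hx₀⟩ : ∃ x₀, x₀ ∉ U := by
    by_contra hcon
    push Not at hcon
    obtain ⟨j, hj⟩ := hp
    apply hj
    rw [← aux_lin_single g j]
    exact hUg _ (hcon _)
  obtain ⟨k₂, hk₂⟩ := hprim
  have hmem : ∀ P, eval P δ = 0 → (∀ k, ¬ δ ∣ l k → eval P (l k) ≠ 0) → P ∈ U := by
    intro P hPδ hPk
    by_contra hPU
    obtain ⟨θ, hθ1, hθ2⟩ := card_rel_sep U P hPU
    have hP0 : P ≠ 0 := by rintro rfl; exact hPU (Submodule.zero_mem _)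
    have hzero : ∀ k, δ ∣ l k → eval P (l k) = 0 := by
      rintro k ⟨s, hs⟩
      rw [hs, map_mul, hPδ, zero_mul]
    have h1 := hind (fun k => eval P (l k)) (fun η => by
        have h4 := hrel P hP0 (η - ((P ⬝ᵥ η) / (P ⬝ᵥ θ)) • θ) (by
          rw [dotProduct_sub, dotProduct_smul, smul_eq_mul, div_mul_cancel₀ _ hθ2, sub_self])
        rw [← h4]
        refine Finset.sum_congr rfl fun k _ => ?_
        by_cases hk : δ ∣ l k
        · simp only [hzero k hk, zero_mul]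
        · have h5 : z k ⬝ᵥ θ = 0 := hθ1 _ (Submodule.subset_span ⟨k, hk, rfl⟩)
          simp only [dotProduct_sub, dotProduct_smul, h5, smul_zero, sub_zero])
    exact hPk k₂ hk₂ (h1 k₂)
  have hlf : ∀ ξ : Fin d → ℂ, (∀ x ∈ U, x ⬝ᵥ ξ = 0) → δ ∣ lf ξ := by
    intro ξ hξ
    have h1 : δ ∣ lf ξ * ∏ k ∈ Finset.univ.filter (fun k => ¬ δ ∣ l k), l k := by
      apply dvd_of_vanish hδ
      intro P hP
      rw [map_mul, map_prod]
      by_cases hall : ∀ k, ¬ δ ∣ l k → eval P (l k) ≠ 0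
      · rw [eval_lf, dotProduct_comm, hξ P (hmem P hP hall), zero_mul]
      · push Not at hall
        obtain ⟨k, hk1, hk2⟩ := hall
        rw [Finset.prod_eq_zero (Finset.mem_filter.mpr ⟨Finset.mem_univ k, hk1⟩) hk2, mul_zero]
    rcases hδp.dvd_or_dvd h1 with h2 | h2
    · exact h2
    · rw [Prime.dvd_finsetProd_iff hδp] at h2
      obtain ⟨k, hk, hk2⟩ := h2
      exact absurd hk2 (Finset.mem_filter.mp hk).2
  obtain ⟨ξ, hξ1, hξ2⟩ := card_rel_sep U x₀ hx₀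
  have hξ0 : ξ ≠ 0 := by rintro rfl; simp at hξ2
  have hass := assoc_of_dvd_lf hδ hξ0 (hlf ξ hξ1)
  refine ⟨ξ, hξ0, hass, ?_, ?_⟩
  · intro k hk
    rw [dotProduct_comm]
    exact hξ1 _ (Submodule.subset_span ⟨k, hk, rfl⟩)
  · intro x hx
    by_contra hxU
    obtain ⟨θ, hθ1, hθ2⟩ := card_rel_sep U x hxU
    obtain ⟨s, hs⟩ := hass.symm.dvd.trans (hlf θ hθ1)
    apply hθ2
    have h1 := congrArg (eval x) hs
    rw [map_mul, eval_lf, eval_lf, hx, zero_mul, dotProduct_comm] at h1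
    exact h1

/-- poles are simple, and their residues -/
theorem pole_simple' {d : ℕ} {K : Type} [Fintype K] (z : K → Fin d → ℂ)
    (hsp : ∀ η : Fin d → ℂ, (∀ k, η ⬝ᵥ z k = 0) → η = 0)
    (l : K → MvPolynomial (Fin d) ℂ) (hl0 : ∀ k, l k ≠ 0) (Q : MvPolynomial (Fin d) ℂ)
    (g : Fin d → MvPolynomial (Fin d) ℂ)
    (hs : ∀ k, Q * DD (z k) (l k) = lin g (z k) * l k)
    (η : Fin d → ℂ) (hη : Irreducible (lf η)) (hQ : Q ≠ 0) (hηQ : lf η ∣ Q)
    (hp : ∃ j, ¬ lf η ∣ g j) (hW : ∀ k, ¬ lf η ∣ l k → η ⬝ᵥ z k = 0)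
    (hU : ∀ x : Fin d → ℂ, η ⬝ᵥ x = 0 →
      x ∈ Submodule.span ℂ {y | ∃ k, ¬ lf η ∣ l k ∧ y = z k}) :
    ∃ (μ : ℕ) (Q' : MvPolynomial (Fin d) ℂ), 1 ≤ μ ∧ Q = lf η * Q' ∧ ¬ lf η ∣ Q' ∧
      (∀ k, η ⬝ᵥ z k ≠ 0 → ∃ ν, l k = lf η ^ μ * ν ∧ ¬ lf η ∣ ν) ∧
      ∀ x : Fin d → ℂ, lf η ∣ lin g x - C ((μ : ℂ) * (η ⬝ᵥ x)) * Q' := by
  have hπ : Prime (lf η) := hη.prime
  -- powers
  obtain ⟨r, Q1, hQ1, hQeq⟩ := WfDvdMonoid.max_power_factor hQ hη
  have hr : r ≠ 0 := by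
    rintro rfl
    rw [pow_zero, one_mul] at hQeq
    exact hQ1 (hQeq ▸ hηQ)
  obtain ⟨r', rfl⟩ := Nat.exists_eq_succ_of_ne_zero hr
  replace hQeq : Q = lf η ^ (r' + 1) * Q1 := hQeq
  have hπ0 : lf η ≠ 0 := hη.ne_zero
  -- (A)
  have hA : ∀ k, η ⬝ᵥ z k = 0 → lf η ∣ lin g (z k) := by
    intro k hk
    obtain ⟨m, ν, hν, hl⟩ := WfDvdMonoid.max_power_factor (hl0 k) hη
    have h1 := hs k
    rw [hl, DD_mul, aux_DD_pow_zero _ _ _ hk, zero_mul, zero_add] at h1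
    have h2 : lf η ^ m * (Q * DD (z k) ν) = lf η ^ m * (lin g (z k) * ν) := by
      linear_combination h1
    have h3 := mul_left_cancel₀ (pow_ne_zero m hπ0) h2
    have h4 : lf η ∣ lin g (z k) * ν := by
      rw [← h3]
      exact Dvd.dvd.mul_right hηQ _
    rcases hπ.dvd_or_dvd h4 with h5 | h5
    · exact h5
    · exact absurd h5 hν
  have hA' : ∀ x : Fin d → ℂ, η ⬝ᵥ x = 0 → lf η ∣ lin g x := by
    intro x hx
    refine Submodule.span_induction (p := fun x _ => lf η ∣ lin g x) ?_ ?_ ?_ ?_ (hU x hx)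
    · rintro _ ⟨k, hk, rfl⟩
      exact hA k (hW k hk)
    · rw [aux_lin_zero]; exact dvd_zero _
    · intro x y _ _ hx hy
      rw [aux_lin_add]; exact dvd_add hx hy
    · intro a x _ hx
      rw [aux_lin_smul]; exact Dvd.dvd.mul_left hx _
  -- (B)
  have hB : ∀ k, η ⬝ᵥ z k ≠ 0 → ∃ (n : ℕ) (ν : MvPolynomial (Fin d) ℂ),
      l k = lf η ^ (n + 1) * ν ∧ ¬ lf η ∣ ν ∧
      lf η ^ r' * Q1 * (C (((n : ℂ) + 1) * (η ⬝ᵥ z k)) * ν + lf η * DD (z k) ν) =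
        lin g (z k) * ν := by
    intro k hk
    obtain ⟨m, ν, hν, hl⟩ := WfDvdMonoid.max_power_factor (hl0 k) hη
    have hm : m ≠ 0 := by
      rintro rfl
      rw [pow_zero, one_mul] at hl
      exact hk (hW k (hl ▸ hν))
    obtain ⟨n, rfl⟩ := Nat.exists_eq_succ_of_ne_zero hm
    refine ⟨n, ν, hl, hν, ?_⟩
    have h1 := hs k
    rw [hl, DD_mul, Nat.succ_eq_add_one, aux_DD_pow, hQeq] at h1
    have h2 : lf η ^ (n + 1) * (lf η ^ r' * Q1 *
        (C (((n : ℂ) + 1) * (η ⬝ᵥ z k)) * ν + lf η * DD (z k) ν)) =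
        lf η ^ (n + 1) * (lin g (z k) * ν) := by
      linear_combination h1
    exact mul_left_cancel₀ (pow_ne_zero _ hπ0) h2
  -- k0
  have hη0 : η ≠ 0 := by
    rintro rfl
    apply hπ0
    simp [lf]
  obtain ⟨k0, hk0⟩ : ∃ k, η ⬝ᵥ z k ≠ 0 := by
    by_contra hcon
    push Not at hcon
    exact hη0 (hsp η hcon)
  -- decomposition of a vector
  have hdec : ∀ x : Fin d → ℂ, ∃ (a : ℂ) (x' : Fin d → ℂ), η ⬝ᵥ x' = 0 ∧ x = a • z k0 + x' := by
    intro x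
    refine ⟨(η ⬝ᵥ x) / (η ⬝ᵥ z k0), x - ((η ⬝ᵥ x) / (η ⬝ᵥ z k0)) • z k0, ?_, ?_⟩
    · rw [dotProduct_sub, dotProduct_smul, smul_eq_mul, div_mul_cancel₀ _ hk0, sub_self]
    · rw [add_sub_cancel]
  -- r = 1
  have hr1 : r' = 0 := by
    by_contra hr'
    obtain ⟨r'', rfl⟩ := Nat.exists_eq_succ_of_ne_zero hr'
    have h0 : lf η ∣ lin g (z k0) := by
      obtain ⟨n, ν, -, hν, h1⟩ := hB k0 hk0
      have h4 : lf η ∣ lin g (z k0) * ν := by
        rw [← h1, Nat.succ_eq_add_one, pow_succ]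
        exact ⟨lf η ^ r'' * Q1 * (C (((n : ℂ) + 1) * (η ⬝ᵥ z k0)) * ν + lf η * DD (z k0) ν),
          by ring⟩
      rcases hπ.dvd_or_dvd h4 with h5 | h5
      · exact h5
      · exact absurd h5 hν
    obtain ⟨j, hj⟩ := hp
    apply hj
    rw [← aux_lin_single g j]
    obtain ⟨a, x', hx', he⟩ := hdec (Pi.single j 1)
    rw [he, aux_lin_add, aux_lin_smul]
    exact dvd_add (Dvd.dvd.mul_left h0 _) (hA' x' hx')
  subst hr1
  have hC : ∀ k (hk : η ⬝ᵥ z k ≠ 0), ∃ (n : ℕ) (ν : MvPolynomial (Fin d) ℂ),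
      l k = lf η ^ (n + 1) * ν ∧ ¬ lf η ∣ ν ∧
      lf η ∣ lin g (z k) - C (((n : ℂ) + 1) * (η ⬝ᵥ z k)) * Q1 := by
    intro k hk
    obtain ⟨n, ν, hl, hν, h1⟩ := hB k hk
    refine ⟨n, ν, hl, hν, ?_⟩
    have h4 : lf η ∣ (lin g (z k) - C (((n : ℂ) + 1) * (η ⬝ᵥ z k)) * Q1) * ν := by
      refine ⟨Q1 * DD (z k) ν, ?_⟩
      rw [pow_zero, one_mul] at h1
      linear_combination -h1
    rcases hπ.dvd_or_dvd h4 with h5 | h5
    · exact h5
    · exact absurd h5 hν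
  obtain ⟨n0, ν0, hl0', hν0, hd0⟩ := hC k0 hk0
  -- all x
  have hall : ∀ x : Fin d → ℂ, lf η ∣ lin g x - C (((n0 : ℂ) + 1) * (η ⬝ᵥ x)) * Q1 := by
    intro x
    obtain ⟨a, x', hx', he⟩ := hdec x
    have e : lin g x - C (((n0 : ℂ) + 1) * (η ⬝ᵥ x)) * Q1 =
        C a * (lin g (z k0) - C (((n0 : ℂ) + 1) * (η ⬝ᵥ z k0)) * Q1) + lin g x' := by
      rw [he, aux_lin_add, aux_lin_smul, dotProduct_add, dotProduct_smul, hx', smul_eq_mul,
        add_zero]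
      simp only [map_mul]
      ring
    rw [e]
    exact dvd_add (Dvd.dvd.mul_left hd0 _) (hA' x' hx')
  refine ⟨n0 + 1, Q1, by omega, ?_, hQ1, ?_, ?_⟩
  · rw [hQeq]; simp
  · intro k hk
    obtain ⟨n, ν, hl, hν, hd⟩ := hC k hk
    have h1 := dvd_sub (hall (z k)) hd
    have e : (lin g (z k) - C (((n0 : ℂ) + 1) * (η ⬝ᵥ z k)) * Q1) -
        (lin g (z k) - C (((n : ℂ) + 1) * (η ⬝ᵥ z k)) * Q1) =
        C (((n : ℂ) - n0) * (η ⬝ᵥ z k)) * Q1 := by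
      have : C (((n : ℂ) - n0) * (η ⬝ᵥ z k)) =
          C (((n : ℂ) + 1) * (η ⬝ᵥ z k)) - (C (((n0 : ℂ) + 1) * (η ⬝ᵥ z k)) :
            MvPolynomial (Fin d) ℂ) := by
        rw [← map_sub]; congr 1; ring
      rw [this]; ring
    rw [e] at h1
    have h2 : ((n : ℂ) - n0) * (η ⬝ᵥ z k) = 0 := by
      by_contra hne
      rcases hπ.dvd_or_dvd h1 with h3 | h3
      · have hu : IsUnit (C (((n : ℂ) - n0) * (η ⬝ᵥ z k)) : MvPolynomial (Fin d) ℂ) :=
          (isUnit_iff_ne_zero.mpr hne).map C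
        exact hη.not_isUnit (isUnit_of_dvd_unit h3 hu)
      · exact hQ1 h3
    have h3 : n = n0 := by
      rcases mul_eq_zero.mp h2 with h4 | h4
      · exact_mod_cast sub_eq_zero.mp h4
      · exact absurd h4 hk
    subst h3
    exact ⟨ν, hl, hν⟩
  · intro x
    have := hall x
    push_cast
    exact this

theorem ek_pole' {d : ℕ} {K : Type} [Fintype K] (z : K → Fin d → ℂ)
    (hsp : ∀ η : Fin d → ℂ, (∀ k, η ⬝ᵥ z k = 0) → η = 0)
    (l : K → MvPolynomial (Fin d) ℂ) (hl0 : ∀ k, l k ≠ 0)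
    (Q : MvPolynomial (Fin d) ℂ) (hQ : Q ≠ 0)
    (g : Fin d → MvPolynomial (Fin d) ℂ)
    (hs : ∀ k, Q * DD (z k) (l k) = lin g (z k) * l k)
    (hp : ∀ δ : MvPolynomial (Fin d) ℂ, Irreducible δ → δ ∣ Q → ∃ j, ¬ δ ∣ g j)
    (m : ℕ) (hrel : Rel z m l)
    (hprim : ∀ δ : MvPolynomial (Fin d) ℂ, Irreducible δ → ∃ k, ¬ δ ∣ l k)
    (hind : ∀ c : K → ℂ, (∀ η, ∑ k, c k * (z k ⬝ᵥ η) ^ m = 0) → ∀ k, c k = 0)
    (δ : MvPolynomial (Fin d) ℂ) (hδ : Irreducible δ) (hδQ : δ ∣ Q) :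
    ∃ (η : Fin d → ℂ) (μ : ℕ) (Q' : MvPolynomial (Fin d) ℂ), Associated δ (lf η) ∧
      Irreducible (lf η) ∧ 1 ≤ μ ∧ Q = lf η * Q' ∧ ¬ lf η ∣ Q' ∧
      (∀ k, η ⬝ᵥ z k ≠ 0 → ∃ ν, l k = lf η ^ μ * ν ∧ ¬ lf η ∣ ν) ∧
      ∀ x : Fin d → ℂ, lf η ∣ lin g x - C ((μ : ℂ) * (η ⬝ᵥ x)) * Q' := by
  obtain ⟨η, hη0, hass, hηW, hU⟩ := pole_lin z l Q g hs m hrel hind δ hδ hδQ (hp δ hδ hδQ)
    (hprim δ hδ)
  have hirr : Irreducible (lf η) := hass.irreducible hδ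
  have hiff : ∀ f : MvPolynomial (Fin d) ℂ, lf η ∣ f ↔ δ ∣ f := fun f =>
    (hass.dvd_iff_dvd_left).symm
  have hpj : ∃ j, ¬ lf η ∣ g j := by
    obtain ⟨j, hj⟩ := hp δ hδ hδQ
    exact ⟨j, fun h => hj ((hiff _).mp h)⟩
  obtain ⟨μ, Q', h1, h2, h4, h5, h6⟩ := pole_simple' z hsp l hl0 Q g hs η hirr hQ
    ((hiff Q).mpr hδQ) hpj (fun k hk => hηW k fun h => hk ((hiff _).mpr h)) (by
      intro x hx
      have h7 := hU x hx
      have : {y | ∃ k, ¬ δ ∣ l k ∧ y = z k} = {y | ∃ k, ¬ lf η ∣ l k ∧ y = z k} := by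
        ext y
        simp only [Set.mem_ofPred_eq, hiff]
      rwa [this] at h7)
  exact ⟨η, μ, Q', hass, hirr, h1, h2, h4, h5, h6⟩

/-- the common denominator -/
theorem exists_kappa' {d : ℕ} {K : Type} [Fintype K] (z : K → Fin d → ℂ) (D c : ℕ)
    (hsp : ∀ η : Fin d → ℂ, (∀ k, η ⬝ᵥ z k = 0) → η = 0)
    (l : K → MvPolynomial (Fin d) ℂ) (hl0 : ∀ k, l k ≠ 0) (hlD : ∀ k, (l k).IsHomogeneous D)
    (Q : MvPolynomial (Fin d) ℂ) (hQ : Q ≠ 0)
    (g : Fin d → MvPolynomial (Fin d) ℂ) (hg : ∑ j, g j * X j = C (c : ℂ) * Q)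
    (hs : ∀ k, Q * DD (z k) (l k) = lin g (z k) * l k)
    (hp : ∀ δ : MvPolynomial (Fin d) ℂ, Irreducible δ → δ ∣ Q → ∃ j, ¬ δ ∣ g j)
    (m : ℕ) (hrel : Rel z m l) (hprim : ∀ δ : MvPolynomial (Fin d) ℂ, Irreducible δ → ∃ k, ¬ δ ∣ l k)
    (hind : ∀ c : K → ℂ, (∀ η, ∑ k, c k * (z k ⬝ᵥ η) ^ m = 0) → ∀ k, c k = 0) :
    ∃ (s : ℕ) (η : Fin s → Fin d → ℂ) (μ : Fin s → ℕ), (∀ i, Irreducible (lf (η i))) ∧
      (∀ i j, i ≠ j → ¬ lf (η i) ∣ lf (η j)) ∧ (∀ i, 1 ≤ μ i) ∧ ∑ i, μ i = c ∧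
      (∀ i k, η i ⬝ᵥ z k ≠ 0 → ∃ ν, l k = lf (η i) ^ μ i * ν ∧ ¬ lf (η i) ∣ ν) ∧
      ∀ k, (∏ i, lf (η i) ^ μ i) * DD (z k) (l k) = l k * DD (z k) (∏ i, lf (η i) ^ μ i) := by
  classical
  obtain ⟨F, hFp, hFQ⟩ := UniqueFactorizationMonoid.exists_prime_factors Q hQ
  obtain ⟨L, rfl⟩ : ∃ L : List (MvPolynomial (Fin d) ℂ), F = (L : Multiset _) :=
    ⟨F.toList, (Multiset.coe_toList F).symm⟩
  rw [Multiset.prod_coe, ← Fin.prod_univ_getElem] at hFQ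
  have hbp : ∀ i : Fin L.length, Prime (L[i.1]) := fun i =>
    hFp _ (by simp)
  have hbQ : ∀ i : Fin L.length, L[i.1] ∣ Q := by
    intro i
    exact (Finset.dvd_prod_of_mem (fun i : Fin L.length => L[i.1]) (Finset.mem_univ i)).trans
      hFQ.dvd
  choose η μ Q' hass hirr hμ hQQ' hnd hν hres using fun i : Fin L.length =>
    ek_pole' z hsp l hl0 Q hQ g hs hp m hrel hprim hind (L[i.1]) (hbp i).irreducible (hbQ i)
  have hPQ : Associated (∏ i, lf (η i)) Q :=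
    (Associated.prod Finset.univ _ _ (fun i _ => (hass i).symm)).trans hFQ
  have hpair : ∀ i j, i ≠ j → ¬ lf (η i) ∣ lf (η j) := by
    intro i j hij hd
    have h1 : lf (η i) * lf (η j) ∣ ∏ i, lf (η i) := by
      rw [← Finset.mul_prod_erase Finset.univ (fun i => lf (η i)) (Finset.mem_univ i)]
      refine mul_dvd_mul_left _ ?_
      exact Finset.dvd_prod_of_mem (fun i => lf (η i))
        (Finset.mem_erase.mpr ⟨hij.symm, Finset.mem_univ j⟩)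
    have h2 : lf (η i) * lf (η j) ∣ lf (η i) * Q' i := by
      rw [← hQQ' i]
      exact h1.trans hPQ.dvd
    have h4 := (mul_dvd_mul_iff_left (hirr i).ne_zero).mp h2
    exact hnd i (hd.trans h4)
  have hprime : ∀ i, Prime (lf (η i)) := fun i => (hirr i).prime
  have hdQ' : ∀ i j, i ≠ j → lf (η i) ∣ Q' j := by
    intro i j hij
    have h1 : lf (η i) ∣ lf (η j) * Q' j := by
      rw [← hQQ' j, hQQ' i]
      exact Dvd.intro _ rfl
    rcases (hprime i).dvd_or_dvd h1 with h2 | h2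
    · exact absurd h2 (hpair i j hij)
    · exact h2
  have hQdvd : ∀ x : Fin d → ℂ, Q ∣ lin g x - ∑ i, C ((μ i : ℂ) * (η i ⬝ᵥ x)) * Q' i := by
    intro x
    refine hPQ.symm.dvd.trans ?_
    refine Fintype.prod_dvd_of_isRelPrime ?_ ?_
    · intro i j hij
      exact (hirr i).isRelPrime_iff_not_dvd.mpr (hpair i j hij)
    · intro i
      rw [← Finset.add_sum_erase Finset.univ _ (Finset.mem_univ i), ← sub_sub]
      refine dvd_sub (hres i x) ?_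
      refine Finset.dvd_sum ?_
      intro j hj
      exact dvd_mul_of_dvd_right (hdQ' i j (Finset.ne_of_mem_erase hj).symm) _
  have hgj : ∀ j : Fin d, ∃ R : MvPolynomial (Fin d) ℂ,
      g j = ∑ i, C ((μ i : ℂ) * η i j) * Q' i + Q * R := by
    intro j
    obtain ⟨R, hR⟩ := hQdvd (Pi.single j 1)
    refine ⟨R, ?_⟩
    have h1 : lin g (Pi.single j 1) = g j := by
      unfold lin
      rw [Finset.sum_eq_single j]
      · simp
      · intro b _ hb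
        rw [Pi.single_eq_of_ne hb]
        simp
      · intro h
        exact absurd (Finset.mem_univ j) h
    rw [h1] at hR
    have h2 : ∀ i, η i ⬝ᵥ Pi.single j 1 = η i j := by
      intro i
      simp
    simp only [h2] at hR
    linear_combination hR
  choose R hR using hgj
  have hlin : ∀ x : Fin d → ℂ, lin g x = ∑ i, C ((μ i : ℂ) * (η i ⬝ᵥ x)) * Q' i +
      Q * ∑ j, R j * C (x j) := by
    intro x
    unfold lin
    have h1 : ∀ j, g j * C (x j) = ∑ i, C ((μ i : ℂ) * η i j) * Q' i * C (x j) +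
        Q * (R j * C (x j)) := by
      intro j
      conv_lhs => rw [hR j]
      rw [add_mul, Finset.sum_mul]
      ring
    rw [Finset.sum_congr rfl (fun j _ => h1 j), Finset.sum_add_distrib, ← Finset.mul_sum]
    congr 1
    rw [Finset.sum_comm]
    apply Finset.sum_congr rfl
    intro i _
    simp only [dotProduct]
    rw [Finset.mul_sum, map_sum, Finset.sum_mul]
    apply Finset.sum_congr rfl
    intro j _
    rw [← mul_assoc, C_mul (a := (μ i : ℂ) * η i j)]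
    ring
  set κ : MvPolynomial (Fin d) ℂ := ∏ i, lf (η i) ^ μ i with hκ
  have hκ0 : κ ≠ 0 := by
    rw [hκ]
    exact Finset.prod_ne_zero_iff.mpr (fun i _ => pow_ne_zero _ (hirr i).ne_zero)
  have hlfh : ∀ η : Fin d → ℂ, (lf η).IsHomogeneous 1 := by
    intro η
    unfold lf
    refine IsHomogeneous.sum _ _ _ ?_
    intro i _
    exact (isHomogeneous_X ℂ i).C_mul _
  have hκh : κ.IsHomogeneous (∑ i, μ i) := by
    rw [hκ]
    refine IsHomogeneous.prod _ _ _ ?_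
    intro i _
    have := (hlfh (η i)).pow (μ i)
    rwa [one_mul] at this
  have hDκ : ∀ x : Fin d → ℂ, Q * DD x κ = κ * ∑ i, C ((μ i : ℂ) * (η i ⬝ᵥ x)) * Q' i := by
    intro x
    have h1 := ek_DD_prod x (fun i => lf (η i)) Q' μ Q hQQ' Finset.univ
    simp only [DD_lf] at h1
    rw [hκ, h1]
    congr 1
    apply Finset.sum_congr rfl
    intro i _
    rw [C_mul]
  have hRz : ∀ k, ∑ j, R j * C (z k j) = 0 := by
    intro k
    refine ek_R_zero (z k) κ (l k) _ (∑ i, μ i) D hκ0 (hl0 k) hκh (hlD k) ?_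
    apply mul_left_cancel₀ hQ
    have h1 := hs k
    have h2 := hDκ (z k)
    have h4 := hlin (z k)
    calc Q * (κ * DD (z k) (l k) - l k * DD (z k) κ)
        = κ * (Q * DD (z k) (l k)) - l k * (Q * DD (z k) κ) := by ring
      _ = κ * (lin g (z k) * l k) - l k * (κ * ∑ i, C ((μ i : ℂ) * (η i ⬝ᵥ z k)) * Q' i) := by
          rw [h1, h2]
      _ = Q * (κ * l k * ∑ j, R j * C (z k j)) := by
          rw [h4]
          ring
  have hR0 : ∀ j, R j = 0 := by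
    intro j
    ext m
    rw [coeff_zero]
    have h1 : (fun j => coeff m (R j)) = 0 := by
      apply hsp
      intro k
      have h2 := congrArg (coeff m) (hRz k)
      rw [coeff_sum, coeff_zero] at h2
      have h5 : ∀ x, coeff m (R x * C (z k x)) = coeff m (R x) * z k x := by
        intro x
        rw [mul_comm, coeff_C_mul, mul_comm]
      simp only [h5] at h2
      exact h2
    exact congrFun h1 j
  have hlin0 : ∀ x : Fin d → ℂ, lin g x = ∑ i, C ((μ i : ℂ) * (η i ⬝ᵥ x)) * Q' i := by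
    intro x
    rw [hlin x]
    simp [hR0]
  refine ⟨L.length, η, μ, hirr, hpair, hμ, ?_, ?_, ?_⟩
  · have h1 : ∑ j, g j * X j = C ((∑ i, μ i : ℕ) : ℂ) * Q := by
      have h2 : ∀ j, g j * X j = ∑ i, C ((μ i : ℂ) * η i j) * Q' i * X j := by
        intro j
        conv_lhs => rw [hR j, hR0 j, mul_zero, add_zero]
        rw [Finset.sum_mul]
      rw [Finset.sum_congr rfl (fun j _ => h2 j), Finset.sum_comm]
      have h5 : ∀ i, ∑ j, C ((μ i : ℂ) * η i j) * Q' i * X j = C (μ i : ℂ) * Q := by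
        intro i
        conv_rhs => rw [hQQ' i]
        unfold lf
        rw [Finset.sum_mul, Finset.mul_sum]
        apply Finset.sum_congr rfl
        intro j _
        rw [C_mul]
        ring
      rw [Finset.sum_congr rfl (fun i _ => h5 i), ← Finset.sum_mul]
      congr 1
      push_cast
      rw [map_sum]
    rw [hg] at h1
    have h6 := mul_right_cancel₀ hQ h1
    have h7 := C_injective (Fin d) ℂ h6
    exact_mod_cast h7.symm
  · intro i k hik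
    exact hν i k hik
  · intro k
    apply mul_left_cancel₀ hQ
    have h1 := hs k
    have h2 := hDκ (z k)
    have h4 := hlin0 (z k)
    calc Q * (κ * DD (z k) (l k)) = κ * (Q * DD (z k) (l k)) := by ring
      _ = κ * ((∑ i, C ((μ i : ℂ) * (η i ⬝ᵥ z k)) * Q' i) * l k) := by rw [h1, h4]
      _ = l k * (Q * DD (z k) κ) := by
          rw [h2]
          ring
      _ = Q * (l k * DD (z k) κ) := by ring

end Pool.Agent.Y206.G
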