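import Pool.Agent.Y206.G.Lin

set_option autoImplicit false
open MvPolynomial
open Pool.Agent.Helper947.Geo

namespace Pool.Agent.Y206.G

theorem dvd_DD_zero {d : ℕ} (z : Fin d → ℂ) (δ : MvPolynomial (Fin d) ℂ) (h : δ ∣ DD z δ) :
    DD z δ = 0 := by
  obtain ⟨s, hs⟩ := h
  apply MvPolynomial.funext
  intro P
  have h1 : Polynomial.derivative (cur P z δ) = cur P z δ * cur P z s := by
    rw [inv_der, hs, map_mul]
  have h2 : Polynomial.derivative (cur P z δ) = 0 := by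
    by_contra hne
    have h3 : cur P z δ ≠ 0 := by
      intro h0
      rw [h0] at hne
      simp at hne
    have h4 : cur P z s ≠ 0 := by
      intro h0
      rw [h0, mul_zero] at h1
      exact hne h1
    have h5 := Polynomial.degree_derivative_lt h3
    rw [h1, Polynomial.degree_mul] at h5
    have h6 : (0 : WithBot ℕ) ≤ (cur P z s).degree := Polynomial.zero_le_degree_iff.mpr h4
    have h7 : (cur P z δ).degree ≤ (cur P z δ).degree + (cur P z s).degree := by
      calc (cur P z δ).degree = (cur P z δ).degree + 0 := (add_zero _).symm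
        _ ≤ _ := by gcongr
    exact absurd h5 (not_lt.mpr h7)
  have h8 := congrArg (Polynomial.eval 0) h2
  rw [inv_der, eval_cur] at h8
  simpa using h8

theorem const_of_DD {d : ℕ} (δ : MvPolynomial (Fin d) ℂ) (h : ∀ z, DD z δ = 0) :
    ∃ c : ℂ, δ = C c := by
  refine ⟨eval 0 δ, ?_⟩
  apply MvPolynomial.funext
  intro P
  have h1 := invariance P δ 1 (by rw [h P, ek_DD_one, mul_zero, mul_zero]) 0 1
  simpa using h1

/-- a system of rational functions `p k / q` -/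
structure Sys {f : ℕ} {K : Type} [Fintype K] (y : K → Fin f → ℂ) (m a b : ℕ)
    (p : K → MvPolynomial (Fin f) ℂ) (q : MvPolynomial (Fin f) ℂ) : Prop where
  hp : ∃ k, p k ≠ 0
  hq : q ≠ 0
  hpa : ∀ k, (p k).IsHomogeneous a
  hqb : q.IsHomogeneous b
  hinv : ∀ k, q * DD (y k) (p k) = p k * DD (y k) q
  hrel : Rel y m p
  hind : ∀ c : K → ℂ, (∀ k, p k = 0 → c k = 0) →
      (∀ η, ∑ k, c k * (y k ⬝ᵥ η) ^ m = 0) → ∀ k, c k = 0

theorem mul_DD_pow {d : ℕ} (z : Fin d → ℂ) (δ : MvPolynomial (Fin d) ℂ) (n : ℕ) :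
    δ * DD z (δ ^ n) = C (n : ℂ) * δ ^ n * DD z δ := by
  have h := ek_DD_pow z δ 1 δ (by ring) n
  rw [h]; ring

/-- the poles of a system are hyperplanes -/
theorem Sys.pole {f : ℕ} {K : Type} [Fintype K] {y : K → Fin f → ℂ} {m a b : ℕ}
    {p : K → MvPolynomial (Fin f) ℂ} {q : MvPolynomial (Fin f) ℂ} (h : Sys y m a b p q)
    (hab : a < b) :
    ∃ (ξ : Fin f → ℂ) (α β : ℕ) (p' : K → MvPolynomial (Fin f) ℂ) (q' : MvPolynomial (Fin f) ℂ),
      ξ ≠ 0 ∧ Irreducible (lf ξ) ∧ α < β ∧ (∀ k, p k = lf ξ ^ α * p' k) ∧ q = lf ξ ^ β * q' ∧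
      ¬ lf ξ ∣ q' ∧ (∃ k, ¬ lf ξ ∣ p' k) ∧ ∀ k, ¬ lf ξ ∣ p' k → y k ⬝ᵥ ξ = 0 := by
  classical
  obtain ⟨k₁, hk₁⟩ := h.hp
  -- an irreducible polynomial with a pole
  obtain ⟨δ, α, β, p', q', hδ, hαβ, hpe, hqe, hq', k₂, hk₂⟩ : ∃ (δ : MvPolynomial (Fin f) ℂ)
      (α β : ℕ) (p' : K → MvPolynomial (Fin f) ℂ) (q' : MvPolynomial (Fin f) ℂ), Irreducible δ ∧
      α < β ∧ (∀ k, p k = δ ^ α * p' k) ∧ q = δ ^ β * q' ∧ ¬ δ ∣ q' ∧ ∃ k, ¬ δ ∣ p' k := by
    obtain ⟨q₁, p₁, c, hrel, hq₁, hp₁⟩ :=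
      UniqueFactorizationMonoid.exists_reduced_factors q h.hq (p k₁)
    have hc0 : c ≠ 0 := by rintro rfl; rw [zero_mul] at hq₁; exact h.hq hq₁.symm
    have hq10 : q₁ ≠ 0 := by rintro rfl; rw [mul_zero] at hq₁; exact h.hq hq₁.symm
    have hp10 : p₁ ≠ 0 := by rintro rfl; rw [mul_zero] at hp₁; exact hk₁ hp₁.symm
    have hnu : ¬ IsUnit q₁ := by
      intro hu
      have h1 : q ∣ p k₁ := by
        rw [← hq₁, ← hp₁]
        exact mul_dvd_mul_left _ (hu.dvd)
      obtain ⟨s, hs⟩ := h1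
      have hs0 : s ≠ 0 := by rintro rfl; rw [mul_zero] at hs; exact hk₁ hs
      have h2 := totalDegree_mul_of_isDomain h.hq hs0
      rw [← hs, (h.hpa k₁).totalDegree hk₁, h.hqb.totalDegree h.hq] at h2
      omega
    obtain ⟨δ, hδ, hδq⟩ := WfDvdMonoid.exists_irreducible_factor hnu hq10
    have hδp : ¬ δ ∣ p₁ := fun h1 => hδ.not_isUnit (hrel hδq h1)
    obtain ⟨γ, c', hc', hce⟩ := WfDvdMonoid.max_power_factor hc0 hδ
    obtain ⟨β, q', hq', hqe⟩ := WfDvdMonoid.max_power_factor h.hq hδ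
    have hδ0 := hδ.ne_zero
    have hex : ∃ i, ¬ ∀ k, δ ^ i ∣ p k := by
      refine ⟨γ + 1, fun hall => ?_⟩
      have h1 := hall k₁
      rw [← hp₁, hce, mul_assoc, pow_succ] at h1
      have h2 := (mul_dvd_mul_iff_left (pow_ne_zero γ hδ0)).mp h1
      rcases hδ.prime.dvd_or_dvd h2 with h3 | h3
      · exact hc' h3
      · exact hδp h3
    obtain ⟨i₀, hi₀, hmin⟩ : ∃ i₀, (¬ ∀ k, δ ^ i₀ ∣ p k) ∧ ∀ i < i₀, ∀ k, δ ^ i ∣ p k := by
      refine ⟨Nat.find hex, Nat.find_spec hex, fun i hi => ?_⟩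
      have := Nat.find_min hex hi
      push Not at this
      exact this
    have hi0 : i₀ ≠ 0 := by rintro rfl; exact hi₀ fun k => by simp
    obtain ⟨α, rfl⟩ := Nat.exists_eq_succ_of_ne_zero hi0
    choose p' hp' using hmin α (Nat.lt_succ_self α)
    refine ⟨δ, α, β, p', q', hδ, ?_, hp', hqe, hq', ?_⟩
    · -- `α ≤ γ < β`
      have hαγ : α ≤ γ := by
        by_contra hcon
        push Not at hcon
        have h1 : δ ^ (γ + 1) ∣ p k₁ := (pow_dvd_pow δ hcon).trans ⟨_, hp' k₁⟩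
        rw [← hp₁, hce, mul_assoc, pow_succ] at h1
        have h2 := (mul_dvd_mul_iff_left (pow_ne_zero γ hδ0)).mp h1
        rcases hδ.prime.dvd_or_dvd h2 with h3 | h3
        · exact hc' h3
        · exact hδp h3
      have hγβ : γ < β := by
        by_contra hcon
        push Not at hcon
        have h1 : δ ^ (γ + 1) ∣ q := by
          rw [← hq₁, hce, mul_assoc, pow_succ]
          exact mul_dvd_mul_left _ (Dvd.dvd.mul_left hδq _)
        have h2 : δ ^ (β + 1) ∣ q := (pow_dvd_pow δ (by omega)).trans h1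
        rw [hqe, pow_succ] at h2
        exact hq' ((mul_dvd_mul_iff_left (pow_ne_zero β hδ0)).mp h2)
      omega
    · by_contra hcon
      push Not at hcon
      apply hi₀
      intro k
      obtain ⟨s, hs⟩ := hcon k
      exact ⟨s, by rw [hp' k, hs, Nat.succ_eq_add_one, pow_succ]; ring⟩
  have hδ0 := hδ.ne_zero
  have hδp := hδ.prime
  -- the derivative of `δ` vanishes
  have hDD : ∀ k, ¬ δ ∣ p' k → DD (y k) δ = 0 := by
    intro k hk
    apply dvd_DD_zero
    have h1 := h.hinv k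
    rw [hpe k, hqe, DD_mul, DD_mul] at h1
    have h2 : δ ^ (α + β) * ((C ((β : ℂ) - α) * DD (y k) δ * p' k) * q') =
        δ ^ (α + β) * (δ * (q' * DD (y k) (p' k) - p' k * DD (y k) q')) := by
      have h3 := congrArg (fun s => δ * s) h1
      have e1 : δ * (δ ^ β * q' * (DD (y k) (δ ^ α) * p' k + δ ^ α * DD (y k) (p' k))) =
          δ ^ β * q' * ((δ * DD (y k) (δ ^ α)) * p' k) +
            δ ^ (α + β) * (δ * (q' * DD (y k) (p' k))) := by ring
      have e2 : δ * (δ ^ α * p' k * (DD (y k) (δ ^ β) * q' + δ ^ β * DD (y k) q')) =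
          δ ^ α * p' k * ((δ * DD (y k) (δ ^ β)) * q') +
            δ ^ (α + β) * (δ * (p' k * DD (y k) q')) := by ring
      rw [e1, e2, mul_DD_pow, mul_DD_pow] at h3
      rw [map_sub]
      linear_combination -h3
    have h4 := mul_left_cancel₀ (pow_ne_zero _ hδ0) h2
    have h5 : δ ∣ (C ((β : ℂ) - α) * DD (y k) δ * p' k) * q' := ⟨_, h4⟩
    have h6 := (hδp.dvd_or_dvd h5).resolve_right hq'
    have h7 := (hδp.dvd_or_dvd h6).resolve_right hk
    have hne : ((β : ℂ) - α) ≠ 0 := by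
      intro h0
      have : (β : ℂ) = α := sub_eq_zero.mp h0
      have : β = α := by exact_mod_cast this
      omega
    have hu : IsUnit (C ((β : ℂ) - α) : MvPolynomial (Fin f) ℂ) :=
      (isUnit_iff_ne_zero.mpr hne).map C
    rcases hδp.dvd_or_dvd h7 with h8 | h8
    · exact absurd (isUnit_of_dvd_unit h8 hu) hδ.not_isUnit
    · exact h8
  -- the relation
  have hf0 : 0 < f := by
    by_contra hcon
    have hf : f = 0 := by omega
    subst hf
    have h1 := aux_irr_deg δ hδ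
    rw [eq_C_of_isEmpty δ, totalDegree_C] at h1
    omega
  have hrel' : Rel y m p' := by
    apply rel_of_generic y m p' (δ * X (⟨0, hf0⟩ : Fin f)) (mul_ne_zero hδ0 (X_ne_zero _))
    intro P hP η hη
    rw [map_mul, eval_X] at hP
    have hP1 := left_ne_zero_of_mul hP
    have hP0 : P ≠ 0 := by
      rintro rfl
      exact right_ne_zero_of_mul hP rfl
    have h1 := h.hrel P hP0 η hη
    simp only [hpe, map_mul, map_pow, mul_assoc, ← Finset.mul_sum] at h1
    exact (mul_eq_zero.mp h1).resolve_left (pow_ne_zero _ hP1)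
  -- the span
  set U : Submodule ℂ (Fin f → ℂ) := Submodule.span ℂ {x | ∃ k, ¬ δ ∣ p' k ∧ x = y k} with hU
  have hUD : ∀ x ∈ U, DD x δ = 0 := by
    intro x hx
    refine Submodule.span_induction (p := fun x _ => DD x δ = 0) ?_ ?_ ?_ ?_ hx
    · rintro _ ⟨k, hk, rfl⟩
      exact hDD k hk
    · simp [DD]
    · intro x y _ _ hx hy
      have : DD (x + y) δ = DD x δ + DD y δ := by
        simp only [DD, Pi.add_apply, map_add, add_mul, Finset.sum_add_distrib]
      rw [this, hx, hy, add_zero]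
    · intro c x _ hx
      have : DD (c • x) δ = C c * DD x δ := by
        simp only [DD, Pi.smul_apply, smul_eq_mul, map_mul, mul_assoc, Finset.mul_sum]
      rw [this, hx, mul_zero]
  obtain ⟨x₀, hx₀⟩ : ∃ x₀, x₀ ∉ U := by
    by_contra hcon
    push Not at hcon
    obtain ⟨c, hc⟩ := const_of_DD δ fun z => hUD z (hcon z)
    have h1 := aux_irr_deg δ hδ
    rw [hc, totalDegree_C] at h1
    omega
  have hmem : ∀ P, eval P δ = 0 → (∀ k, ¬ δ ∣ p' k → eval P (p' k) ≠ 0) → P ∈ U := by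
    intro P hPδ hPk
    by_contra hPU
    obtain ⟨θ, hθ1, hθ2⟩ := card_rel_sep U P hPU
    have hP0 : P ≠ 0 := by rintro rfl; exact hPU (Submodule.zero_mem _)
    have hzero : ∀ k, δ ∣ p' k → eval P (p' k) = 0 := by
      rintro k ⟨s, hs⟩
      rw [hs, map_mul, hPδ, zero_mul]
    have h1 := h.hind (fun k => eval P (p' k)) (fun k hk => by
      have h2 := hpe k
      rw [hk] at h2
      have h3 := (mul_eq_zero.mp h2.symm).resolve_left (pow_ne_zero _ hδ0)
      simp only [h3, map_zero]) (fun η => by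
        have h4 := hrel' P hP0 (η - ((P ⬝ᵥ η) / (P ⬝ᵥ θ)) • θ) (by
          rw [dotProduct_sub, dotProduct_smul, smul_eq_mul, div_mul_cancel₀ _ hθ2, sub_self])
        rw [← h4]
        refine Finset.sum_congr rfl fun k _ => ?_
        by_cases hk : δ ∣ p' k
        · simp only [hzero k hk, zero_mul]
        · have h5 : y k ⬝ᵥ θ = 0 := hθ1 _ (Submodule.subset_span ⟨k, hk, rfl⟩)
          simp only [dotProduct_sub, dotProduct_smul, h5, smul_zero, sub_zero])
    exact hPk k₂ hk₂ (h1 k₂)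
  have hlf : ∀ ξ : Fin f → ℂ, (∀ x ∈ U, x ⬝ᵥ ξ = 0) → δ ∣ lf ξ := by
    intro ξ hξ
    have h1 : δ ∣ lf ξ * ∏ k ∈ Finset.univ.filter (fun k => ¬ δ ∣ p' k), p' k := by
      apply dvd_of_vanish hδ
      intro P hP
      rw [map_mul, map_prod]
      by_cases hall : ∀ k, ¬ δ ∣ p' k → eval P (p' k) ≠ 0
      · rw [eval_lf, dotProduct_comm, hξ P (hmem P hP hall), zero_mul]
      · push Not at hall
        obtain ⟨k, hk1, hk2⟩ := hall
        rw [Finset.prod_eq_zero (Finset.mem_filter.mpr ⟨Finset.mem_univ k, hk1⟩) hk2, mul_zero]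
    rcases hδp.dvd_or_dvd h1 with h2 | h2
    · exact h2
    · rw [Prime.dvd_finsetProd_iff hδp] at h2
      obtain ⟨k, hk, hk2⟩ := h2
      exact absurd hk2 (Finset.mem_filter.mp hk).2
  obtain ⟨ξ, hξ1, hξ2⟩ := card_rel_sep U x₀ hx₀
  have hξ0 : ξ ≠ 0 := by rintro rfl; simp at hξ2
  have hass := assoc_of_dvd_lf hδ hξ0 (hlf ξ hξ1)
  obtain ⟨v, hv⟩ := hass.symm
  -- `lf ξ * v = δ`
  have hvp : ∀ n : ℕ, δ ^ n = lf ξ ^ n * (v : MvPolynomial (Fin f) ℂ) ^ n := by
    intro n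
    rw [← mul_pow, hv]
  refine ⟨ξ, α, β, fun k => (v : MvPolynomial (Fin f) ℂ) ^ α * p' k,
    (v : MvPolynomial (Fin f) ℂ) ^ β * q', hξ0, hass.irreducible hδ, hαβ, ?_, ?_, ?_, ?_, ?_⟩
  · intro k
    rw [hpe k, hvp]; ring
  · conv_lhs => rw [hqe, hvp]
    ring
  · intro h1
    apply hq'
    have h2 := hass.dvd.trans h1
    rcases hδp.dvd_or_dvd h2 with h3 | h3
    · exact absurd (isUnit_of_dvd_unit h3 (v.isUnit.pow β)) hδ.not_isUnit
    · exact h3
  · refine ⟨k₂, fun h1 => ?_⟩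
    have h2 := hass.dvd.trans h1
    rcases hδp.dvd_or_dvd h2 with h3 | h3
    · exact absurd (isUnit_of_dvd_unit h3 (v.isUnit.pow α)) hδ.not_isUnit
    · exact hk₂ h3
  · intro k hk
    apply hξ1
    refine Submodule.subset_span ⟨k, fun h1 => hk ?_, rfl⟩
    exact Dvd.dvd.mul_left (hass.symm.dvd.trans h1) _

end Pool.Agent.Y206.G
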