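import Pool.Agent.Y206.G.Step

set_option autoImplicit false
open MvPolynomial
open Pool.Agent.Helper947.Geo

namespace Pool.Agent.Y206.G

theorem exists_ker_basis {f : ℕ} (ξ : Fin (f + 1) → ℂ) (hξ : ξ ≠ 0) :
    ∃ u : Fin f → Fin (f + 1) → ℂ, LinearIndependent ℂ u ∧ (∀ j, u j ⬝ᵥ ξ = 0) ∧
      ∀ x, x ⬝ᵥ ξ = 0 → ∃ c : Fin f → ℂ, ∑ j, c j • u j = x := by
  classical
  let φ : (Fin (f + 1) → ℂ) →ₗ[ℂ] ℂ :=
    { toFun := fun x => x ⬝ᵥ ξ
      map_add' := fun x y => by simp [add_dotProduct]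
      map_smul' := fun c x => by simp [smul_dotProduct] }
  have hφ : φ ≠ 0 := by
    intro h0
    obtain ⟨j, hj⟩ := Function.ne_iff.mp hξ
    have h1 := LinearMap.congr_fun h0 (Pi.single j 1)
    have h2 : φ (Pi.single j 1) = ξ j := by
      show (Pi.single j 1 : Fin (f + 1) → ℂ) ⬝ᵥ ξ = ξ j
      rw [single_dotProduct, one_mul]
    rw [h2] at h1
    exact hj h1
  have hr : LinearMap.range φ = ⊤ := LinearMap.range_eq_top.mpr (LinearMap.surjective hφ)
  have hfin : Module.finrank ℂ (LinearMap.ker φ) = f := by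
    have h1 := LinearMap.finrank_range_add_finrank_ker φ
    rw [hr, finrank_top] at h1
    simp at h1
    omega
  let B := Module.finBasisOfFinrankEq ℂ (LinearMap.ker φ) hfin
  refine ⟨fun j => (B j : Fin (f + 1) → ℂ), ?_, ?_, ?_⟩
  · exact B.linearIndependent.map' (LinearMap.ker φ).subtype (Submodule.ker_subtype _)
  · intro j
    exact (B j).2
  · intro x hx
    refine ⟨fun j => B.repr ⟨x, hx⟩ j, ?_⟩
    have h1 := congrArg Subtype.val (B.sum_repr ⟨x, hx⟩)
    rw [Submodule.coe_sum] at h1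
    simpa only [Submodule.coe_smul] using h1

theorem pow_homog {d : ℕ} (ξ : Fin d → ℂ) (n : ℕ) : (lf ξ ^ n).IsHomogeneous n := by
  have := (lf_homog ξ).pow n
  rwa [one_mul] at this

theorem le_of_factor {d a n : ℕ} {ξ : Fin d → ℂ} (hξ : ξ ≠ 0) {g h : MvPolynomial (Fin d) ℂ}
    (hg : g.IsHomogeneous a) (hg0 : g ≠ 0) (he : g = lf ξ ^ n * h) : n ≤ a := by
  have hh : h ≠ 0 := by rintro rfl; rw [mul_zero] at he; exact hg0 he
  have h1 := totalDegree_mul_of_isDomain (pow_ne_zero n (lf_ne hξ)) hh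
  rw [← he, hg.totalDegree hg0, (pow_homog ξ n).totalDegree (pow_ne_zero n (lf_ne hξ))] at h1
  omega

/-- restriction of a system to a polar hyperplane -/
theorem Sys.step {f : ℕ} (hf : 2 ≤ f) {K : Type} [Fintype K] {y : K → Fin (f + 1) → ℂ}
    {m a b : ℕ} {p : K → MvPolynomial (Fin (f + 1)) ℂ} {q : MvPolynomial (Fin (f + 1)) ℂ}
    (h : Sys y m a b p q) :
    ∃ (u : Fin f → Fin (f + 1) → ℂ) (y' : K → Fin f → ℂ) (a' b' : ℕ)
      (p' : K → MvPolynomial (Fin f) ℂ) (q' : MvPolynomial (Fin f) ℂ), Sys y' m a' b' p' q' ∧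
      (∀ k, p' k ≠ 0 → p k ≠ 0 ∧ ∑ j, y' k j • u j = y k) ∧ b' + a + 1 ≤ b + a' := by
  classical
  have hab := harmonic (by omega) y m a b p q h.hp h.hq h.hpa h.hqb h.hinv h.hrel h.hind
  obtain ⟨ξ, α, β, p₁, q₁, hξ0, hirr, hαβ, hpe, hqe, hq₁, ⟨k₂, hk₂⟩, hys⟩ := h.pole (by omega)
  obtain ⟨u, hui, huξ, husp⟩ := exists_ker_basis ξ hξ0
  have hlam0 := lf_ne hξ0
  -- coordinates
  have hy' : ∀ k, ∃ c : Fin f → ℂ, ¬ lf ξ ∣ p₁ k → ∑ j, c j • u j = y k := by
    intro k
    by_cases hk : lf ξ ∣ p₁ k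
    · exact ⟨0, fun h1 => absurd hk h1⟩
    · obtain ⟨c, hc⟩ := husp (y k) (hys k hk)
      exact ⟨c, fun _ => hc⟩
  choose y' hy' using hy'
  have hker : ∀ P, eval P (lf ξ) = 0 → ∃ x : Fin f → ℂ, ∑ j, x j • u j = P := by
    intro P hP
    rw [eval_lf, dotProduct_comm] at hP
    exact husp P hP
  have hsub0 : ∀ g : MvPolynomial (Fin (f + 1)) ℂ, sub u g = 0 ↔ lf ξ ∣ g := by
    intro g
    constructor
    · intro hg
      apply dvd_of_vanish hirr
      intro P hP
      obtain ⟨x, rfl⟩ := hker P hP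
      rw [← eval_sub, hg, map_zero]
    · rintro ⟨s, rfl⟩
      apply MvPolynomial.funext
      intro x
      rw [eval_sub, map_mul, eval_lf, map_zero]
      have : ξ ⬝ᵥ ∑ j, x j • u j = 0 := by
        rw [dotProduct_sum]
        refine Finset.sum_eq_zero fun j _ => ?_
        rw [dotProduct_smul, dotProduct_comm, huξ j, smul_zero]
      rw [this, zero_mul]
  have hp₂0 : p₁ k₂ ≠ 0 := by
    intro h0
    exact hk₂ (by rw [h0]; exact dvd_zero _)
  have hαa : α ≤ a := le_of_factor hξ0 (h.hpa k₂)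
    (by rw [hpe k₂]; exact mul_ne_zero (pow_ne_zero _ hlam0) hp₂0) (hpe k₂)
  have hβb : β ≤ b := le_of_factor hξ0 h.hqb h.hq hqe
  have hrel₁ : Rel y m p₁ := by
    apply rel_of_generic y m p₁ (lf ξ * X (⟨0, by omega⟩ : Fin (f + 1)))
      (mul_ne_zero hlam0 (X_ne_zero _))
    intro P hP η hη
    rw [map_mul, eval_X] at hP
    have hP1 := left_ne_zero_of_mul hP
    have hP0 : P ≠ 0 := by
      rintro rfl
      exact right_ne_zero_of_mul hP rfl
    have h1 := h.hrel P hP0 η hη
    simp only [hpe, map_mul, map_pow, mul_assoc, ← Finset.mul_sum] at h1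
    exact (mul_eq_zero.mp h1).resolve_left (pow_ne_zero _ hP1)
  refine ⟨u, y', a - α, b - β, fun k => sub u (p₁ k), sub u q₁, ?_, ?_, by omega⟩
  · refine ⟨⟨k₂, ?_⟩, ?_, ?_, ?_, ?_, ?_, ?_⟩
    · intro h0
      exact hk₂ ((hsub0 _).mp h0)
    · intro h0
      exact hq₁ ((hsub0 _).mp h0)
    · intro k
      apply sub_hom
      apply homog_cancel (pow_homog ξ α) (pow_ne_zero _ hlam0)
      rw [← hpe k, Nat.add_sub_cancel' hαa]
      exact h.hpa k
    · apply sub_hom
      apply homog_cancel (pow_homog ξ β) (pow_ne_zero _ hlam0)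
      rw [← hqe, Nat.add_sub_cancel' hβb]
      exact h.hqb
    · intro k
      by_cases hk : lf ξ ∣ p₁ k
      · have h0 := (hsub0 _).mpr hk
        rw [h0]
        simp [DD]
      · rw [sub_DD, sub_DD, hy' k hk, ← map_mul, ← map_mul]
        congr 1
        have h1 := h.hinv k
        have hz : DD (y k) (lf ξ) = 0 := by
          rw [DD_lf, dotProduct_comm, hys k hk, C_0]
        have hzp : ∀ n : ℕ, DD (y k) (lf ξ ^ n) = 0 := by
          intro n
          have h2 := mul_DD_pow (y k) (lf ξ) n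
          rw [hz, mul_zero] at h2
          exact (mul_eq_zero.mp h2).resolve_left hlam0
        rw [hpe k, hqe, DD_mul, DD_mul, hzp, hzp, zero_mul, zero_mul, zero_add, zero_add] at h1
        apply mul_left_cancel₀ (pow_ne_zero (α + β) hlam0)
        calc lf ξ ^ (α + β) * (q₁ * DD (y k) (p₁ k))
            = lf ξ ^ β * q₁ * (lf ξ ^ α * DD (y k) (p₁ k)) := by ring
          _ = lf ξ ^ α * p₁ k * (lf ξ ^ β * DD (y k) q₁) := h1
          _ = _ := by ring
    · intro x hx η hη
      obtain ⟨ζ, hζ⟩ := exists_coord u hui η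
      have hP0 : ∑ j, x j • u j ≠ 0 := by
        intro h0
        apply hx
        exact funext (Fintype.linearIndependent_iff.mp hui x h0)
      have h1 := hrel₁ (∑ j, x j • u j) hP0 ζ (by
        rw [sum_dotProduct]
        simp only [smul_dotProduct, hζ, smul_eq_mul]
        exact hη)
      rw [← h1]
      refine Finset.sum_congr rfl fun k _ => ?_
      simp only [eval_sub]
      by_cases hk : lf ξ ∣ p₁ k
      · have h0 := (hsub0 _).mpr hk
        rw [← eval_sub, h0, map_zero, zero_mul, zero_mul]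
      · congr 2
        rw [← hy' k hk, sum_dotProduct]
        simp only [smul_dotProduct, hζ, smul_eq_mul]
        rfl
    · intro c hc hη
      apply h.hind c
      · intro k hk
        apply hc
        have h1 := hpe k
        rw [hk] at h1
        have h2 := (mul_eq_zero.mp h1.symm).resolve_left (pow_ne_zero _ hlam0)
        simp only [h2, map_zero]
      · intro ζ
        rw [← hη (fun j => u j ⬝ᵥ ζ)]
        refine Finset.sum_congr rfl fun k _ => ?_
        by_cases hk : lf ξ ∣ p₁ k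
        · have h0 := (hsub0 _).mpr hk
          rw [hc k h0, zero_mul, zero_mul]
        · congr 2
          rw [← hy' k hk, sum_dotProduct]
          simp only [smul_dotProduct, smul_eq_mul]
          rfl
  · intro k hk
    have hk' : ¬ lf ξ ∣ p₁ k := fun h1 => hk ((hsub0 _).mpr h1)
    refine ⟨?_, hy' k hk'⟩
    intro h0
    have h1 := hpe k
    rw [h0] at h1
    have h2 := (mul_eq_zero.mp h1.symm).resolve_left (pow_ne_zero _ hlam0)
    exact hk' (by rw [h2]; exact dvd_zero _)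

end Pool.Agent.Y206.G
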